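import Pool.Agent.Helper66.SC.Ops

universe u

namespace Pool.Agent.Helper66.SC

open ZFSet

/-! # Notation -/

/-- The von Neumann ordinal of `o`. -/
noncomputable abbrev oz (o : Ordinal.{u}) : ZFSet.{u} := o.toZFSet

/-- The von Neumann natural number `n`. -/
noncomputable abbrev nz (n : ℕ) : ZFSet.{u} := Ordinal.toZFSet (n : Ordinal.{u})

/-- The class of all structures which are transitive models of ZF in the expanded language. -/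
def CZ : Cls.{u} := fun M A => IsZF M A

/-- The class of all structures which are transitive models of ZF in the expanded language
and satisfy the axiom of choice. -/
def CZC : Cls.{u} := fun M A => IsZF M A ∧ HasChoice M

/-- Every set of `M` injects, in `M`, into an ordinal of `M`. -/
def WO (M : Set ZFSet.{u}) : Prop :=
  ∀ x ∈ M, ∃ o : Ordinal.{u}, oz o ∈ M ∧ CardLe M x (oz o)

/-! # Forcing

The poset is a set `P` of sets, ordered by reverse inclusion (`q` is stronger than `p` when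
`p ⊆ q`), with `∅ ∈ P` as weakest condition. -/

/-- `G` is a filter on `P` which meets every dense subset of `P` that is an element of `M`. -/
structure IsGeneric (M : Set ZFSet.{u}) (P G : ZFSet.{u}) : Prop where
  sub : G ⊆ P
  top : ∅ ∈ G
  up : ∀ p ∈ G, ∀ q ∈ P, q ⊆ p → q ∈ G
  dir : ∀ p ∈ G, ∀ q ∈ G, ∃ r ∈ G, p ⊆ r ∧ q ⊆ r
  meets : ∀ D ∈ M, D ⊆ P → (∀ p ∈ P, ∃ q ∈ D, p ⊆ q) → ∃ p ∈ G, p ∈ D

theorem rank_lt_of_pair_mem {x y t : ZFSet.{u}} (h : pair x y ∈ t) : x.rank < t.rank := by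
  refine lt_trans ?_ (rank_lt_of_mem h)
  have h1 : x ∈ ({x} : ZFSet.{u}) := ZFSet.mem_singleton.2 rfl
  have h2 : ({x} : ZFSet.{u}) ∈ pair x y := by
    unfold pair
    exact ZFSet.mem_pair.2 (Or.inl rfl)
  exact (rank_lt_of_mem h1).trans (rank_lt_of_mem h2)

/-- The relevant part of the domain of the name `τ`. -/
noncomputable def ndom (G τ : ZFSet.{u}) : ZFSet.{u} :=
  (sUnion (sUnion τ)).sep (fun σ => ∃ p ∈ G, pair σ p ∈ τ)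

theorem mem_ndom {G τ σ : ZFSet.{u}} : σ ∈ ndom G τ ↔ ∃ p ∈ G, pair σ p ∈ τ := by
  unfold ndom
  rw [ZFSet.mem_sep]
  constructor
  · exact fun h => h.2
  · rintro ⟨p, hp, h⟩
    refine ⟨?_, p, hp, h⟩
    rw [ZFSet.mem_sUnion]
    refine ⟨{σ}, ?_, ZFSet.mem_singleton.2 rfl⟩
    rw [ZFSet.mem_sUnion]
    refine ⟨_, h, ?_⟩
    unfold pair
    exact ZFSet.mem_pair.2 (Or.inl rfl)

/-- The value of the name `τ`: the set of all values of `σ` with `(σ, p) ∈ τ` for some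
`p ∈ G`. -/
noncomputable def val (G τ : ZFSet.{u}) : ZFSet.{u} :=
  ZFSet.range (fun σ : {σ // σ ∈ ndom G τ} => val G σ.1)
termination_by τ.rank
decreasing_by
  obtain ⟨p, _, h⟩ := mem_ndom.1 σ.2
  exact rank_lt_of_pair_mem h

theorem mem_val {G τ x : ZFSet.{u}} :
    x ∈ val G τ ↔ ∃ σ p, p ∈ G ∧ pair σ p ∈ τ ∧ x = val G σ := by
  rw [val, ZFSet.mem_range]
  constructor
  · rintro ⟨⟨σ, hσ⟩, rfl⟩
    obtain ⟨p, hp, h⟩ := mem_ndom.1 hσ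
    exact ⟨σ, p, hp, h, rfl⟩
  · rintro ⟨σ, p, hp, h, rfl⟩
    exact ⟨⟨σ, mem_ndom.2 ⟨p, hp, h⟩⟩, rfl⟩

/-- The generic extension `M[G]`. -/
def Ext (M : Set ZFSet.{u}) (G : ZFSet.{u}) : Set ZFSet.{u} := {x | ∃ τ ∈ M, x = val G τ}

/-- The canonical name of `x`. -/
noncomputable def chk (x : ZFSet.{u}) : ZFSet.{u} :=
  ZFSet.range (fun y : {y // y ∈ x} => pair (chk y.1) ∅)
termination_by x.rank
decreasing_by exact rank_lt_of_mem y.2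

theorem mem_chk {x z : ZFSet.{u}} : z ∈ chk x ↔ ∃ y ∈ x, z = pair (chk y) ∅ := by
  rw [chk, ZFSet.mem_range]
  constructor
  · rintro ⟨⟨y, hy⟩, rfl⟩
    exact ⟨y, hy, rfl⟩
  · rintro ⟨y, hy, rfl⟩
    exact ⟨⟨y, hy⟩, rfl⟩

/-- `p` forces `x = y`. -/
def FEq (P x y p : ZFSet.{u}) : Prop :=
  (∀ z s, ∀ _ : pair z s ∈ x, s ∈ P → ∀ q ∈ P, p ⊆ q → s ⊆ q →
    ∃ r ∈ P, q ⊆ r ∧ ∃ w t, pair w t ∈ y ∧ t ∈ P ∧ t ⊆ r ∧ FEq P z w r) ∧
  (∀ w t, pair w t ∈ y → t ∈ P → ∀ q ∈ P, p ⊆ q → t ⊆ q →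
    ∃ r ∈ P, q ⊆ r ∧ ∃ z s, ∃ _ : pair z s ∈ x, s ∈ P ∧ s ⊆ r ∧ FEq P z w r)
termination_by x.rank
decreasing_by
  all_goals exact rank_lt_of_pair_mem (by assumption)

/-- `p` forces `x ∈ y`. -/
def FMem (P x y p : ZFSet.{u}) : Prop :=
  ∀ q ∈ P, p ⊆ q → ∃ r ∈ P, q ⊆ r ∧ ∃ w t, pair w t ∈ y ∧ t ∈ P ∧ t ⊆ r ∧ FEq P x w r

/-- `p` forces `φ(v)`, names ranging over `M`. -/
def Forces (M : Set ZFSet.{u}) (P : ZFSet.{u}) :
    {k : ℕ} → Fml k → (Fin k → ZFSet.{u}) → ZFSet.{u} → Prop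
  | _, .mem i j, v, p => FMem P (v i) (v j) p
  | _, .eq i j, v, p => FEq P (v i) (v j) p
  | _, .pr _, _, _ => False
  | _, .neg φ, v, p => ∀ q ∈ P, p ⊆ q → ¬ Forces M P φ v q
  | _, .and φ ψ, v, p => Forces M P φ v p ∧ Forces M P ψ v p
  | _, .ex φ, v, p => ∀ q ∈ P, p ⊆ q → ∃ r ∈ P, q ⊆ r ∧ ∃ x ∈ M,
      Forces M P φ (Fin.cons x v) r

/-- FB0: generic filters exist over countable `M`. -/
def ST_FB0 : Prop := ∀ (M : Set ZFSet.{u}) (P : ZFSet.{u}), M.Countable → P ∈ M → ∅ ∈ P →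
  (∀ x ∈ M, ∀ y ∈ x, y ∈ M) → ∀ p ∈ P, ∃ G, IsGeneric M P G ∧ p ∈ G

/-- FB1: basic facts on `M[G]`. -/
def ST_FB1 : Prop := ∀ (M A : Set ZFSet.{u}) (P G : ZFSet.{u}), IsZF M A → P ∈ M →
  IsGeneric M P G →
    (∀ x ∈ M, x ∈ Ext M G) ∧ G ∈ Ext M G ∧ (∀ x ∈ Ext M G, ∀ y ∈ x, y ∈ Ext M G) ∧
    (∀ o : Ordinal.{u}, oz o ∈ Ext M G ↔ oz o ∈ M) ∧
    (∀ x ∈ M, chk x ∈ M ∧ val G (chk x) = x)

/-- FB1e: minimality of `M[G]`. -/
def ST_FB1e : Prop := ∀ (M K B : Set ZFSet.{u}) (G : ZFSet.{u}), IsZF K B → M ⊆ K → G ∈ K →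
  Ext M G ⊆ K

/-- FB2: the truth lemma. -/
def ST_FB2 : Prop := ∀ (M A : Set ZFSet.{u}) (P G : ZFSet.{u}), IsZF M A → P ∈ M →
  IsGeneric M P G → ∀ (k : ℕ) (φ : Fml k) (v : Fin k → ZFSet.{u}), (∀ i, v i ∈ M) →
    (Sat (Ext M G) ∅ φ (fun i => val G (v i)) ↔ ∃ p ∈ G, Forces M P φ v p)

/-- FB2a: easy properties of the forcing relation. -/
def ST_FB2a : Prop := ∀ (M : Set ZFSet.{u}) (P : ZFSet.{u}) (k : ℕ) (φ : Fml k)
  (v : Fin k → ZFSet.{u}), (∀ p ∈ P, ∀ q ∈ P, p ⊆ q → Forces M P φ v p → Forces M P φ v q) ∧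
    (∀ p ∈ P, (∀ q ∈ P, p ⊆ q → ∃ r ∈ P, q ⊆ r ∧ Forces M P φ v r) → Forces M P φ v p)

/-- FB3: definability of the forcing relation, uniformly in `M`; the variables are
`0 : p`, `1 : P`, then the names. -/
def ST_FB3 : Prop := ∀ (k : ℕ) (φ : Fml k), UD CZ.{u} (k := k + 2) (fun M _ w =>
  Forces M (w 1) φ (Fin.tail (Fin.tail w)) (w 0))

/-- FB4: `M[G]` is a model of ZF. -/
def ST_FB4 : Prop := ∀ (M : Set ZFSet.{u}) (P G : ZFSet.{u}), IsZF M ∅ → P ∈ M →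
  IsGeneric M P G → IsZF (Ext M G) ∅

/-- FB5: the axiom of choice is preserved. -/
def ST_FB5 : Prop := ∀ (M : Set ZFSet.{u}) (P G : ZFSet.{u}), IsZF M ∅ → P ∈ M →
  IsGeneric M P G → WO M → WO (Ext M G)

/-- AC1. -/
def ST_AC1 : Prop := ∀ (M A : Set ZFSet.{u}), IsZF M A → HasChoice M → WO M

/-- AC2. -/
def ST_AC2 : Prop := ∀ (M A : Set ZFSet.{u}), IsZF M A → WO M → HasChoice M

/-! # Homogeneity -/

/-- `π` is (the graph of) an automorphism of the poset `P`. -/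
def IsAut (P π : ZFSet.{u}) : Prop :=
  IsFunc P P π ∧ (∀ p ∈ P, ∃ q ∈ P, pair q p ∈ π) ∧
    ∀ p q p' q', pair p p' ∈ π → pair q q' ∈ π → (p ⊆ q ↔ p' ⊆ q')

/-- `P` is weakly homogeneous in `M`. -/
def Homog (M : Set ZFSet.{u}) (P : ZFSet.{u}) : Prop :=
  ∀ p ∈ P, ∀ q ∈ P, ∃ π ∈ M, IsAut P π ∧ ∃ p', pair p p' ∈ π ∧ ∃ r ∈ P, p' ⊆ r ∧ q ⊆ r

/-- F1: truth in `M[G]` about elements of `M` is definable in `M`. -/
def ST_F1 : Prop := ∀ (M : Set ZFSet.{u}) (P : ZFSet.{u}), M.Countable → IsZF M ∅ →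
  P ∈ M → ∅ ∈ P → Homog M P → ∀ φ : Fml 1, ∃ ψ : Fml 2, ∀ G, IsGeneric M P G → ∀ x ∈ M,
    (Sat (Ext M G) ∅ φ ![x] ↔ Sat M ∅ ψ ![x, P])

/-- The poset of all functions `p ∈ M` contained in the relation `T` with domain in `J`. -/
noncomputable def FP (M : Set ZFSet.{u}) (T J : ZFSet.{u}) : ZFSet.{u} :=
  (Pow M T).sep (fun p => (∀ x y z, pair x y ∈ p → pair x z ∈ p → y = z) ∧
    (∀ s ∈ p, ∃ x y, s = pair x y) ∧ ∃ d ∈ J, ∀ x, x ∈ d ↔ ∃ y, pair x y ∈ p)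

/-- F2: such posets are homogeneous. -/
def ST_F2 : Prop := ∀ (M A : Set ZFSet.{u}) (T J : ZFSet.{u}), IsZF M A → T ∈ M → J ∈ M →
  (∀ a ∈ J, ∀ b ∈ J, a ∪ b ∈ J) → FP M T J ∈ M ∧ Homog M (FP M T J)

/-- F3: expanding a model of ZF by a predicate definable from parameters. -/
def ST_F3 : Prop := ∀ (M A : Set ZFSet.{u}) (k : ℕ) (ψ : Fml (k + 1)) (p : Fin k → ZFSet.{u}),
  IsZF M ∅ → (∀ i, p i ∈ M) → (∀ x ∈ M, (x ∈ A ↔ Sat M ∅ ψ (Fin.cons x p))) → IsZF M A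

/-! # Constructibility -/

/-- T-L: the function `o ↦ L_o[A]` on ordinals is uniformly definable (on other sets it is
evaluated at the rank). -/
def ST_TL : Prop := UF1 CZ.{u} (fun _ A x => Lv A x.rank)

/-- D0: basic facts on the hierarchy. -/
def ST_D0 : Prop := ∀ (A : Set ZFSet.{u}),
  (∀ o, ∀ x ∈ Lv A o, ∀ y ∈ x, y ∈ Lv A o) ∧ (∀ o o', o ≤ o' → Lv A o ⊆ Lv A o') ∧
  (∀ o o', o < o' → Lv A o ∈ Lv A o') ∧ (∀ o, ∀ a, oz a ∈ Lv A o ↔ a < o) ∧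
  (∀ o, Lv A (o + 1) = DefSub A (Lv A o)) ∧
  (∀ o, Order.IsSuccLimit o → ∀ x, x ∈ Lv A o ↔ ∃ a < o, x ∈ Lv A a)

/-- D1: `L[A]` of `M` is contained in `M`, is transitive and has the same ordinals. -/
def ST_D1 : Prop := ∀ (M A : Set ZFSet.{u}), IsZF M A →
  LOf M A ⊆ M ∧ (∀ x ∈ LOf M A, ∀ y ∈ x, y ∈ LOf M A) ∧
    (∀ o, oz o ∈ LOf M A ↔ oz o ∈ M) ∧ (∀ o, oz o ∈ M → Lv A o ∈ LOf M A)

/-- D2r: reflection. -/
def ST_D2r : Prop := ∀ (M A : Set ZFSet.{u}), IsZF M A → ∀ (k : ℕ) (φ : Fml k) (o : Ordinal.{u}),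
  oz o ∈ M → ∃ a, o < a ∧ oz a ∈ M ∧ ∀ v : Fin k → ZFSet.{u}, (∀ i, v i ∈ Lv A a) →
    (Sat (LOf M A) A φ v ↔ Sat {z | z ∈ Lv A a} A φ v)

/-- D2: `(L[A], A)` is a model of ZF in the expanded language. -/
def ST_D2 : Prop := ∀ (M A : Set ZFSet.{u}), IsZF M A → IsZF (LOf M A) A

/-- D3: levels of the constructible hierarchy inject into ordinals. -/
def ST_D3 : Prop := ∀ (M A : Set ZFSet.{u}), IsZF M A → ∀ o, oz o ∈ M →
  ∃ c, oz c ∈ M ∧ CardLe M (Lv A o) (oz c)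

/-! # The stable core -/

/-- E1: the stability predicate is uniformly definable in models of ZFC. -/
def ST_E1 : Prop := UD1 CZC.{u} (fun M _ x => x ∈ StabPred M)

/-! # Cardinals -/

/-- The closure of `{(0, y) : y ∈ x}` under `(s, t) ↦ (1, (s, t))` (terms over `x` with one
binary function symbol). -/
noncomputable def FMn (x : ZFSet.{u}) : ℕ → ZFSet.{u}
  | 0 => img x (fun y => pair ∅ y)
  | n + 1 => FMn x n ∪ img ((FMn x n).prod (FMn x n)) (fun y => pair {∅} y)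

noncomputable def FM (x : ZFSet.{u}) : ZFSet.{u} := ZFSet.iUnion (fun n => FMn x n)

/-- In `M`, `o` is closed under addition of `ω`, and every set of rank less than `o` injects
into an ordinal less than `o`. -/
def BL (M : Set ZFSet.{u}) (o : Ordinal.{u}) : Prop :=
  oz o ∈ M ∧ Ordinal.omega0 < o ∧ (∀ a < o, a + Ordinal.omega0 < o) ∧
    ∀ x ∈ M, x.rank < o → ∃ c < o, CardLe M x (oz c)

/-- The part of `BL` which we preserve by forcing. -/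
def SL (M : Set ZFSet.{u}) (o : Ordinal.{u}) : Prop :=
  oz o ∈ M ∧ Ordinal.omega0 < o ∧ (∀ a < o, a + Ordinal.omega0 < o) ∧
    (∀ a < o, ∃ c < o, CardLe M (Pow M (oz a)) (oz c)) ∧
    (∀ a < o, ∃ c < o, CardLe M ((oz a).prod (oz a)) (oz c)) ∧
    (∀ a < o, ∃ c < o, CardLe M (FM (oz a)) (oz c))

/-- K1: calculus of `CardLe`. -/
def ST_K1 : Prop := ∀ (M A : Set ZFSet.{u}), IsZF M A →
  (∀ a ∈ M, ∀ b ∈ M, a ⊆ b → CardLe M a b) ∧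
  (∀ a ∈ M, ∀ b ∈ M, ∀ c ∈ M, CardLe M a b → CardLe M b c → CardLe M a c) ∧
  (∀ a ∈ M, ∀ b ∈ M, ∀ a' ∈ M, ∀ b' ∈ M, CardLe M a a' → CardLe M b b' →
    CardLe M (a.prod b) (a'.prod b')) ∧
  (∀ a ∈ M, ∀ b ∈ M, CardLe M a b → CardLe M (Pow M a) (Pow M b)) ∧
  (∀ a ∈ M, ¬ CardLe M (Pow M a) a)

/-- K2: the image of a set which injects into an ordinal injects into the same ordinal. -/
def ST_K2 : Prop := ∀ (M A : Set ZFSet.{u}), IsZF M A → ∀ a ∈ M, ∀ b ∈ M, ∀ s ∈ M,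
  ∀ o, oz o ∈ M → CardLe M a (oz o) →
  (∀ x y z, pair x y ∈ s → pair x z ∈ s → y = z) → (∀ y ∈ b, ∃ x ∈ a, pair x y ∈ s) →
    CardLe M b (oz o)

/-- K3: order types. A set which injects into an ordinal is in bijection with an ordinal. -/
def ST_K3 : Prop := ∀ (M A : Set ZFSet.{u}), IsZF M A → ∀ x ∈ M, ∀ o, oz o ∈ M →
  CardLe M x (oz o) → ∃ c ≤ o, CardLe M x (oz c) ∧ CardLe M (oz c) x

/-- K4: families of small sets. If `s ∈ M` is a set of sets, each of which injects into `z`,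
and `s` injects into `y`, then the union of `s` injects into `y × z`. -/
def ST_K4 : Prop := ∀ (M A : Set ZFSet.{u}), IsZF M A → WO M → ∀ s ∈ M, ∀ y ∈ M, ∀ z ∈ M,
  CardLe M s y → (∀ x ∈ s, CardLe M x z) → CardLe M (sUnion s) (y.prod z)

/-- G0: comparison of the two notions. -/
def ST_G0 : Prop := ∀ (M A : Set ZFSet.{u}), IsZF M A → ∀ o, BL M o → SL M o

/-- G1: an increasing sequence of such ordinals inside `M`. -/
def ST_G1 : Prop := ∀ (M : Set ZFSet.{u}), IsZF M ∅ → WO M → ∃ L : ℕ → Ordinal.{u},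
  StrictMono L ∧ (∀ n, BL M (L n)) ∧ ∃ f ∈ M, ∀ x, x ∈ f ↔ ∃ n : ℕ, x = pair (nz n) (oz (L n))

/-- The poset `P` splits in `M` as the product of `Q` and `R`. -/
structure Split (M : Set ZFSet.{u}) (P Q R : ZFSet.{u}) : Prop where
  hP : P ∈ M
  hQ : Q ∈ M
  hR : R ∈ M
  eQ : ∅ ∈ Q
  eR : ∅ ∈ R
  un : ∀ b ∈ Q, ∀ q ∈ R, b ∪ q ∈ P
  dec : ∀ p ∈ P, ∃ b ∈ Q, ∃ q ∈ R, p = b ∪ q
  cmp : ∀ b ∈ Q, ∀ b' ∈ Q, ∀ q ∈ R, ∀ q' ∈ R, b ∪ q ⊆ b' ∪ q' → b ⊆ b' ∧ q ⊆ q'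

/-- In `M`, `R` is closed under unions of chains which inject into `x`. -/
def ChainClosed (M : Set ZFSet.{u}) (R x : ZFSet.{u}) : Prop :=
  ∀ c ∈ M, c ⊆ R → (∀ a ∈ c, ∀ b ∈ c, a ⊆ b ∨ b ⊆ a) → CardLe M c x → c ≠ ∅ → sUnion c ∈ R

/-- G2 (fusion): new subsets of `μ` are coded by old subsets of `μ × Q`. -/
def ST_G2 : Prop := ∀ (M : Set ZFSet.{u}) (P Q R G : ZFSet.{u}) (μ θ : Ordinal.{u}),
  IsZF M ∅ → WO M → Split M P Q R → IsGeneric M P G → oz μ ∈ M → oz θ ∈ M →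
  CardLe M ((oz μ).prod Q) (oz θ) → ChainClosed M R (oz θ) →
  ∀ X ∈ Ext M G, X ⊆ oz μ → ∃ σ ∈ M, σ ⊆ (oz μ).prod Q ∧
    ∀ x ∈ oz μ, (x ∈ X ↔ ∃ b ∈ G, b ∈ Q ∧ pair x b ∈ σ)

/-- G3: preservation of `SL`. -/
def ST_G3 : Prop := ∀ (M : Set ZFSet.{u}) (P Q R G : ZFSet.{u}) (o : Ordinal.{u}),
  IsZF M ∅ → WO M → Split M P Q R → IsGeneric M P G → SL M o →
  (∃ c < o, CardLe M Q (oz c)) → (∀ θ < o, ChainClosed M R (oz θ)) → SL (Ext M G) o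

/-- G4: `SL` ordinals are strong limit cardinals. -/
def ST_G4 : Prop := ∀ (M A : Set ZFSet.{u}), IsZF M A → ∀ o, SL M o → IsStrongLimitIn M (oz o)

/-- G5a: small transitive models of true `Σ_1` statements. -/
def ST_G5a : Prop := ∀ (M : Set ZFSet.{u}), IsZF M ∅ → WO M → ∀ (k : ℕ) (φ : Fml (k + 1)),
  IsSigma 1 φ → ∀ T ∈ M, T.IsTransitive → ∀ μ : Ordinal.{u}, 0 < μ → oz μ ∈ M →
  CardLe M T (oz μ) → ∀ v : Fin k → ZFSet.{u}, (∀ i, v i ∈ T) →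
  ∀ t ∈ M, t.IsTransitive → T ⊆ t → ∀ y ∈ t, Sat {z | z ∈ t} ∅ φ (Fin.cons y v) →
    ∃ t' ∈ M, t'.IsTransitive ∧ T ⊆ t' ∧
      (∃ y' ∈ t', Sat {z | z ∈ t'} ∅ φ (Fin.cons y' v)) ∧
      ∃ s ∈ M, (∀ x y z, pair x y ∈ s → pair x z ∈ s → y = z) ∧
        ∀ z ∈ t', ∃ w ∈ FM (oz μ), pair w z ∈ s

/-- SR: satisfaction of a fixed formula in a set. -/
def ST_SR : Prop := ∀ (k : ℕ) (φ : Fml k),
  UD CZ.{u} (k := k + 1) (fun _ A w => Sat {z | z ∈ w 0} A φ (Fin.tail w)) ∧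
  UD CZ.{u} (k := k + 1) (fun _ _ w => Sat {z | z ∈ w 0} ∅ φ (Fin.tail w))

/-- G5: `Σ_1` collection at `SL` ordinals. -/
def ST_G5 : Prop := ∀ (M : Set ZFSet.{u}), IsZF M ∅ → WO M → ∀ o, SL M o →
  SigmaColl 1 (Hset M (oz o))

/-! # The Cohen poset -/

/-- Finite partial functions from `ω` to `2`, in the form: functions whose domain is bounded
in `ω`. -/
noncomputable def Coh (M : Set ZFSet.{u}) : ZFSet.{u} :=
  FP M (ZFSet.omega.prod {∅, {∅}}) ((Pow M ZFSet.omega).sep (fun d => ∃ n : ℕ, d ⊆ nz n))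

/-- The generic real. -/
noncomputable def real (G : ZFSet.{u}) : ZFSet.{u} :=
  ZFSet.omega.sep (fun n => ∃ p ∈ G, pair n {∅} ∈ p)

/-- H1: the facts about the Cohen poset. -/
def ST_H1 : Prop := ∀ (M A : Set ZFSet.{u}), IsZF M A → Coh M ∈ M ∧ ∅ ∈ Coh M ∧
  Homog M (Coh M) ∧ (∀ o, BL M o → ∃ c < o, CardLe M (Coh M) (oz c)) ∧
  (∀ G, IsGeneric M (Coh M) G → real G ∉ M ∧
    (∀ K B : Set ZFSet.{u}, IsZF K B → M ⊆ K → (real G ∈ K ↔ G ∈ K)))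

/-! # The coding poset -/

/-- `β_0 = ω`, `β_(n+1) = λ_n`. -/
noncomputable def bta (L : ℕ → Ordinal.{u}) : ℕ → Ordinal.{u}
  | 0 => Ordinal.omega0
  | n + 1 => L n

noncomputable def ZZ (M : Set ZFSet.{u}) (L : ℕ → Ordinal.{u}) (n : ℕ) : ZFSet.{u} :=
  Pow M (ZFSet.omega.prod (oz (bta L n)))

/-- The least ordinal which does not inject into `ZZ n` in `M`. -/
noncomputable def kap (M : Set ZFSet.{u}) (L : ℕ → Ordinal.{u}) (n : ℕ) : Ordinal.{u} :=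
  sInf {o | ¬ CardLe M (oz o) (ZZ M L n)}

/-- The relation `T`: all `((n, ξ), η)` with `n ∈ r`, `ξ < κ_n`, `η < λ_n`. -/
noncomputable def TT (M : Set ZFSet.{u}) (L : ℕ → Ordinal.{u}) (r : ZFSet.{u}) : ZFSet.{u} :=
  ((ZFSet.omega.prod (oz (⨆ n, L n))).prod (oz (⨆ n, L n))).sep (fun x =>
    ∃ (n : ℕ) (ξ η : Ordinal.{u}), nz n ∈ r ∧ ξ < kap M L n ∧ η < L n ∧
      x = pair (pair (nz n) (oz ξ)) (oz η))

/-- The ideal of domains: all `d ∈ M` with each section `d_n` injecting into `ZZ n`. -/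
noncomputable def JJ (M : Set ZFSet.{u}) (L : ℕ → Ordinal.{u}) : ZFSet.{u} :=
  (Pow M (ZFSet.omega.prod (oz (⨆ n, L n)))).sep (fun d =>
    ∀ n : ℕ, CardLe M ((oz (⨆ n, L n)).sep (fun ξ => pair (nz n) ξ ∈ d)) (ZZ M L n))

/-- The coding poset. -/
noncomputable def PP (M : Set ZFSet.{u}) (L : ℕ → Ordinal.{u}) (r : ZFSet.{u}) : ZFSet.{u} :=
  FP M (TT M L r) (JJ M L)

/-- The conditions with coordinates below `j`. -/
noncomputable def PPlo (M : Set ZFSet.{u}) (L : ℕ → Ordinal.{u}) (r : ZFSet.{u}) (j : ℕ) :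
    ZFSet.{u} :=
  (PP M L r).sep (fun p => ∀ (n : ℕ) (x y : ZFSet.{u}), pair (pair (nz n) x) y ∈ p → n < j)

/-- The conditions with coordinates above `j`. -/
noncomputable def PPhi (M : Set ZFSet.{u}) (L : ℕ → Ordinal.{u}) (r : ZFSet.{u}) (j : ℕ) :
    ZFSet.{u} :=
  (PP M L r).sep (fun p => ∀ (n : ℕ) (x y : ZFSet.{u}), pair (pair (nz n) x) y ∈ p → j < n)

/-- The hypotheses on the sequence. -/
structure LSeq (M : Set ZFSet.{u}) (L : ℕ → Ordinal.{u}) : Prop where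
  mono : StrictMono L
  sl : ∀ n, SL M (L n)
  mem : ∃ f ∈ M, ∀ x, x ∈ f ↔ ∃ n : ℕ, x = pair (nz n) (oz (L n))

/-- H2: the coding poset is a homogeneous poset in `M`. -/
def ST_H2 : Prop := ∀ (M : Set ZFSet.{u}) (L : ℕ → Ordinal.{u}) (r : ZFSet.{u}), IsZF M ∅ →
  WO M → LSeq M L → r ∈ M → r ⊆ ZFSet.omega →
    PP M L r ∈ M ∧ ∅ ∈ PP M L r ∧ Homog M (PP M L r) ∧
    (∀ n, kap M L n < L n ∧ ¬ CardLe M (oz (kap M L n)) (ZZ M L n))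

/-- H3: the `λ_n` with `n ∈ r` are collapsed. -/
def ST_H3 : Prop := ∀ (M : Set ZFSet.{u}) (L : ℕ → Ordinal.{u}) (r G : ZFSet.{u}), IsZF M ∅ →
  WO M → LSeq M L → r ∈ M → r ⊆ ZFSet.omega → IsGeneric M (PP M L r) G →
    ∀ n : ℕ, nz n ∈ r → ¬ IsCardIn (Ext M G) (oz (L n))

/-- H4: splitting of the coding poset at `j ∉ r`. -/
def ST_H4 : Prop := ∀ (M : Set ZFSet.{u}) (L : ℕ → Ordinal.{u}) (r : ZFSet.{u}), IsZF M ∅ →
  WO M → LSeq M L → r ∈ M → r ⊆ ZFSet.omega → ∀ j : ℕ, nz j ∉ r →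
    Split M (PP M L r) (PPlo M L r j) (PPhi M L r j) ∧
    (∃ c < L j, CardLe M (PPlo M L r j) (oz c)) ∧
    (∀ θ < L j, ChainClosed M (PPhi M L r j) (oz θ))

/-! # A countable transitive model -/

/-- C1. -/
def ST_C1 : Prop := ∃ M : Set ZFSet.{0}, M.Countable ∧ IsZF M ∅

end Pool.Agent.Helper66.SC
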