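import Pool.Agent.Helper66.SC.Defs

universe u

namespace Pool.Agent.Helper66.SC

open ZFSet

theorem sub_tr {x y z : ZFSet.{u}} (h : x ⊆ y) (h' : y ⊆ z) : x ⊆ z := fun _ hw => h' (h hw)

theorem FEq.mono {P x y p q : ZFSet.{u}} (hpq : p ⊆ q) (h : FEq P x y p) : FEq P x y q := by
  rw [FEq] at h ⊢
  exact ⟨fun z s hz hs q' hq' h1 h2 => h.1 z s hz hs q' hq' (sub_tr hpq h1) h2,
    fun w t hw ht q' hq' h1 h2 => h.2 w t hw ht q' hq' (sub_tr hpq h1) h2⟩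

theorem FEq.dens {P x y p : ZFSet.{u}} (h : ∀ q ∈ P, p ⊆ q → ∃ r ∈ P, q ⊆ r ∧ FEq P x y r) :
    FEq P x y p := by
  rw [FEq]
  constructor
  · intro z s hz hs q hq h1 h2
    obtain ⟨r, hr, h3, h4⟩ := h q hq h1
    rw [FEq] at h4
    obtain ⟨r', hr', h5, h6⟩ := h4.1 z s hz hs r hr (fun _ h => h) (sub_tr h2 h3)
    exact ⟨r', hr', sub_tr h3 h5, h6⟩
  · intro w t hw ht q hq h1 h2
    obtain ⟨r, hr, h3, h4⟩ := h q hq h1
    rw [FEq] at h4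
    obtain ⟨r', hr', h5, h6⟩ := h4.2 w t hw ht r hr (fun _ h => h) (sub_tr h2 h3)
    exact ⟨r', hr', sub_tr h3 h5, h6⟩

theorem Forces.mono {M : Set ZFSet.{u}} {P : ZFSet.{u}} {k : ℕ} {φ : Fml k}
    {v : Fin k → ZFSet.{u}} {p q : ZFSet.{u}} (hpq : p ⊆ q) (h : Forces M P φ v p) :
    Forces M P φ v q := by
  induction φ with
  | mem i j => exact fun q' hq' h1 => h q' hq' (sub_tr hpq h1)
  | eq i j => exact FEq.mono hpq h
  | pr i => exact h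
  | neg φ ih => exact fun q' hq' h1 => h q' hq' (sub_tr hpq h1)
  | and φ ψ ih1 ih2 => exact ⟨ih1 h.1, ih2 h.2⟩
  | ex φ ih => exact fun q' hq' h1 => h q' hq' (sub_tr hpq h1)

theorem Forces.dens {M : Set ZFSet.{u}} {P : ZFSet.{u}} {k : ℕ} {φ : Fml k}
    {v : Fin k → ZFSet.{u}} {p : ZFSet.{u}} (hp : p ∈ P)
    (h : ∀ q ∈ P, p ⊆ q → ∃ r ∈ P, q ⊆ r ∧ Forces M P φ v r) : Forces M P φ v p := by
  induction φ with
  | mem i j =>
    intro q hq h1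
    obtain ⟨r, hr, h2, h3⟩ := h q hq h1
    obtain ⟨r', hr', h4, h5⟩ := h3 r hr (fun _ h => h)
    exact ⟨r', hr', sub_tr h2 h4, h5⟩
  | eq i j => exact FEq.dens h
  | pr i =>
    obtain ⟨r, _, _, h3⟩ := h p hp (fun _ h => h)
    exact h3
  | neg φ ih =>
    intro q hq h1 h2
    obtain ⟨r, hr, h3, h4⟩ := h q hq h1
    exact h4 r hr (fun _ h => h) (h2.mono h3)
  | and φ ψ ih1 ih2 =>
    constructor
    · exact ih1 fun q hq h1 => by
        obtain ⟨r, hr, h3, h4⟩ := h q hq h1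
        exact ⟨r, hr, h3, h4.1⟩
    · exact ih2 fun q hq h1 => by
        obtain ⟨r, hr, h3, h4⟩ := h q hq h1
        exact ⟨r, hr, h3, h4.2⟩
  | ex φ ih =>
    intro q hq h1
    obtain ⟨r, hr, h2, h3⟩ := h q hq h1
    obtain ⟨r', hr', h4, h5⟩ := h3 r hr (fun _ h => h)
    exact ⟨r', hr', sub_tr h2 h4, h5⟩

theorem st_FB2a : ST_FB2a.{u} := fun _ _ _ _ _ =>
  ⟨fun _ _ _ _ hpq h => h.mono hpq, fun _ hp h => Forces.dens hp h⟩

end Pool.Agent.Helper66.SC
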