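import Pool.Agent.Helper66.SC.Calc

universe u

namespace Pool.Agent.Helper66.SC

variable {C : Cls.{u}} {k : ℕ}

/-- All structures of the class are transitive models of ZF. -/
def IsZ (C : Cls.{u}) : Prop := ∀ M A, C M A → IsZF M A

theorem IsZ.isT (hC : IsZ C) : IsT C := fun M A h => (hC M A h).trans

/-- The image of `a` under `g`. -/
noncomputable def img (a : ZFSet.{u}) (g : ZFSet.{u} → ZFSet.{u}) : ZFSet.{u} :=
  ZFSet.range (fun x : {x // x ∈ a} => g x.1)

theorem mem_img {a : ZFSet.{u}} {g : ZFSet.{u} → ZFSet.{u}} {y : ZFSet.{u}} :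
    y ∈ img a g ↔ ∃ x ∈ a, g x = y := by
  unfold img
  rw [ZFSet.mem_range]
  constructor
  · rintro ⟨⟨x, hx⟩, h⟩
    exact ⟨x, hx, h⟩
  · rintro ⟨x, hx, h⟩
    exact ⟨⟨x, hx⟩, h⟩

/-- The power set in the sense of `M`. -/
noncomputable def Pow (M : Set ZFSet.{u}) (x : ZFSet.{u}) : ZFSet.{u} :=
  x.powerset.sep (fun y => y ∈ M)

theorem mem_Pow {M : Set ZFSet.{u}} {x y : ZFSet.{u}} : y ∈ Pow M x ↔ y ∈ M ∧ y ⊆ x := by
  unfold Pow
  rw [ZFSet.mem_sep, ZFSet.mem_powerset]
  exact and_comm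

theorem UF.sep (hC : IsZ C) {F : UFunF.{u} k} (hF : UF C F)
    {R : Set ZFSet.{u} → Set ZFSet.{u} → ZFSet.{u} → (Fin k → ZFSet.{u}) → Prop}
    (h : UD C (k := k + 1) (fun M A w => R M A (w 0) (Fin.tail w))) :
    UF C (fun M A v => (F M A v).sep (fun x => R M A x v)) := by
  refine UF.of_ext hC.isT (fun M A hM v hv => ?_) (R := fun M A x v => x ∈ F M A v ∧ R M A x v)
    ((UD.memF (UF.var 0) hF.wk).and h) (fun M A hM v hv x _ => ZFSet.mem_sep)
  obtain ⟨φ, hφ⟩ := h
  obtain ⟨b, hb, hb'⟩ := (hC M A hM).sep k φ v hv (F M A v) (hF.mem M A hM v hv)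
  have : (F M A v).sep (fun x => R M A x v) = b := by
    apply ZFSet.ext
    intro x
    rw [ZFSet.mem_sep, hb']
    refine and_congr_right fun hx => ?_
    have hxM := (hC M A hM).trans _ (hF.mem M A hM v hv) x hx
    exact (hφ M A hM (Fin.cons x v) (cons_mem hxM hv)).symm
  rw [this]
  exact hb

theorem UF.img (hC : IsZ C) {F : UFunF.{u} k} (hF : UF C F)
    {G : Set ZFSet.{u} → Set ZFSet.{u} → ZFSet.{u} → (Fin k → ZFSet.{u}) → ZFSet.{u}}
    (h : UF C (k := k + 1) (fun M A w => G M A (w 0) (Fin.tail w))) :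
    UF C (fun M A v => img (F M A v) (fun x => G M A x v)) := by
  refine UF.of_ext hC.isT (fun M A hM v hv => ?_)
    (R := fun M A y v => ∃ x ∈ F M A v, G M A x v = y) ?_
    (fun M A hM v hv x _ => mem_img)
  · obtain ⟨φ, hφ⟩ := h.ud
    have hFm := hF.mem M A hM v hv
    have key : ∀ x ∈ F M A v, ∀ y ∈ M, (Sat M A (φ.rn (Fin.cons 1 (Fin.cons 0
        (fun i => i.succ.succ)))) (Fin.cons x (Fin.cons y v) : Fin (k + 2) → ZFSet.{u}) ↔
        y = G M A x v) := by
      intro x hx y hy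
      have hxM := (hC M A hM).trans _ hFm x hx
      rw [sat_rn]
      have e : (Fin.cons x (Fin.cons y v) : Fin (k + 2) → ZFSet.{u}) ∘
          (Fin.cons 1 (Fin.cons 0 (fun i => i.succ.succ)) : Fin (k + 2) → Fin (k + 2))
          = (Fin.cons y (Fin.cons x v) : Fin (k + 2) → ZFSet.{u}) := by
        funext i
        refine Fin.cases ?_ (fun j => ?_) i
        · rfl
        · refine Fin.cases ?_ (fun j => ?_) j
          · rfl
          · rfl
      rw [e]
      exact hφ M A hM _ (cons_mem hy (cons_mem hxM hv))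
    obtain ⟨b, hb, hb'⟩ := (hC M A hM).repl k (φ.rn (Fin.cons 1 (Fin.cons 0
        (fun i => i.succ.succ)))) v hv (F M A v) hFm (by
      intro x hx
      have hxM := (hC M A hM).trans _ hFm x hx
      have hG := h.mem M A hM (Fin.cons x v) (cons_mem hxM hv)
      refine ⟨G M A x v, ⟨hG, (key x hx _ hG).2 rfl⟩, ?_⟩
      rintro y ⟨hy, hy'⟩
      exact (key x hx y hy).1 hy')
    have : SC.img (F M A v) (fun x => G M A x v) = b := by
      apply ZFSet.ext
      intro y
      rw [mem_img, hb']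
      constructor
      · rintro ⟨x, hx, rfl⟩
        have hxM := (hC M A hM).trans _ hFm x hx
        have hG := h.mem M A hM (Fin.cons x v) (cons_mem hxM hv)
        exact ⟨hG, x, hx, (key x hx _ hG).2 rfl⟩
      · rintro ⟨hy, x, hx, h3⟩
        exact ⟨x, hx, ((key x hx y hy).1 h3).symm⟩
    rw [this]
    exact hb
  · refine UD.bex hC.isT hF.wk (R := fun M A x w => G M A x (Fin.tail w) = w 0) ?_
    refine UD.eqF (F := fun M A w => G M A (w 0) (Fin.tail (Fin.tail w))) ?_ (UF.var 1)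
    exact h.rn (Fin.cons 0 (fun i => i.succ.succ))

end Pool.Agent.Helper66.SC
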