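import Pool.Agent.Helper66.SC.Defs

universe u

namespace Pool.Agent.Helper66.SC

open ZFSet

/-! Satisfaction of a fixed formula in a set. -/

theorem ud_satRel (C : Cls.{u}) (hC : IsT C) {k : ℕ} (φ : Fml k) :
    UD C (k := k + 1) (fun _ A w => Sat {z | z ∈ w 0} A φ (Fin.tail w)) := by
  induction φ with
  | mem i j => exact UD.memF (UF.var _) (UF.var _)
  | eq i j => exact UD.eqF (UF.var _) (UF.var _)
  | pr i => exact UD.prF (UF.var _)
  | neg φ ih => exact ih.not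
  | and φ ψ ih1 ih2 => exact ih1.and ih2
  | @ex k φ ih =>
    refine UD.congr (R := fun _ A w => ∃ x ∈ w 0, Sat {z | z ∈ w 0} A φ
      (Fin.cons x (Fin.tail w))) ?_ ?_
    · refine UD.bex hC (UF.var 0) (R := fun _ A x w => Sat {z | z ∈ w 0} A φ
        (Fin.cons x (Fin.tail w))) ?_
      refine (ih.rn (l := k + 1 + 1) (Fin.cons 1 (Fin.cons 0 (fun i => i.succ.succ)))).congr
        fun M A hM v hv => ?_
      have e : Fin.tail (v ∘ (Fin.cons 1 (Fin.cons 0 (fun i => i.succ.succ)) :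
          Fin (k + 1 + 1) → Fin (k + 1 + 1))) = (Fin.cons (v 0) (Fin.tail (Fin.tail v)) :
          Fin (k + 1) → ZFSet.{u}) := by
        funext i
        refine Fin.cases ?_ (fun j => ?_) i
        · rfl
        · rfl
      rw [e]
      rfl
    · intro M A _ v _
      rfl

theorem ud_satRel0 (C : Cls.{u}) (hC : IsT C) {k : ℕ} (φ : Fml k) :
    UD C (k := k + 1) (fun _ _ w => Sat {z | z ∈ w 0} ∅ φ (Fin.tail w)) := by
  induction φ with
  | mem i j => exact UD.memF (UF.var _) (UF.var _)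
  | eq i j => exact UD.eqF (UF.var _) (UF.var _)
  | @pr k i =>
    refine UD.congr (R := fun _ _ w => ¬ (w 0 = w 0)) (UD.eqF (UF.var _) (UF.var _)).not ?_
    intro M A _ v _
    constructor
    · intro h
      exact absurd rfl h
    · intro h
      exact absurd h (Set.notMem_empty _)
  | neg φ ih => exact ih.not
  | and φ ψ ih1 ih2 => exact ih1.and ih2
  | @ex k φ ih =>
    refine UD.congr (R := fun _ _ w => ∃ x ∈ w 0, Sat {z | z ∈ w 0} ∅ φ
      (Fin.cons x (Fin.tail w))) ?_ ?_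
    · refine UD.bex hC (UF.var 0) (R := fun _ _ x w => Sat {z | z ∈ w 0} ∅ φ
        (Fin.cons x (Fin.tail w))) ?_
      refine (ih.rn (l := k + 1 + 1) (Fin.cons 1 (Fin.cons 0 (fun i => i.succ.succ)))).congr
        fun M A hM v hv => ?_
      have e : Fin.tail (v ∘ (Fin.cons 1 (Fin.cons 0 (fun i => i.succ.succ)) :
          Fin (k + 1 + 1) → Fin (k + 1 + 1))) = (Fin.cons (v 0) (Fin.tail (Fin.tail v)) :
          Fin (k + 1) → ZFSet.{u}) := by
        funext i
        refine Fin.cases ?_ (fun j => ?_) i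
        · rfl
        · rfl
      rw [e]
      rfl
    · intro M A _ v _
      rfl

theorem st_SR : ST_SR.{u} := fun _ φ =>
  ⟨ud_satRel CZ (fun _ _ h => h.trans) φ, ud_satRel0 CZ (fun _ _ h => h.trans) φ⟩

/-! Renaming and the Levy classes. -/

theorem IsDelta0.rn {k l : ℕ} {φ : Fml k} (h : IsDelta0 φ) (σ : Fin k → Fin l) :
    IsDelta0 (φ.rn σ) := by
  induction h generalizing l with
  | mem i j => exact IsDelta0.mem _ _
  | eq i j => exact IsDelta0.eq _ _
  | neg _ ih => exact IsDelta0.neg (ih σ)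
  | and _ _ ih1 ih2 => exact IsDelta0.and (ih1 σ) (ih2 σ)
  | bex j _ ih => exact IsDelta0.bex (σ j) (ih (liftR σ))

theorem IsSigma.rn {n k l : ℕ} {φ : Fml k} (h : IsSigma n φ) (σ : Fin k → Fin l) :
    IsSigma n (φ.rn σ) := by
  induction h generalizing l with
  | zero h => exact IsSigma.zero (h.rn σ)
  | up _ ih => exact IsSigma.up (ih σ)
  | neg _ ih => exact IsSigma.neg (ih σ)
  | ex _ ih => exact IsSigma.ex (ih (liftR σ))

theorem IsDelta0.abs {k : ℕ} {φ : Fml k} (h : IsDelta0 φ) {H K A : Set ZFSet.{u}}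
    (hH : ∀ x ∈ H, ∀ y ∈ x, y ∈ H) (hHK : H ⊆ K) {v : Fin k → ZFSet.{u}}
    (hv : ∀ i, v i ∈ H) : Sat H A φ v ↔ Sat K A φ v := by
  induction h with
  | mem i j => exact Iff.rfl
  | eq i j => exact Iff.rfl
  | neg _ ih => exact not_congr (ih hv)
  | and _ _ ih1 ih2 => exact and_congr (ih1 hv) (ih2 hv)
  | bex j _ ih =>
    constructor
    · rintro ⟨x, hx, h1, h2⟩
      exact ⟨x, hHK hx, h1, (ih (cons_mem hx hv)).1 h2⟩
    · rintro ⟨x, _, h1, h2⟩
      have hx : x ∈ H := hH _ (hv j) x h1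
      exact ⟨x, hx, h1, (ih (cons_mem hx hv)).2 h2⟩

/-- Every `Σ_0` formula is bounded. -/
theorem IsSigma.delta0 {n k : ℕ} {φ : Fml k} (h : IsSigma n φ) (hn : n = 0) : IsDelta0 φ := by
  cases h with
  | zero h => exact h
  | up _ => omega
  | neg _ => omega
  | ex _ => omega

/-- `Σ_1` formulas are upward absolute. -/
theorem IsSigma.up1 {n k : ℕ} {φ : Fml k} (h : IsSigma n φ) (hn : n = 1)
    {H K A : Set ZFSet.{u}} (hH : ∀ x ∈ H, ∀ y ∈ x, y ∈ H) (hHK : H ⊆ K)
    {v : Fin k → ZFSet.{u}} (hv : ∀ i, v i ∈ H) : Sat H A φ v → Sat K A φ v := by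
  induction h with
  | zero h => exact (h.abs hH hHK hv).1
  | @up n k φ h _ =>
    have h' := h.delta0 (by omega)
    exact (h'.abs hH hHK hv).1
  | @neg n k φ h _ =>
    have h' := h.delta0 (by omega)
    exact (h'.neg.abs hH hHK hv).1
  | ex _ ih =>
    rintro ⟨x, hx, h2⟩
    exact ⟨x, hHK hx, ih hn (cons_mem hx hv) h2⟩

/-- A `Σ_1` statement true in `K` is true in a transitive set, when finite subsets of `K` are
covered by transitive sets (from a family `F`). -/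
theorem IsSigma.down1 {n k : ℕ} {φ : Fml k} (h : IsSigma n φ) (hn : n = 1)
    {K A : Set ZFSet.{u}} {F : Set ZFSet.{u}}
    (hF : ∀ t ∈ F, ∀ x ∈ K, ∃ t' ∈ F, t ⊆ t' ∧ x ∈ t')
    (hFt : ∀ t ∈ F, t.IsTransitive ∧ ∀ x ∈ t, x ∈ K)
    {v : Fin k → ZFSet.{u}} {t : ZFSet.{u}} (ht : t ∈ F) (hv : ∀ i, v i ∈ t)
    (hs : Sat K A φ v) : ∃ t' ∈ F, t ⊆ t' ∧ Sat {z | z ∈ t'} A φ v := by
  induction h generalizing t with
  | zero h =>
    refine ⟨t, ht, fun _ h => h, ?_⟩
    exact (h.abs (H := {z | z ∈ t}) (fun x hx y hy => (hFt t ht).1.mem_trans hy hx)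
      (fun x hx => (hFt t ht).2 x hx) hv).2 hs
  | @up n k φ h _ =>
    have h' := h.delta0 (by omega)
    refine ⟨t, ht, fun _ h => h, ?_⟩
    exact (h'.abs (H := {z | z ∈ t}) (fun x hx y hy => (hFt t ht).1.mem_trans hy hx)
      (fun x hx => (hFt t ht).2 x hx) hv).2 hs
  | @neg n k φ h _ =>
    have h' := h.delta0 (by omega)
    refine ⟨t, ht, fun _ h => h, ?_⟩
    exact (h'.neg.abs (H := {z | z ∈ t}) (fun x hx y hy => (hFt t ht).1.mem_trans hy hx)
      (fun x hx => (hFt t ht).2 x hx) hv).2 hs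
  | ex _ ih =>
    obtain ⟨x, hx, h2⟩ := hs
    obtain ⟨t1, ht1, h3, h4⟩ := hF t ht x hx
    obtain ⟨t', ht', h5, h6⟩ := ih hn ht1 (v := Fin.cons x v) (fun i => by
      refine Fin.cases ?_ (fun j => ?_) i
      · exact h4
      · exact h3 (hv j)) h2
    exact ⟨t', ht', fun _ h => h5 (h3 h), x, h5 h4, h6⟩

end Pool.Agent.Helper66.SC
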