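import Pool.Agent.Helper66.SC.Defs

universe u

namespace Pool.Agent.Helper66.SC

open ZFSet

/-- The stability predicate of `M`, as a class of triples `(n, α, β)`. For `s = false` the case
`α = β` is allowed, for `s = true` only triples with `α < β` are taken. -/
def Stab (s : Bool) (M : Set ZFSet.{u}) : Set ZFSet.{u} :=
  {t | ∃ (n : ℕ) (α β : ZFSet.{u}), 1 ≤ n ∧ IsGood M n α ∧ IsGood M n β ∧
    (s = true → α ∈ β) ∧ SigmaElem n (Hset M α) (Hset M β) ∧
    t = ZFSet.pair (Ordinal.toZFSet (n : Ordinal.{u})) (ZFSet.pair α β)}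

/-- The stable core `L[S]` of `M`. -/
def SCore (s : Bool) (M : Set ZFSet.{u}) : Set ZFSet.{u} := LOf M (Stab s M)

/-- The final statement, for both conventions. -/
def Goal2 : Prop :=
  ∃ M : Set ZFSet.{0}, M.Countable ∧ IsZFC M ∧ ∀ s : Bool,
    IsZFC (SCore s M) ∧ SCore s (SCore s M) ⊂ SCore s M

/-- G6: `Σ_1` elementarity between `SL` ordinals. -/
def ST_G6 : Prop := ∀ (M : Set ZFSet.{u}), IsZF M ∅ → WO M → ∀ o o', SL M o → SL M o' → o ≤ o' →
  SigmaElem 1 (Hset M (oz o)) (Hset M (oz o'))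

/-- H1b: the complement of the Cohen real is unbounded. -/
def ST_H1b : Prop := ∀ (M A : Set ZFSet.{u}), IsZF M A → ∀ G, IsGeneric M (Coh M) G →
  ∀ n : ℕ, ∃ m : ℕ, n < m ∧ nz m ∉ real G

end Pool.Agent.Helper66.SC
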