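import Mathlib

universe u

namespace Pool.Agent.Helper66.SC

/-- First-order formulas with free variables indexed by `Fin k`, in the language with
membership, equality and one unary predicate symbol `pr` (de Bruijn style: the variable bound
by `ex` is the variable `0`). -/
inductive Fml : ℕ → Type
  | mem {k : ℕ} (i j : Fin k) : Fml k
  | eq {k : ℕ} (i j : Fin k) : Fml k
  | pr {k : ℕ} (i : Fin k) : Fml k
  | neg {k : ℕ} (φ : Fml k) : Fml k
  | and {k : ℕ} (φ ψ : Fml k) : Fml k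
  | ex {k : ℕ} (φ : Fml (k + 1)) : Fml k

/-- Satisfaction in the structure with universe `M`, true membership, and `A` as predicate. -/
def Sat (M A : Set ZFSet.{u}) : {k : ℕ} → Fml k → (Fin k → ZFSet.{u}) → Prop
  | _, .mem i j, v => v i ∈ v j
  | _, .eq i j, v => v i = v j
  | _, .pr i, v => v i ∈ A
  | _, .neg φ, v => ¬ Sat M A φ v
  | _, .and φ ψ, v => Sat M A φ v ∧ Sat M A ψ v
  | _, .ex φ, v => ∃ x ∈ M, Sat M A φ (Fin.cons x v)

/-- `M` is a transitive model of ZF, with separation and replacement for formulas which may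
mention the predicate `A`. -/
structure IsZF (M A : Set ZFSet.{u}) : Prop where
  trans : ∀ x ∈ M, ∀ y ∈ x, y ∈ M
  omega : ZFSet.omega ∈ M
  pair : ∀ x ∈ M, ∀ y ∈ M, ({x, y} : ZFSet.{u}) ∈ M
  sUnion : ∀ x ∈ M, (ZFSet.sUnion x) ∈ M
  power : ∀ x ∈ M, ∃ y ∈ M, ∀ z, z ∈ y ↔ z ∈ M ∧ z ⊆ x
  sep : ∀ (k : ℕ) (φ : Fml (k + 1)) (p : Fin k → ZFSet.{u}), (∀ i, p i ∈ M) → ∀ a ∈ M,
    ∃ b ∈ M, ∀ x, x ∈ b ↔ x ∈ a ∧ Sat M A φ (Fin.cons x p)
  repl : ∀ (k : ℕ) (φ : Fml (k + 2)) (p : Fin k → ZFSet.{u}), (∀ i, p i ∈ M) → ∀ a ∈ M,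
    (∀ x ∈ a, ∃! y, y ∈ M ∧ Sat M A φ (Fin.cons x (Fin.cons y p))) →
    ∃ b ∈ M, ∀ y, y ∈ b ↔ y ∈ M ∧ ∃ x ∈ a, Sat M A φ (Fin.cons x (Fin.cons y p))

/-- The axiom of choice in the transitive set or class `M`: every `x` in `M` has a choice
function in `M`. -/
def HasChoice (M : Set ZFSet.{u}) : Prop :=
  ∀ x ∈ M, ∃ f ∈ M, ∀ y ∈ x, y ≠ ∅ → ∃ z ∈ y, ∀ w, ZFSet.pair y w ∈ f ↔ w = z

/-- `M` is a transitive model of ZFC (in the language of membership only). -/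
def IsZFC (M : Set ZFSet.{u}) : Prop := IsZF M ∅ ∧ HasChoice M

/-- The transitive closure of `x`: the least transitive set containing `x` as a subset. -/
noncomputable def tc (x : ZFSet.{u}) : ZFSet.{u} :=
  (ZFSet.vonNeumann (ZFSet.rank x)).sep
    (fun y => ∀ t : ZFSet.{u}, t.IsTransitive → x ⊆ t → y ∈ t)

/-- In `M` there is an injective function from `a` to `b`. -/
def CardLe (M : Set ZFSet.{u}) (a b : ZFSet.{u}) : Prop :=
  ∃ f ∈ M, ZFSet.IsFunc a b f ∧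
    ∀ y ∈ a, ∀ y' ∈ a, ∀ z, ZFSet.pair y z ∈ f → ZFSet.pair y' z ∈ f → y = y'

/-- `α` is a cardinal in the sense of `M`. -/
def IsCardIn (M : Set ZFSet.{u}) (α : ZFSet.{u}) : Prop :=
  α ∈ M ∧ α.IsOrdinal ∧ ∀ β ∈ α, ¬ CardLe M α β

/-- `α` is a strong limit cardinal in the sense of `M`: it is a nonzero cardinal and the
power set (in `M`) of every `β < α` has size less than `α` in `M`. -/
def IsStrongLimitIn (M : Set ZFSet.{u}) (α : ZFSet.{u}) : Prop :=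
  IsCardIn M α ∧ α ≠ ∅ ∧
    ∀ β ∈ α, ∃ P ∈ M, (∀ z, z ∈ P ↔ z ∈ M ∧ z ⊆ β) ∧ ¬ CardLe M α P

/-- `H_α` in the sense of `M`: the sets in `M` whose transitive closure has size less
than `α` in `M`. -/
def Hset (M : Set ZFSet.{u}) (α : ZFSet.{u}) : Set ZFSet.{u} :=
  {x | x ∈ M ∧ ¬ CardLe M α (tc x)}

/-- The formulas with bounded quantifiers only. -/
inductive IsDelta0 : {k : ℕ} → Fml k → Prop
  | mem {k : ℕ} (i j : Fin k) : IsDelta0 (.mem i j)
  | eq {k : ℕ} (i j : Fin k) : IsDelta0 (.eq i j)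
  | neg {k : ℕ} {φ : Fml k} : IsDelta0 φ → IsDelta0 (.neg φ)
  | and {k : ℕ} {φ ψ : Fml k} : IsDelta0 φ → IsDelta0 ψ → IsDelta0 (.and φ ψ)
  | bex {k : ℕ} (j : Fin k) {φ : Fml (k + 1)} : IsDelta0 φ →
      IsDelta0 (.ex (.and (.mem 0 j.succ) φ))

/-- The Levy hierarchy: `Σ_0` is the class of bounded formulas, and `Σ_(n+1)` is the closure
under existential quantification of the `Σ_n` formulas and their negations. -/
inductive IsSigma : ℕ → {k : ℕ} → Fml k → Prop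
  | zero {k : ℕ} {φ : Fml k} : IsDelta0 φ → IsSigma 0 φ
  | up {n k : ℕ} {φ : Fml k} : IsSigma n φ → IsSigma (n + 1) φ
  | neg {n k : ℕ} {φ : Fml k} : IsSigma n φ → IsSigma (n + 1) (.neg φ)
  | ex {n k : ℕ} {φ : Fml (k + 1)} : IsSigma (n + 1) φ → IsSigma (n + 1) (.ex φ)

/-- The structure with universe `H` satisfies `Σ_n` collection. -/
def SigmaColl (n : ℕ) (H : Set ZFSet.{u}) : Prop :=
  ∀ (k : ℕ) (φ : Fml (k + 2)), IsSigma n φ → ∀ p : Fin k → ZFSet.{u}, (∀ i, p i ∈ H) →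
    ∀ a ∈ H, (∀ x ∈ a, ∃ y ∈ H, Sat H ∅ φ (Fin.cons x (Fin.cons y p))) →
      ∃ b ∈ H, ∀ x ∈ a, ∃ y ∈ b, Sat H ∅ φ (Fin.cons x (Fin.cons y p))

/-- `H` is a `Σ_n` elementary substructure of `K`. -/
def SigmaElem (n : ℕ) (H K : Set ZFSet.{u}) : Prop :=
  H ⊆ K ∧ ∀ (k : ℕ) (φ : Fml k), IsSigma n φ → ∀ v : Fin k → ZFSet.{u}, (∀ i, v i ∈ H) →
    (Sat H ∅ φ v ↔ Sat K ∅ φ v)

/-- `α` is an `n`-good cardinal of `M`. -/
def IsGood (M : Set ZFSet.{u}) (n : ℕ) (α : ZFSet.{u}) : Prop :=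
  IsStrongLimitIn M α ∧ SigmaColl n (Hset M α)

/-- The stability predicate of `M`, as a class of triples `(n, α, β)`. -/
def StabPred (M : Set ZFSet.{u}) : Set ZFSet.{u} :=
  {t | ∃ (n : ℕ) (α β : ZFSet.{u}), 1 ≤ n ∧ IsGood M n α ∧ IsGood M n β ∧
    SigmaElem n (Hset M α) (Hset M β) ∧
    t = ZFSet.pair (Ordinal.toZFSet (n : Ordinal.{u})) (ZFSet.pair α β)}

/-- The subsets of `x` definable with parameters over the structure `(x, ∈, A ∩ x)`. -/
noncomputable def DefSub (A : Set ZFSet.{u}) (x : ZFSet.{u}) : ZFSet.{u} :=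
  x.powerset.sep (fun y => ∃ (k : ℕ) (φ : Fml (k + 1)) (p : Fin k → ZFSet.{u}),
    (∀ i, p i ∈ x) ∧ ∀ a ∈ x, a ∈ y ↔ Sat {z | z ∈ x} A φ (Fin.cons a p))

/-- The levels `L_o[A]` of the constructible hierarchy relative to `A`. -/
noncomputable def Lv (A : Set ZFSet.{u}) (o : Ordinal.{u}) : ZFSet.{u} :=
  ZFSet.iUnion (fun a : Set.Iio o => DefSub A (Lv A a))
termination_by o
decreasing_by exact a.2

/-- `L[A]` built along the ordinals of `M`. -/
def LOf (M A : Set ZFSet.{u}) : Set ZFSet.{u} :=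
  {x | ∃ o : Ordinal.{u}, o.toZFSet ∈ M ∧ x ∈ Lv A o}

/-- The stable core of `M`. -/
def StableCore (M : Set ZFSet.{u}) : Set ZFSet.{u} := LOf M (StabPred M)

/-- The final statement: there is a countable transitive model `M` of ZFC whose stable core
is again a (transitive) model of ZFC and strictly contains its own stable core. -/
def Goal : Prop :=
  ∃ M : Set ZFSet.{0}, M.Countable ∧ IsZFC M ∧ IsZFC (StableCore M) ∧
    StableCore (StableCore M) ⊂ StableCore M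

end Pool.Agent.Helper66.SC
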