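import Pool.Agent.Helper22.SC.Conv

universe u

namespace Pool.Agent.Helper66.SC

open ZFSet
open Pool.Agent.Helper22.SC (URel U In in_zfset in_prod in_fin ZCls ud1_iff ud_iff rrec rrec_eq
  pfst psnd pfst_pair psnd_pair app app_gr gr VarMap)

/-- The recursion clause for `FEq`, in bounded form; `K z w r` stands for `FEq P z w r`. -/
def FEqC (P x y p : ZFSet.{u}) (K : ZFSet.{u} → ZFSet.{u} → ZFSet.{u} → Prop) : Prop :=
  (∀ e ∈ x, e = pair (pfst e) (psnd e) → psnd e ∈ P → ∀ q ∈ P, p ⊆ q → psnd e ⊆ q →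
    ∃ r ∈ P, q ⊆ r ∧ ∃ e' ∈ y, e' = pair (pfst e') (psnd e') ∧ psnd e' ∈ P ∧ psnd e' ⊆ r ∧
      K (pfst e) (pfst e') r) ∧
  (∀ e' ∈ y, e' = pair (pfst e') (psnd e') → psnd e' ∈ P → ∀ q ∈ P, p ⊆ q → psnd e' ⊆ q →
    ∃ r ∈ P, q ⊆ r ∧ ∃ e ∈ x, e = pair (pfst e) (psnd e) ∧ psnd e ∈ P ∧ psnd e ⊆ r ∧
      K (pfst e) (pfst e') r)

theorem feq_iff {P x y p : ZFSet.{u}} : FEq P x y p ↔ FEqC P x y p (FEq P) := by
  rw [FEq]
  unfold FEqC
  constructor
  · rintro ⟨h1, h2⟩
    constructor
    · intro e he hep hes q hq hpq hsq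
      obtain ⟨r, hr, hqr, w, t, hw, ht, htr, h3⟩ := h1 (pfst e) (psnd e) (hep ▸ he) hes q hq hpq hsq
      exact ⟨r, hr, hqr, pair w t, hw, by rw [pfst_pair, psnd_pair], by rwa [psnd_pair],
        by rwa [psnd_pair], by rwa [pfst_pair]⟩
    · intro e he hep hes q hq hpq hsq
      obtain ⟨r, hr, hqr, w, t, hw, ht, htr, h3⟩ := h2 (pfst e) (psnd e) (hep ▸ he) hes q hq hpq hsq
      exact ⟨r, hr, hqr, pair w t, hw, by rw [pfst_pair, psnd_pair], by rwa [psnd_pair],
        by rwa [psnd_pair], by rwa [pfst_pair]⟩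
  · rintro ⟨h1, h2⟩
    constructor
    · intro z s hz hs q hq hpq hsq
      obtain ⟨r, hr, hqr, e', he', h3, h4, h5, h6⟩ := h1 (pair z s) hz
        (by rw [pfst_pair, psnd_pair]) (by rwa [psnd_pair]) q hq hpq (by rwa [psnd_pair])
      rw [pfst_pair] at h6
      exact ⟨r, hr, hqr, pfst e', psnd e', h3 ▸ he', h4, h5, h6⟩
    · intro z s hz hs q hq hpq hsq
      obtain ⟨r, hr, hqr, e', he', h3, h4, h5, h6⟩ := h2 (pair z s) hz
        (by rw [pfst_pair, psnd_pair]) (by rwa [psnd_pair]) q hq hpq (by rwa [psnd_pair])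
      rw [pfst_pair] at h6
      exact ⟨r, hr, hqr, pfst e', psnd e', h3 ▸ he', h4, h5, h6⟩

theorem rank_pfst {e x : ZFSet.{u}} (he : e ∈ x) : (pfst e).rank < x.rank := by
  by_cases h : ∃ a b, e = pair a b
  · obtain ⟨a, b, rfl⟩ := h
    rw [pfst_pair]
    exact rank_lt_of_pair_mem he
  · have : pfst e = ∅ := by
      unfold pfst
      have : ZFSet.sep (fun x => ∃ y ∈ (⋃₀ e : ZFSet.{u}), e = ZFSet.pair x y) (⋃₀ e)
          = (∅ : ZFSet.{u}) := by
        ext z
        rw [ZFSet.mem_sep]
        constructor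
        · rintro ⟨_, y, _, h1⟩
          exact absurd ⟨z, y, h1⟩ h
        · intro h
          exact absurd h (ZFSet.notMem_empty z)
      rw [this]
      ext z
      rw [ZFSet.mem_sUnion]
      constructor
      · rintro ⟨w, hw, _⟩
        exact absurd hw (ZFSet.notMem_empty w)
      · intro h
        exact absurd h (ZFSet.notMem_empty z)
    rw [this, ZFSet.rank_empty]
    exact lt_of_le_of_lt bot_le (rank_lt_of_mem he)

theorem rank_pair_lt {a b x y : ZFSet.{u}} (h1 : a.rank < x.rank) (h2 : b.rank < y.rank) :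
    (pair a b).rank < (pair x y).rank := by
  have hr : ∀ u v : ZFSet.{u}, (pair u v).rank = Order.succ (Order.succ (max u.rank v.rank)) := by
    intro u v
    unfold pair
    rw [ZFSet.rank_pair, ZFSet.rank_singleton, ZFSet.rank_pair, ← Order.succ_mono.map_max,
      ← Order.succ_mono.map_max, ← Order.succ_mono.map_max, ← max_assoc, max_self]
  rw [hr, hr]
  have h3 : max a.rank b.rank < max x.rank y.rank :=
    max_lt (lt_max_of_lt_left h1) (lt_max_of_lt_right h2)
  exact Order.succ_lt_succ (Order.succ_lt_succ h3)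

/-- Predecessors of the pair `t = (x, y)`. -/
noncomputable def fpred (t : ZFSet.{u}) : ZFSet.{u} :=
  img (ZFSet.prod (pfst t) (psnd t)) (fun d => pair (pfst (pfst d)) (pfst (psnd d)))

/-- The step function. -/
noncomputable def fstep (P t g : ZFSet.{u}) : ZFSet.{u} :=
  P.sep (fun p => FEqC P (pfst t) (psnd t) p (fun z w r => r ∈ app g (pair z w)))

theorem fpred_rank {t y : ZFSet.{u}} (h : y ∈ fpred t) : y.rank < t.rank := by
  unfold fpred at h
  rw [mem_img] at h
  obtain ⟨d, hd, rfl⟩ := h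
  rw [ZFSet.mem_prod] at hd
  obtain ⟨a, ha, b, hb, rfl⟩ := hd
  rw [pfst_pair, psnd_pair]
  by_cases h : ∃ x y, t = pair x y
  · obtain ⟨x, y, rfl⟩ := h
    rw [pfst_pair] at ha
    rw [psnd_pair] at hb
    exact rank_pair_lt (rank_pfst ha) (rank_pfst hb)
  · have : pfst t = ∅ := by
      unfold pfst
      have : ZFSet.sep (fun x => ∃ y ∈ (⋃₀ t : ZFSet.{u}), t = ZFSet.pair x y) (⋃₀ t)
          = (∅ : ZFSet.{u}) := by
        ext z
        rw [ZFSet.mem_sep]
        constructor
        · rintro ⟨_, y, _, h1⟩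
          exact absurd ⟨z, y, h1⟩ h
        · intro h
          exact absurd h (ZFSet.notMem_empty z)
      rw [this]
      ext z
      rw [ZFSet.mem_sUnion]
      constructor
      · rintro ⟨w, hw, _⟩
        exact absurd hw (ZFSet.notMem_empty w)
      · intro h
        exact absurd h (ZFSet.notMem_empty z)
    rw [this] at ha
    exact absurd ha (ZFSet.notMem_empty a)

theorem rrec_feq (P : ZFSet.{u}) (o : Ordinal.{u}) : ∀ x y : ZFSet.{u}, x.rank = o →
    rrec (fstep P) fpred (pair x y) = P.sep (fun p => FEq P x y p) := by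
  induction o using WellFoundedLT.induction with
  | ind o ih =>
    intro x y hx
    rw [rrec_eq (fun y hy => fpred_rank hy)]
    unfold fstep
    rw [pfst_pair, psnd_pair]
    have key : ∀ e ∈ x, ∀ e' ∈ y, ∀ r ∈ P, (r ∈ app (gr (fpred (pair x y))
        (rrec (fstep P) fpred)) (pair (pfst e) (pfst e')) ↔ FEq P (pfst e) (pfst e') r) := by
      intro e he e' he' r hr
      have h1 : pair (pfst e) (pfst e') ∈ fpred (pair x y) := by
        unfold fpred
        rw [mem_img]
        refine ⟨pair e e', ?_, by rw [pfst_pair, psnd_pair]⟩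
        rw [pfst_pair, psnd_pair, ZFSet.pair_mem_prod]
        exact ⟨he, he'⟩
      rw [app_gr h1, ih _ (hx ▸ rank_pfst he) _ _ rfl, ZFSet.mem_sep]
      exact ⟨fun h => h.2, fun h => ⟨hr, h⟩⟩
    ext p
    rw [ZFSet.mem_sep, ZFSet.mem_sep, feq_iff]
    refine and_congr_right fun hp => ?_
    unfold FEqC
    refine and_congr ?_ ?_
    · refine forall_congr' fun e => forall_congr' fun he => forall_congr' fun _ =>
        forall_congr' fun _ => forall_congr' fun q => forall_congr' fun _ =>
        forall_congr' fun _ => forall_congr' fun _ => exists_congr fun r =>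
        and_congr_right fun hr => and_congr_right fun _ => exists_congr fun e' =>
        and_congr_right fun he' => and_congr_right fun _ => and_congr_right fun _ =>
        and_congr_right fun _ => key e he e' he' r hr
    · refine forall_congr' fun e' => forall_congr' fun he' => forall_congr' fun _ =>
        forall_congr' fun _ => forall_congr' fun q => forall_congr' fun _ =>
        forall_congr' fun _ => forall_congr' fun _ => exists_congr fun r =>
        and_congr_right fun hr => and_congr_right fun _ => exists_congr fun e =>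
        and_congr_right fun he => and_congr_right fun _ => and_congr_right fun _ =>
        and_congr_right fun _ => key e he e' he' r hr

variable {C : Cls.{u}}

/-- The set of conditions forcing equality. -/
def feqSet (P x y : ZFSet.{u}) : ZFSet.{u} := P.sep (fun r => FEq P x y r)

theorem feqset_u [ZCls C] : U C (fun _ _ (p : (ZFSet.{u} × ZFSet.{u}) × ZFSet.{u}) =>
    feqSet p.1.1 p.1.2 p.2) := by
  have h : U C (fun _ _ (p : (ZFSet.{u} × ZFSet.{u}) × ZFSet.{u}) =>
      rrec (fstep p.1.1) fpred (pair p.1.2 p.2)) := by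
    refine U.rrec (F := fun _ _ (p : (ZFSet.{u} × ZFSet.{u}) × ZFSet.{u}) => fstep p.1.1)
      (P := fun _ _ _ => fpred) ?_ ?_ ?_ ?_
    · unfold fstep FEqC
      apply_rules (transparency := .reducible) (maxDepth := 400) using is_poly
    · unfold fpred
      apply_rules (transparency := .reducible) (maxDepth := 400) using is_poly
    · intro N A _ a _ x _ y hy
      exact fpred_rank hy
    · apply_rules (transparency := .reducible) (maxDepth := 400) using is_poly
  exact h.congr fun N A _ p _ => rrec_feq _ _ _ _ rfl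

theorem uFeqSet [ZCls C] {α : Type (u + 1)} [Pool.Agent.Helper22.SC.Ctx.{u} α]
    {f g h : Set ZFSet.{u} → Set ZFSet.{u} → α → ZFSet.{u}} (hf : U C f) (hg : U C g)
    (hh : U C h) : U C (fun N A a => feqSet (f N A a) (g N A a) (h N A a)) :=
  U.app3 (h := fun _ _ x y z => feqSet x y z) feqset_u hf hg hh

attribute [is_poly] uFeqSet

/-- `FEq` is uniformly definable: variables `((P, x), y), p`. -/
theorem feq_urel [ZCls C] : URel C (fun _ _ (a : ((ZFSet.{u} × ZFSet.{u}) × ZFSet.{u}) ×
    ZFSet.{u}) => FEq a.1.1.1 a.1.1.2 a.1.2 a.2) := by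
  have hmem : ∀ (P z w r : ZFSet.{u}), r ∈ P → (FEq P z w r ↔
      r ∈ feqSet P z w) := by
    intro P z w r hr
    rw [feqSet, ZFSet.mem_sep]
    exact ⟨fun h => ⟨hr, h⟩, fun h => h.2⟩
  have h : URel C (fun _ _ (a : ((ZFSet.{u} × ZFSet.{u}) × ZFSet.{u}) × ZFSet.{u}) =>
      FEqC a.1.1.1 a.1.1.2 a.1.2 a.2 (fun z w r => r ∈ feqSet a.1.1.1 z w)) := by
    unfold FEqC
    apply_rules (transparency := .reducible) (maxDepth := 400) using is_poly
  refine h.congr fun N A _ a _ => ?_
  rw [feq_iff]
  unfold FEqC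
  refine and_congr ?_ ?_
  · refine forall_congr' fun e => forall_congr' fun he => forall_congr' fun _ =>
      forall_congr' fun _ => forall_congr' fun q => forall_congr' fun _ =>
      forall_congr' fun _ => forall_congr' fun _ => exists_congr fun r =>
      and_congr_right fun hr => and_congr_right fun _ => exists_congr fun e' =>
      and_congr_right fun he' => and_congr_right fun _ => and_congr_right fun _ =>
      and_congr_right fun _ => (hmem _ _ _ _ hr).symm
  · refine forall_congr' fun e' => forall_congr' fun he' => forall_congr' fun _ =>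
      forall_congr' fun _ => forall_congr' fun q => forall_congr' fun _ =>
      forall_congr' fun _ => forall_congr' fun _ => exists_congr fun r =>
      and_congr_right fun hr => and_congr_right fun _ => exists_congr fun e =>
      and_congr_right fun he => and_congr_right fun _ => and_congr_right fun _ =>
      and_congr_right fun _ => (hmem _ _ _ _ hr).symm

theorem fmem_iff {P x y p : ZFSet.{u}} : FMem P x y p ↔
    ∀ q ∈ P, p ⊆ q → ∃ r ∈ P, q ⊆ r ∧ ∃ e ∈ y, e = pair (pfst e) (psnd e) ∧ psnd e ∈ P ∧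
      psnd e ⊆ r ∧ FEq P x (pfst e) r := by
  unfold FMem
  refine forall_congr' fun q => forall_congr' fun _ => forall_congr' fun _ =>
    exists_congr fun r => and_congr_right fun _ => and_congr_right fun _ => ?_
  constructor
  · rintro ⟨w, t, h1, h2, h3, h4⟩
    exact ⟨pair w t, h1, by rw [pfst_pair, psnd_pair], by rwa [psnd_pair], by rwa [psnd_pair],
      by rwa [pfst_pair]⟩
  · rintro ⟨e, h1, h2, h3, h4, h5⟩
    exact ⟨pfst e, psnd e, h2 ▸ h1, h3, h4, h5⟩

/-- `FMem` is uniformly definable: variables `((P, x), y), p`. -/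
theorem fmem_urel [ZCls C] : URel C (fun _ _ (a : ((ZFSet.{u} × ZFSet.{u}) × ZFSet.{u}) ×
    ZFSet.{u}) => FMem a.1.1.1 a.1.1.2 a.1.2 a.2) := by
  simp only [fmem_iff]
  apply_rules (transparency := .reducible) (maxDepth := 400) using is_poly
  exact feq_urel.comp (f := fun _ _ (b : ((((((ZFSet.{u} × ZFSet.{u}) × ZFSet.{u}) × ZFSet.{u}) ×
    ZFSet.{u}) × ZFSet.{u}) × ZFSet.{u})) => (((b.1.1.1.1.1.1, b.1.1.1.1.1.2), pfst b.2), b.1.2))
    (by apply_rules (transparency := .reducible) (maxDepth := 400) using is_poly)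

/-- The forcing relation is uniformly definable: variables `(P, p), v`. -/
theorem forces_urel [ZCls C] {k : ℕ} (φ : Fml k) :
    URel C (fun M _ (a : (ZFSet.{u} × ZFSet.{u}) × (Fin k → ZFSet.{u})) =>
      Forces M a.1.1 φ a.2 a.1.2) := by
  induction φ with
  | mem i j =>
    exact fmem_urel.comp (f := fun _ _ (a : (ZFSet.{u} × ZFSet.{u}) × (Fin _ → ZFSet.{u})) =>
      (((a.1.1, a.2 i), a.2 j), a.1.2))
      (by apply_rules (transparency := .reducible) (maxDepth := 400) using is_poly)
  | eq i j =>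
    exact feq_urel.comp (f := fun _ _ (a : (ZFSet.{u} × ZFSet.{u}) × (Fin _ → ZFSet.{u})) =>
      (((a.1.1, a.2 i), a.2 j), a.1.2))
      (by apply_rules (transparency := .reducible) (maxDepth := 400) using is_poly)
  | pr i => exact Pool.Agent.Helper22.SC.URel.false'
  | neg φ ih =>
    refine URel.ball (R := fun M _ (a : (ZFSet.{u} × ZFSet.{u}) × (Fin _ → ZFSet.{u})) q =>
      a.1.2 ⊆ q → ¬ Forces M a.1.1 φ a.2 q)
      (by apply_rules (transparency := .reducible) (maxDepth := 400) using is_poly) ?_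
    refine URel.imp
      (by apply_rules (transparency := .reducible) (maxDepth := 400) using is_poly) (URel.not ?_)
    exact ih.comp (f := fun _ _ (b : ((ZFSet.{u} × ZFSet.{u}) × (Fin _ → ZFSet.{u})) ×
      ZFSet.{u}) => ((b.1.1.1, b.2), b.1.2))
      (by apply_rules (transparency := .reducible) (maxDepth := 400) using is_poly)
  | and φ ψ ih1 ih2 => exact ih1.and ih2
  | ex φ ih =>
    refine URel.ball (R := fun M _ (a : (ZFSet.{u} × ZFSet.{u}) × (Fin _ → ZFSet.{u})) q =>
      a.1.2 ⊆ q → ∃ r ∈ a.1.1, q ⊆ r ∧ ∃ x ∈ M, Forces M a.1.1 φ (Fin.cons x a.2) r)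
      (by apply_rules (transparency := .reducible) (maxDepth := 400) using is_poly) ?_
    refine URel.imp
      (by apply_rules (transparency := .reducible) (maxDepth := 400) using is_poly) ?_
    refine URel.bex (R := fun M _ (b : ((ZFSet.{u} × ZFSet.{u}) × (Fin _ → ZFSet.{u})) ×
      ZFSet.{u}) r => b.2 ⊆ r ∧ ∃ x ∈ M, Forces M b.1.1.1 φ (Fin.cons x b.1.2) r)
      (by apply_rules (transparency := .reducible) (maxDepth := 400) using is_poly) ?_
    refine URel.and
      (by apply_rules (transparency := .reducible) (maxDepth := 400) using is_poly) ?_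
    refine URel.ex (R := fun M _ (b : (((ZFSet.{u} × ZFSet.{u}) × (Fin _ → ZFSet.{u})) ×
      ZFSet.{u}) × ZFSet.{u}) x => Forces M b.1.1.1.1 φ (Fin.cons x b.1.1.2) b.2) ?_
    exact ih.comp (f := fun _ _ (b : ((((ZFSet.{u} × ZFSet.{u}) × (Fin _ → ZFSet.{u})) ×
      ZFSet.{u}) × ZFSet.{u}) × ZFSet.{u}) => ((b.1.1.1.1.1, b.1.2), Fin.cons b.2 b.1.1.1.2))
      (by apply_rules (transparency := .reducible) (maxDepth := 400) using is_poly)

theorem st_FB3 : ST_FB3.{u} := by
  intro k φ
  rw [ud_iff]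
  exact (forces_urel φ).comp (f := fun _ _ (w : Fin (k + 2) → ZFSet.{u}) =>
    ((w 1, w 0), Fin.tail (Fin.tail w)))
    (by apply_rules (transparency := .reducible) (maxDepth := 400) using is_poly)

end Pool.Agent.Helper66.SC
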