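import Pool.Agent.Helper66.SC.AC

universe u

namespace Pool.Agent.Helper66.SC

open ZFSet
open Pool.Agent.Helper22.SC (URel U In in_zfset in_prod in_fin ZCls ud1_iff ud_iff rrec rrec_eq
  pfst psnd pfst_pair psnd_pair app app_gr gr app_eq mem_ran mem_dom dom ran rk pair_mem_gr)

variable {C : Cls.{u}}

/-- The step function for `val`. -/
noncomputable def valF (G τ g : ZFSet.{u}) : ZFSet.{u} := img (ndom G τ) (fun σ => app g σ)

theorem val_eq_rrec (G τ : ZFSet.{u}) : val G τ = rrec (valF G) (ndom G) τ := by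
  have key : ∀ o : Ordinal.{u}, ∀ τ : ZFSet.{u}, τ.rank = o →
      val G τ = rrec (valF G) (ndom G) τ := by
    intro o
    induction o using WellFoundedLT.induction with
    | ind o ih =>
      intro τ hτ
      have hr : ∀ σ ∈ ndom G τ, σ.rank < τ.rank := by
        intro σ hσ
        obtain ⟨p, _, h⟩ := mem_ndom.1 hσ
        exact rank_lt_of_pair_mem h
      rw [rrec_eq hr, valF]
      ext x
      rw [mem_val, mem_img]
      constructor
      · rintro ⟨σ, p, hp, h, rfl⟩
        have hσ : σ ∈ ndom G τ := mem_ndom.2 ⟨p, hp, h⟩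
        refine ⟨σ, hσ, ?_⟩
        rw [app_gr hσ]
        exact (ih _ (hτ ▸ hr σ hσ) σ rfl).symm
      · rintro ⟨σ, hσ, rfl⟩
        obtain ⟨p, hp, h⟩ := mem_ndom.1 hσ
        refine ⟨σ, p, hp, h, ?_⟩
        rw [app_gr hσ]
        exact (ih _ (hτ ▸ hr σ hσ) σ rfl).symm
  exact key _ τ rfl

theorem uVal [ZCls C] {α : Type (u + 1)} [Pool.Agent.Helper22.SC.Ctx.{u} α]
    {f g : Set ZFSet.{u} → Set ZFSet.{u} → α → ZFSet.{u}} (hf : U C f) (hg : U C g) :
    U C (fun N A a => val (f N A a) (g N A a)) := by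
  have hnd : U C (fun _ _ (p : ZFSet.{u} × ZFSet.{u}) => ndom p.1 p.2) := by
    unfold ndom
    apply_rules (transparency := .reducible) (maxDepth := 400) using is_poly
  have h : U C (fun _ _ (p : ZFSet.{u} × ZFSet.{u}) => val p.1 p.2) := by
    simp only [val_eq_rrec]
    refine U.rrec (F := fun _ _ (p : ZFSet.{u} × ZFSet.{u}) => valF p.1)
      (P := fun _ _ (p : ZFSet.{u} × ZFSet.{u}) => ndom p.1) ?_ ?_ ?_
      (by apply_rules (transparency := .reducible) (maxDepth := 400) using is_poly)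
    · unfold valF
      refine U.img ?_
        (by apply_rules (transparency := .reducible) (maxDepth := 400) using is_poly)
      exact hnd.comp (f := fun _ _ (p : ((ZFSet.{u} × ZFSet.{u}) × ZFSet.{u}) × ZFSet.{u}) =>
        (p.1.1.1, p.1.2))
        (by apply_rules (transparency := .reducible) (maxDepth := 400) using is_poly)
    · exact hnd.comp (f := fun _ _ (p : (ZFSet.{u} × ZFSet.{u}) × ZFSet.{u}) => (p.1.1, p.2))
        (by apply_rules (transparency := .reducible) (maxDepth := 400) using is_poly)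
    · intro N A _ a _ x _ σ hσ
      obtain ⟨p, _, h⟩ := mem_ndom.1 hσ
      exact rank_lt_of_pair_mem h
  exact U.app2 (h := fun _ _ x y => val x y) h hf hg

attribute [is_poly] uVal

/-- The inverse of an injective relation. -/
noncomputable def invf (e t : ZFSet.{u}) : ZFSet.{u} :=
  ⋃₀ ((dom e).sep (fun s => pair s t ∈ e))

theorem invf_eq {e s t : ZFSet.{u}} (h : pair s t ∈ e) (hinj : ∀ s', pair s' t ∈ e → s' = s) :
    invf e t = s := by
  unfold invf
  have : (dom e).sep (fun s => pair s t ∈ e) = ({s} : ZFSet.{u}) := by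
    ext z
    rw [ZFSet.mem_sep, mem_dom, ZFSet.mem_singleton]
    constructor
    · rintro ⟨_, h1⟩
      exact hinj z h1
    · rintro rfl
      exact ⟨⟨t, h⟩, h⟩
  rw [this, ZFSet.sUnion_singleton]

/-- FB5 from FB1 and FB4. -/
theorem fb5_of (h1 : ST_FB1.{u}) (h4 : ST_FB4.{u}) : ST_FB5.{u} := by
  intro M P G hM hP hG hWO x hx
  obtain ⟨τ, hτ, rfl⟩ := hx
  obtain ⟨hsub, hGE, -, hord, -⟩ := h1 M ∅ P G hM hP hG
  have hK : IsZF (Ext M G) ∅ := h4 M P G hM hP hG
  have hDU : U (fun M A => IsZF M A) (fun _ _ (p : ZFSet.{u}) => dom p) := by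
    apply_rules (transparency := .reducible) (maxDepth := 400) using is_poly
  have hD : dom τ ∈ M := in_zfset.1 (hDU.closed hM (a := τ) (in_zfset.2 hτ))
  obtain ⟨o, ho, e, he, hfun, hinj⟩ := hWO _ hD
  refine ⟨o, hsub _ ho, ?_⟩
  have hU : U (fun M A => IsZF M A) (fun _ _ (p : (ZFSet.{u} × ZFSet.{u}) × ZFSet.{u}) =>
      val p.1.1 (invf p.1.2 p.2)) := by
    unfold invf
    apply_rules (transparency := .reducible) (maxDepth := 400) using is_poly
  refine cardLe_of_least (C := fun M A => IsZF M A)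
    (G := fun _ _ (a : ZFSet.{u} × ZFSet.{u}) t => val a.1 (invf a.2 t)) hU hK (a := (G, e))
    (by simp [hGE, hsub e he]) ⟨τ, hτ, rfl⟩ (hsub _ ho) ?_
  intro y hy
  obtain ⟨σ, p, hp, h, rfl⟩ := mem_val.1 hy
  have hσ : σ ∈ dom τ := mem_dom.2 ⟨p, h⟩
  have h2 := isFunc_app hfun hσ
  obtain ⟨c, hc, hc'⟩ := Ordinal.mem_toZFSet_iff.1 h2.2.1
  refine ⟨c, hc, ?_⟩
  have h3 : pair σ (oz c) ∈ e := by
    change pair σ c.toZFSet ∈ e
    rw [hc']
    exact h2.1
  have h5 : invf e (oz c) = σ := by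
    refine invf_eq h3 (fun s hs => ?_)
    have hs' : s ∈ dom τ := (ZFSet.pair_mem_prod.1 (hfun.1 hs)).1
    exact hinj s hs' σ hσ _ hs h3
  change val G (invf e (oz c)) = val G σ
  rw [h5]

end Pool.Agent.Helper66.SC
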