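import Pool.Agent.Helper22.SC.Conv

universe u

namespace Pool.Agent.Helper66.SC

open ZFSet
open Pool.Agent.Helper22.SC (URel U In in_zfset in_prod in_fin ZCls ud1_iff ud_iff rrec rrec_eq
  pfst psnd pfst_pair psnd_pair app app_gr gr app_eq mem_ran mem_dom dom ran rk pair_mem_gr)

/-- A relation in `M` which is an injective function. -/
theorem CardLe.mk' {M : Set ZFSet.{u}} {x b : ZFSet.{u}} {h : ZFSet.{u}} (hM : h ∈ M)
    (h1 : ∀ t ∈ h, ∃ y ∈ x, ∃ z ∈ b, t = pair y z) (h2 : ∀ y ∈ x, ∃ z, pair y z ∈ h)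
    (h3 : ∀ y z z', pair y z ∈ h → pair y z' ∈ h → z = z')
    (h4 : ∀ y y' z, pair y z ∈ h → pair y' z ∈ h → y = y') : CardLe M x b := by
  refine ⟨h, hM, ⟨?_, ?_⟩, ?_⟩
  · intro t ht
    obtain ⟨y, hy, z, hz, rfl⟩ := h1 t ht
    exact ZFSet.pair_mem_prod.2 ⟨hy, hz⟩
  · intro y hy
    obtain ⟨z, hz⟩ := h2 y hy
    exact ⟨z, hz, fun z' hz' => h3 y z' z hz' hz⟩
  · intro y _ y' _ z hz hz'
    exact h4 y y' z hz hz'

/-- If `G` is definable and maps the ordinal `o` onto a superset of `x`, then `x` injects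
into `o`. -/
theorem cardLe_of_least {C : Cls.{u}} [ZCls C] {α : Type (u + 1)}
    [Pool.Agent.Helper22.SC.Ctx.{u} α]
    {G : Set ZFSet.{u} → Set ZFSet.{u} → α → ZFSet.{u} → ZFSet.{u}}
    (hG : U C (fun N A (p : α × ZFSet.{u}) => G N A p.1 p.2))
    {N A : Set ZFSet.{u}} (hN : C N A) {a : α} (ha : In N a) {x : ZFSet.{u}} (hx : x ∈ N)
    {o : Ordinal.{u}} (ho : oz o ∈ N) (hs : ∀ y ∈ x, ∃ c < o, G N A a (oz c) = y) :
    CardLe N x (oz o) := by
  have hU : U C (fun N A (p : (α × ZFSet.{u}) × ZFSet.{u}) =>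
      (ZFSet.prod p.1.2 p.2).sep (fun z => G N A p.1.1 (psnd z) = pfst z ∧
        ∀ β ∈ psnd z, ¬ G N A p.1.1 β = pfst z)) := by
    refine U.sep (by apply_rules (transparency := .reducible) (maxDepth := 400) using is_poly) ?_
    refine URel.and (URel.eq ?_ (by apply_rules (transparency := .reducible) (maxDepth := 400) using is_poly)) ?_
    · exact hG.comp (f := fun _ _ (p : ((α × ZFSet.{u}) × ZFSet.{u}) × ZFSet.{u}) =>
        (p.1.1.1, psnd p.2))
        (by apply_rules (transparency := .reducible) (maxDepth := 400) using is_poly)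
    · refine URel.ball (R := fun N A (p : ((α × ZFSet.{u}) × ZFSet.{u}) × ZFSet.{u}) β =>
        ¬ G N A p.1.1.1 β = pfst p.2)
        (by apply_rules (transparency := .reducible) (maxDepth := 400) using is_poly) ?_
      refine URel.not (URel.eq ?_
        (by apply_rules (transparency := .reducible) (maxDepth := 400) using is_poly))
      exact hG.comp (f := fun _ _ (p : (((α × ZFSet.{u}) × ZFSet.{u}) × ZFSet.{u}) × ZFSet.{u}) =>
        (p.1.1.1.1, p.2))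
        (by apply_rules (transparency := .reducible) (maxDepth := 400) using is_poly)
  have h1 := in_zfset.1 (hU.closed hN (a := ((a, x), oz o)) (by simp [ha, hx, ho]))
  set h : ZFSet.{u} := (ZFSet.prod x (oz o)).sep (fun z => G N A a (psnd z) = pfst z ∧
        ∀ β ∈ psnd z, ¬ G N A a β = pfst z) with hh
  have hmem : ∀ y z, pair y z ∈ h ↔ y ∈ x ∧ z ∈ oz o ∧ G N A a z = y ∧
      ∀ β ∈ z, ¬ G N A a β = y := by
    intro y z
    rw [hh, ZFSet.mem_sep, ZFSet.pair_mem_prod, pfst_pair, psnd_pair]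
    tauto
  refine CardLe.mk' h1 ?_ ?_ ?_ ?_
  · intro t ht
    obtain ⟨y, hy, z, hz, rfl⟩ := ZFSet.mem_prod.1 (ZFSet.mem_sep.1 ht).1
    exact ⟨y, hy, z, hz, rfl⟩
  · intro y hy
    obtain ⟨c, hc, hcy⟩ := hs y hy
    obtain ⟨d, ⟨hd1, hd2⟩, hd3⟩ := WellFounded.has_min (wellFounded_lt (α := Ordinal.{u}))
      {c : Ordinal.{u} | c < o ∧ G N A a (oz c) = y} ⟨c, hc, hcy⟩
    refine ⟨oz d, (hmem _ _).2 ⟨hy, Ordinal.toZFSet_mem_toZFSet_iff.2 hd1, hd2, ?_⟩⟩
    intro β hβ h2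
    obtain ⟨e, he, rfl⟩ := Ordinal.mem_toZFSet_iff.1 hβ
    exact hd3 e ⟨he.trans hd1, h2⟩ he
  · intro y z z' h2 h3
    obtain ⟨_, hz, hz1, hz2⟩ := (hmem _ _).1 h2
    obtain ⟨_, hz', hz1', hz2'⟩ := (hmem _ _).1 h3
    obtain ⟨c, hc, rfl⟩ := Ordinal.mem_toZFSet_iff.1 hz
    obtain ⟨d, hd, rfl⟩ := Ordinal.mem_toZFSet_iff.1 hz'
    rcases lt_trichotomy c d with h | h | h
    · exact absurd hz1 (hz2' _ (Ordinal.toZFSet_mem_toZFSet_iff.2 h))
    · rw [h]
    · exact absurd hz1' (hz2 _ (Ordinal.toZFSet_mem_toZFSet_iff.2 h))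
  · intro y y' z h2 h3
    rw [← ((hmem _ _).1 h2).2.2.1, ← ((hmem _ _).1 h3).2.2.1]

open Classical in
/-- The step function of the recursion in the proof of the well-ordering theorem. -/
noncomputable def acF (x f : ZFSet.{u}) (_ g : ZFSet.{u}) : ZFSet.{u} :=
  if x \ ran g = ∅ then x else app f (x \ ran g)

noncomputable def acG (x f t : ZFSet.{u}) : ZFSet.{u} := rrec (acF x f) (fun y => y) t

theorem uAcG {C : Cls.{u}} [ZCls C] :
    U C (fun _ _ (p : (ZFSet.{u} × ZFSet.{u}) × ZFSet.{u}) => acG p.1.1 p.1.2 p.2) := by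
  unfold acG
  refine U.rrec (F := fun _ _ (p : (ZFSet.{u} × ZFSet.{u}) × ZFSet.{u}) => acF p.1.1 p.1.2)
    (P := fun _ _ _ y => y) ?_
    (by apply_rules (transparency := .reducible) (maxDepth := 400) using is_poly)
    (fun _ _ _ x _ y hy => rank_lt_of_mem hy)
    (by apply_rules (transparency := .reducible) (maxDepth := 400) using is_poly)
  unfold acF
  refine U.ite (R := fun _ _ (p : (((ZFSet.{u} × ZFSet.{u}) × ZFSet.{u}) × ZFSet.{u}) ×
    ZFSet.{u}) => p.1.1.1.1 \ ran p.2 = ∅) ?_ ?_ ?_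
  all_goals apply_rules (transparency := .reducible) (maxDepth := 400) using is_poly

theorem acG_eq (x f : ZFSet.{u}) (o : Ordinal.{u}) :
    acG x f (oz o) = acF x f (oz o) (gr (oz o) (acG x f)) := by
  unfold acG
  rw [rrec_eq (fun y hy => rank_lt_of_mem hy)]

theorem st_AC1 : ST_AC1.{u} := by
  intro M A hM hC x hx
  obtain ⟨f, hf, hf'⟩ := hC (Pow M x) (by
    obtain ⟨y, hy, h⟩ := hM.power x hx
    have : Pow M x = y := by
      ext z
      rw [mem_Pow, h]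
    rwa [this])
  have hCM : (fun M A => IsZF M A : Cls.{u}) M A := hM
  have hUG := uAcG.{u} (C := fun M A => IsZF M A)
  have hUran : U (fun M A => IsZF M A) (fun _ _ (p : (ZFSet.{u} × ZFSet.{u}) × ZFSet.{u}) =>
      p.1.1 \ ran (gr p.2 (acG p.1.1 p.1.2))) := by
    refine U.diff (by apply_rules (transparency := .reducible) (maxDepth := 400) using is_poly)
      (U.ran (U.gr (g := fun _ _ (p : (ZFSet.{u} × ZFSet.{u}) × ZFSet.{u}) => acG p.1.1 p.1.2)
      (by apply_rules (transparency := .reducible) (maxDepth := 400) using is_poly) ?_))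
    exact hUG.comp (f := fun _ _ (p : ((ZFSet.{u} × ZFSet.{u}) × ZFSet.{u}) × ZFSet.{u}) =>
      ((p.1.1.1, p.1.1.2), p.2))
      (by apply_rules (transparency := .reducible) (maxDepth := 400) using is_poly)
  have hran : ∀ o y, y ∈ ran (gr (oz o) (acG x f)) ↔ ∃ c < o, acG x f (oz c) = y := by
    intro o y
    rw [mem_ran]
    constructor
    · rintro ⟨z, hz⟩
      obtain ⟨hz1, rfl⟩ := pair_mem_gr.1 hz
      obtain ⟨c, hc, rfl⟩ := Ordinal.mem_toZFSet_iff.1 hz1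
      exact ⟨c, hc, rfl⟩
    · rintro ⟨c, hc, rfl⟩
      exact ⟨oz c, pair_mem_gr.2 ⟨Ordinal.toZFSet_mem_toZFSet_iff.2 hc, rfl⟩⟩
  have hval : ∀ o, oz o ∈ M → x \ ran (gr (oz o) (acG x f)) ≠ ∅ →
      acG x f (oz o) ∈ x ∧ ∀ c < o, acG x f (oz c) ≠ acG x f (oz o) := by
    intro o ho hne
    have h1 : x \ ran (gr (oz o) (acG x f)) ∈ Pow M x := by
      rw [mem_Pow]
      refine ⟨in_zfset.1 (hUran.closed hM (a := ((x, f), oz o)) (by simp [hx, hf, ho])), ?_⟩
      intro z hz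
      exact (ZFSet.mem_sdiff.1 hz).1
    obtain ⟨z, hz, hz'⟩ := hf' _ h1 hne
    have h2 : acG x f (oz o) = z := by
      rw [acG_eq, acF, if_neg hne]
      exact app_eq ((hz' z).2 rfl) (fun w hw => (hz' w).1 hw)
    rw [h2]
    have h3 := ZFSet.mem_sdiff.1 hz
    refine ⟨h3.1, fun c hc h4 => h3.2 ?_⟩
    rw [hran]
    exact ⟨c, hc, h4⟩
  have hex : ∃ o, oz o ∈ M ∧ x \ ran (gr (oz o) (acG x f)) = ∅ := by
    by_contra hcon
    push Not at hcon
    have hR : URel (fun M A => IsZF M A) (fun _ _ (p : ((ZFSet.{u} × ZFSet.{u}) × ZFSet.{u}) ×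
        ZFSet.{u}) => p.2.IsOrdinal ∧ acG p.1.1.1 p.1.1.2 p.2 = p.1.2) := by
      refine URel.and
        (by apply_rules (transparency := .reducible) (maxDepth := 400) using is_poly)
        (URel.eq ?_
          (by apply_rules (transparency := .reducible) (maxDepth := 400) using is_poly))
      exact hUG.comp (f := fun _ _ (p : ((ZFSet.{u} × ZFSet.{u}) × ZFSet.{u}) × ZFSet.{u}) =>
        ((p.1.1.1, p.1.1.2), p.2))
        (by apply_rules (transparency := .reducible) (maxDepth := 400) using is_poly)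
    have hS : U (fun M A => IsZF M A) (fun M _ (p : ZFSet.{u} × ZFSet.{u}) =>
        p.1.sep (fun y => ∃ t ∈ M, t.IsOrdinal ∧ acG p.1 p.2 t = y)) := by
      refine U.sep (by apply_rules (transparency := .reducible) (maxDepth := 400) using is_poly)
        ?_
      refine URel.ex (R := fun M _ (p : (ZFSet.{u} × ZFSet.{u}) × ZFSet.{u}) t =>
        t.IsOrdinal ∧ acG p.1.1 p.1.2 t = p.2) ?_
      exact hR.comp (f := fun _ _ (p : ((ZFSet.{u} × ZFSet.{u}) × ZFSet.{u}) × ZFSet.{u}) =>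
        (((p.1.1.1, p.1.1.2), p.1.2), p.2))
        (by apply_rules (transparency := .reducible) (maxDepth := 400) using is_poly)
    have hS1 := in_zfset.1 (hS.closed hM (a := (x, f)) (by simp [hx, hf]))
    obtain ⟨b, hb, hb'⟩ := Pool.Agent.Helper22.SC.repl_of_urel
      (R := fun _ _ (a : ZFSet.{u} × ZFSet.{u}) y t => t.IsOrdinal ∧ acG a.1 a.2 t = y)
      hR hM (a := (x, f)) (by simp [hx, hf]) hS1 (by
        intro y hy
        obtain ⟨hy1, t, ht, ht1, ht2⟩ := ZFSet.mem_sep.1 hy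
        refine ⟨t, ⟨ht, ht1, ht2⟩, ?_⟩
        rintro s ⟨hs, hs1, hs2⟩
        obtain ⟨c, rfl⟩ := (ZFSet.isOrdinal_iff_mem_range_toZFSet.1 ht1)
        obtain ⟨d, rfl⟩ := (ZFSet.isOrdinal_iff_mem_range_toZFSet.1 hs1)
        rcases lt_trichotomy c d with h | h | h
        · exact absurd (ht2.trans hs2.symm) ((hval d hs (hcon d hs)).2 c h)
        · rw [h]
        · exact absurd (hs2.trans ht2.symm) ((hval c ht (hcon c ht)).2 d h))
    have h1 : oz b.rank ∈ M := hM.rk_mem hb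
    have h2 : oz b.rank ∈ b := by
      rw [hb']
      refine ⟨h1, acG x f (oz b.rank), ?_, ZFSet.isOrdinal_toZFSet _, rfl⟩
      rw [ZFSet.mem_sep]
      exact ⟨(hval _ h1 (hcon _ h1)).1, _, h1, ZFSet.isOrdinal_toZFSet _, rfl⟩
    have h3 := rank_lt_of_mem h2
    rw [Ordinal.rank_toZFSet] at h3
    exact lt_irrefl _ h3
  obtain ⟨o, ho, ho'⟩ := hex
  refine ⟨o, ho, ?_⟩
  refine cardLe_of_least (C := fun M A => IsZF M A)
    (G := fun _ _ (a : ZFSet.{u} × ZFSet.{u}) t => acG a.1 a.2 t) hUG hM (a := (x, f))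
    (by simp [hx, hf]) hx ho ?_
  intro y hy
  rw [← hran]
  by_contra h
  have h1 : y ∈ x \ ran (gr (oz o) (acG x f)) := ZFSet.mem_sdiff.2 ⟨hy, h⟩
  rw [ho'] at h1
  exact ZFSet.notMem_empty _ h1

/-- The value of an injection. -/
theorem isFunc_app {x y f : ZFSet.{u}} (h : IsFunc x y f) {z : ZFSet.{u}} (hz : z ∈ x) :
    pair z (app f z) ∈ f ∧ app f z ∈ y ∧ ∀ w, pair z w ∈ f → w = app f z := by
  obtain ⟨w, hw, hw'⟩ := h.2 z hz
  have h1 : app f z = w := app_eq hw hw'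
  rw [h1]
  exact ⟨hw, (ZFSet.pair_mem_prod.1 (h.1 hw)).2, hw'⟩

theorem st_AC2 : ST_AC2.{u} := by
  intro M A hM hWO x hx
  have hxU : (⋃₀ x : ZFSet.{u}) ∈ M := hM.sUnion x hx
  obtain ⟨o, ho, e, he, hfun, hinj⟩ := hWO _ hxU
  have hU : U (fun M A => IsZF M A) (fun _ _ (p : ZFSet.{u} × ZFSet.{u}) =>
      (ZFSet.prod p.1 (⋃₀ p.1)).sep (fun t => psnd t ∈ pfst t ∧
        ∀ w ∈ pfst t, app p.2 (psnd t) ⊆ app p.2 w)) := by
    apply_rules (transparency := .reducible) (maxDepth := 400) using is_poly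
  have h1 := in_zfset.1 (hU.closed hM (a := (x, e)) (by simp [hx, he]))
  refine ⟨_, h1, ?_⟩
  intro y hy hne
  have hmem : ∀ z, pair y z ∈ ((ZFSet.prod x (⋃₀ x)).sep (fun t => psnd t ∈ pfst t ∧
        ∀ w ∈ pfst t, app e (psnd t) ⊆ app e w)) ↔ z ∈ y ∧ ∀ w ∈ y, app e z ⊆ app e w := by
    intro z
    rw [ZFSet.mem_sep, ZFSet.pair_mem_prod, pfst_pair, psnd_pair]
    constructor
    · exact fun h => h.2
    · exact fun h => ⟨⟨hy, ZFSet.mem_sUnion.2 ⟨y, hy, h.1⟩⟩, h⟩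
  have hord : ∀ z ∈ y, ∃ c < o, app e z = oz c := by
    intro z hz
    have h2 := (isFunc_app hfun (ZFSet.mem_sUnion.2 ⟨y, hy, hz⟩)).2.1
    obtain ⟨c, hc, h3⟩ := Ordinal.mem_toZFSet_iff.1 h2
    exact ⟨c, hc, h3.symm⟩
  have hne' : ∃ z, z ∈ y := by
    by_contra h
    push Not at h
    apply hne
    ext z
    constructor
    · intro hz
      exact absurd hz (h z)
    · intro hz
      exact absurd hz (ZFSet.notMem_empty z)
  obtain ⟨z0, hz0⟩ := hne'
  obtain ⟨c0, hc0, hz0'⟩ := hord z0 hz0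
  obtain ⟨c, ⟨z, hz, hzc⟩, hmin⟩ := WellFounded.has_min (wellFounded_lt (α := Ordinal.{u}))
    {c : Ordinal.{u} | ∃ z ∈ y, app e z = oz c} ⟨c0, z0, hz0, hz0'⟩
  have hleast : ∀ w ∈ y, app e z ⊆ app e w := by
    intro w hw
    obtain ⟨d, _, hd⟩ := hord w hw
    rw [hzc, hd, Ordinal.toZFSet_subset_toZFSet_iff]
    by_contra hlt
    exact hmin d ⟨w, hw, hd⟩ (not_le.1 hlt)
  refine ⟨z, hz, fun w => ?_⟩
  rw [hmem]
  constructor
  · rintro ⟨hw, h2⟩
    have h3 : app e w = app e z := subset_antisymm (h2 z hz) (hleast w hw)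
    have h4 := (isFunc_app hfun (ZFSet.mem_sUnion.2 ⟨y, hy, hw⟩)).1
    have h5 := (isFunc_app hfun (ZFSet.mem_sUnion.2 ⟨y, hy, hz⟩)).1
    rw [h3] at h4
    exact hinj w (ZFSet.mem_sUnion.2 ⟨y, hy, hw⟩) z (ZFSet.mem_sUnion.2 ⟨y, hy, hz⟩) _ h4 h5
  · rintro rfl
    exact ⟨hz, hleast⟩

end Pool.Agent.Helper66.SC
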