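import Pool.Agent.Helper66.SC.Defs
import Pool.Agent.Helper22.SC.Ops2

/-!
# C1: there is a countable transitive model of ZF
-/

namespace Pool.Agent.Helper66.SC.C1c

open ZFSet Pool.Agent.Helper66.SC

/-! ### Countability of the formulas -/

def code : {k : ℕ} → Fml k → ℕ
  | _, .mem i j => 6 * Nat.pair i j
  | _, .eq i j => 6 * Nat.pair i j + 1
  | _, .pr i => 6 * i + 2
  | _, .neg φ => 6 * code φ + 3
  | _, .and φ ψ => 6 * Nat.pair (code φ) (code ψ) + 4
  | _, .ex φ => 6 * code φ + 5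

theorem code_inj : ∀ {k : ℕ} (φ ψ : Fml k), code φ = code ψ → φ = ψ := by
  intro k φ
  induction φ with
  | mem i j =>
    intro ψ h
    cases ψ <;> simp only [code] at h <;> try omega
    rename_i a b
    have := Nat.pair_eq_pair.1 (by omega : Nat.pair i j = Nat.pair a b)
    rw [Fin.ext this.1, Fin.ext this.2]
  | eq i j =>
    intro ψ h
    cases ψ <;> simp only [code] at h <;> try omega
    rename_i a b
    have := Nat.pair_eq_pair.1 (by omega : Nat.pair i j = Nat.pair a b)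
    rw [Fin.ext this.1, Fin.ext this.2]
  | pr i =>
    intro ψ h
    cases ψ <;> simp only [code] at h <;> try omega
    rename_i a
    rw [Fin.ext (by omega : (i : ℕ) = a)]
  | neg φ ih =>
    intro ψ h
    cases ψ <;> simp only [code] at h <;> try omega
    rename_i a
    rw [ih a (by omega)]
  | and φ ψ ih1 ih2 =>
    intro χ h
    cases χ <;> simp only [code] at h <;> try omega
    rename_i a b
    have := Nat.pair_eq_pair.1 (by omega : Nat.pair (code φ) (code ψ) = Nat.pair (code a) (code b))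
    rw [ih1 a this.1, ih2 b this.2]
  | ex φ ih =>
    intro ψ h
    cases ψ <;> simp only [code] at h <;> try omega
    rename_i a
    rw [ih a (by omega)]

instance (k : ℕ) : Countable (Fml k) :=
  ⟨⟨code, fun φ ψ h => code_inj φ ψ h⟩⟩

/-! ### The universe is a model -/

theorem isZF_univ : IsZF (Set.univ : Set ZFSet.{0}) ∅ where
  trans := fun _ _ _ _ => trivial
  omega := trivial
  pair := fun _ _ _ _ => trivial
  sUnion := fun _ _ => trivial
  power := fun x _ => ⟨x.powerset, trivial, fun z => by simp⟩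
  sep := fun k φ p _ a _ => ⟨a.sep (fun x => Sat Set.univ ∅ φ (Fin.cons x p)), trivial,
    fun x => ZFSet.mem_sep⟩
  repl := by
    intro k φ p _ a _ h
    have h' : ∀ x : {x // x ∈ a}, ∃ y, Sat Set.univ ∅ φ (Fin.cons x.1 (Fin.cons y p)) := by
      intro x
      obtain ⟨y, hy, _⟩ := h x.1 x.2
      exact ⟨y, hy.2⟩
    choose g hg using h'
    refine ⟨ZFSet.range g, trivial, fun y => ?_⟩
    rw [ZFSet.mem_range]
    constructor
    · rintro ⟨x, rfl⟩
      exact ⟨trivial, x.1, x.2, hg x⟩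
    · rintro ⟨_, x, hx, hs⟩
      refine ⟨⟨x, hx⟩, ?_⟩
      exact (h x hx).unique ⟨trivial, hg ⟨x, hx⟩⟩ ⟨trivial, hs⟩

/-! ### The Skolem hull of the empty set -/

open Classical in
noncomputable def sk {k : ℕ} (φ : Fml (k + 1)) (v : Fin k → ZFSet.{0}) : ZFSet.{0} :=
  if h : ∃ x, Sat Set.univ ∅ φ (Fin.cons x v) then h.choose else ∅

theorem sk_spec {k : ℕ} (φ : Fml (k + 1)) (v : Fin k → ZFSet.{0})
    (h : ∃ x, Sat Set.univ ∅ φ (Fin.cons x v)) : Sat Set.univ ∅ φ (Fin.cons (sk φ v) v) := by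
  unfold sk
  rw [dif_pos h]
  exact h.choose_spec

def Hn : ℕ → Set ZFSet.{0}
  | 0 => ∅
  | n + 1 => Hn n ∪ {x | ∃ (k : ℕ) (φ : Fml (k + 1)) (v : Fin k → ZFSet.{0}),
      (∀ i, v i ∈ Hn n) ∧ x = sk φ v}

def HH : Set ZFSet.{0} := ⋃ n, Hn n

theorem Hn_countable (n : ℕ) : (Hn n).Countable := by
  induction n with
  | zero => exact Set.countable_empty
  | succ n ih =>
    refine ih.union ?_
    have : Countable (Hn n) := ih.to_subtype
    have : {x : ZFSet.{0} | ∃ (k : ℕ) (φ : Fml (k + 1)) (v : Fin k → ZFSet.{0}),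
        (∀ i, v i ∈ Hn n) ∧ x = sk φ v} ⊆
        Set.range (fun s : (Σ k : ℕ, Fml (k + 1) × (Fin k → Hn n)) =>
          sk s.2.1 (fun i => (s.2.2 i).1)) := by
      rintro x ⟨k, φ, v, hv, rfl⟩
      exact ⟨⟨k, φ, fun i => ⟨v i, hv i⟩⟩, rfl⟩
    exact (Set.countable_range _).mono this

theorem HH_countable : HH.Countable := Set.countable_iUnion Hn_countable

theorem Hn_mono : Monotone Hn := monotone_nat_of_le_succ fun _ => Set.subset_union_left

theorem exists_Hn {k : ℕ} (v : Fin k → ZFSet.{0}) (hv : ∀ i, v i ∈ HH) :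
    ∃ n, ∀ i, v i ∈ Hn n := by
  have : ∀ i, ∃ n, v i ∈ Hn n := fun i => by simpa [HH] using hv i
  choose f hf using this
  exact ⟨Finset.univ.sup f, fun i => Hn_mono (Finset.le_sup (Finset.mem_univ i)) (hf i)⟩

theorem sk_mem {k : ℕ} (φ : Fml (k + 1)) (v : Fin k → ZFSet.{0}) (hv : ∀ i, v i ∈ HH) :
    sk φ v ∈ HH := by
  obtain ⟨n, hn⟩ := exists_Hn v hv
  exact Set.mem_iUnion.2 ⟨n + 1, Or.inr ⟨k, φ, v, hn, rfl⟩⟩

theorem elem_HH {k : ℕ} (φ : Fml k) (v : Fin k → ZFSet.{0}) (hv : ∀ i, v i ∈ HH) :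
    Sat HH ∅ φ v ↔ Sat Set.univ ∅ φ v := by
  induction φ with
  | mem i j => rfl
  | eq i j => rfl
  | pr i => rfl
  | neg φ ih => exact not_congr (ih v hv)
  | and φ ψ ih1 ih2 => exact and_congr (ih1 v hv) (ih2 v hv)
  | ex φ ih =>
    constructor
    · rintro ⟨x, hx, h⟩
      exact ⟨x, trivial, (ih _ (cons_mem hx hv)).1 h⟩
    · rintro ⟨x, _, h⟩
      have h1 := sk_spec φ v ⟨x, h⟩
      exact ⟨sk φ v, sk_mem φ v hv, (ih _ (cons_mem (sk_mem φ v hv) hv)).2 h1⟩

/-! ### The collapse -/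

noncomputable def col (x : ZFSet.{0}) : ZFSet.{0} :=
  ZFSet.range (fun y : {y // y ∈ x.sep (fun y => y ∈ HH)} => col y.1)
termination_by x.rank
decreasing_by exact rank_lt_of_mem (ZFSet.mem_sep.1 y.2).1

theorem mem_col {x z : ZFSet.{0}} : z ∈ col x ↔ ∃ y ∈ x, y ∈ HH ∧ z = col y := by
  rw [col, ZFSet.mem_range]
  constructor
  · rintro ⟨⟨y, hy⟩, rfl⟩
    exact ⟨y, (ZFSet.mem_sep.1 hy).1, (ZFSet.mem_sep.1 hy).2, rfl⟩
  · rintro ⟨y, hy, hy', rfl⟩
    exact ⟨⟨y, ZFSet.mem_sep.2 ⟨hy, hy'⟩⟩, rfl⟩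

theorem HH_ext {x y : ZFSet.{0}} (hx : x ∈ HH) (hy : y ∈ HH)
    (h : ∀ z ∈ HH, (z ∈ x ↔ z ∈ y)) : x = y := by
  by_contra hne
  have h1 : Sat Set.univ ∅ (k := 2) (.ex (.neg (.and (.neg (.and (.mem 0 1) (.neg (.mem 0 2))))
      (.neg (.and (.mem 0 2) (.neg (.mem 0 1))))))) ![x, y] := by
    simp only [Sat]
    by_contra hcon
    apply hne
    apply ZFSet.ext
    intro z
    by_contra hz
    apply hcon
    refine ⟨z, trivial, ?_⟩
    simp only [Fin.cons_zero, Fin.cons_one, Matrix.cons_val_zero]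
    change ¬ (¬ (z ∈ x ∧ ¬ z ∈ y) ∧ ¬ (z ∈ y ∧ ¬ z ∈ x))
    tauto
  have hv : ∀ i, (![x, y] : Fin 2 → ZFSet.{0}) i ∈ HH := by
    intro i
    fin_cases i
    · exact hx
    · exact hy
  rw [← elem_HH _ _ hv] at h1
  obtain ⟨z, hz, h2⟩ := h1
  simp only [Sat] at h2
  have h3 : ¬ (¬ (z ∈ x ∧ ¬ z ∈ y) ∧ ¬ (z ∈ y ∧ ¬ z ∈ x)) := h2
  have := h z hz
  tauto

theorem col_inj : ∀ x ∈ HH, ∀ y ∈ HH, col x = col y → x = y := by
  intro x
  induction x using ZFSet.inductionOn with
  | _ x ih =>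
    intro hx y hy h
    refine HH_ext hx hy fun z hz => ?_
    constructor
    · intro hzx
      have h1 : col z ∈ col y := h ▸ mem_col.2 ⟨z, hzx, hz, rfl⟩
      obtain ⟨w, hw, hwH, he⟩ := mem_col.1 h1
      rw [ih z hzx hz w hwH he]
      exact hw
    · intro hzy
      have h1 : col z ∈ col x := h ▸ mem_col.2 ⟨z, hzy, hz, rfl⟩
      obtain ⟨w, hw, hwH, he⟩ := mem_col.1 h1
      rw [← ih w hw hwH z hz he.symm]
      exact hw

def MM : Set ZFSet.{0} := col '' HH

theorem sat_col {k : ℕ} (φ : Fml k) (v : Fin k → ZFSet.{0}) (hv : ∀ i, v i ∈ HH) :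
    Sat MM ∅ φ (col ∘ v) ↔ Sat HH ∅ φ v := by
  induction φ with
  | mem i j =>
    simp only [Sat, Function.comp]
    constructor
    · intro h
      obtain ⟨w, hw, hwH, he⟩ := mem_col.1 h
      rw [col_inj _ (hv i) _ hwH he]
      exact hw
    · intro h
      exact mem_col.2 ⟨_, h, hv i, rfl⟩
  | eq i j =>
    simp only [Sat, Function.comp]
    exact ⟨fun h => col_inj _ (hv i) _ (hv j) h, fun h => by rw [h]⟩
  | pr i => exact Iff.rfl
  | neg φ ih => exact not_congr (ih v hv)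
  | and φ ψ ih1 ih2 => exact and_congr (ih1 v hv) (ih2 v hv)
  | ex φ ih =>
    have e : ∀ x, (Fin.cons (col x) (col ∘ v) : Fin (_ + 1) → ZFSet.{0}) =
        col ∘ (Fin.cons x v) := by
      intro x
      funext i
      refine Fin.cases ?_ (fun j => ?_) i
      · rfl
      · rfl
    constructor
    · rintro ⟨_, ⟨x, hx, rfl⟩, h⟩
      rw [e] at h
      exact ⟨x, hx, (ih _ (cons_mem hx hv)).1 h⟩
    · rintro ⟨x, hx, h⟩
      refine ⟨col x, ⟨x, hx, rfl⟩, ?_⟩
      rw [e]
      exact (ih _ (cons_mem hx hv)).2 h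

theorem MM_trans : ∀ x ∈ MM, ∀ y ∈ x, y ∈ MM := by
  rintro _ ⟨a, _, rfl⟩ y hy
  obtain ⟨b, _, hb, rfl⟩ := mem_col.1 hy
  exact ⟨b, hb, rfl⟩

/-- The class consisting of the universe and of `MM`. -/
def CC : Cls.{0} := fun N A => A = ∅ ∧ (N = Set.univ ∨ N = MM)

/-- Transfer. -/
theorem transfer {k : ℕ} {R : URelF.{0} k} (hR : UD CC R) (v : Fin k → ZFSet.{0})
    (hv : ∀ i, v i ∈ MM) (h : ∀ w, R Set.univ ∅ w) : R MM ∅ v := by
  obtain ⟨φ, hφ⟩ := hR
  choose w hw hw' using hv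
  have e : v = col ∘ w := funext fun i => (hw' i).symm
  have h1 := (hφ Set.univ ∅ ⟨rfl, Or.inl rfl⟩ w (fun _ => trivial)).2 (h w)
  rw [← elem_HH φ w hw, ← sat_col φ w hw, ← e] at h1
  refine (hφ MM ∅ ⟨rfl, Or.inr rfl⟩ v ?_).1 h1
  intro i
  exact ⟨w i, hw i, hw' i⟩

theorem MM_insert (x : ZFSet.{0}) (hx : x ∈ MM) : (insert x x : ZFSet.{0}) ∈ MM := by
  have hUD : UD CC (k := 1) (fun N _ v => ∃ z ∈ N, ∀ w ∈ N, (w ∈ z ↔ (w ∈ v 0 ∨ w = v 0))) := by
    refine UD.ex (R := fun N _ z (v : Fin 1 → ZFSet.{0}) => ∀ w ∈ N,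
      (w ∈ z ↔ (w ∈ v 0 ∨ w = v 0))) ?_
    exact UD.all (R := fun N _ w (v : Fin 2 → ZFSet.{0}) => (w ∈ v 0 ↔ (w ∈ v 1 ∨ w = v 1)))
      (UD.iff (UD.memv 0 1) (UD.or (UD.memv 0 2) (UD.eqv 0 2)))
  obtain ⟨z, hz, h⟩ := transfer hUD ![x] (by
    intro i
    fin_cases i
    exact hx) (fun v => ⟨insert (v 0) (v 0), trivial, fun w _ => by
      rw [ZFSet.mem_insert_iff]
      tauto⟩)
  have : (insert x x : ZFSet.{0}) = z := by
    apply ZFSet.ext
    intro t
    rw [ZFSet.mem_insert_iff]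
    constructor
    · intro ht
      have htM : t ∈ MM := by
        rcases ht with rfl | ht
        · exact hx
        · exact MM_trans x hx t ht
      exact (h t htM).2 ht.symm
    · intro ht
      exact ((h t (MM_trans z hz t ht)).1 ht).symm
  rw [this]
  exact hz

theorem st_C1 : ST_C1 := by
  refine ⟨MM, HH_countable.image _, ?_⟩
  refine ⟨MM_trans, ?_, ?_, ?_, ?_, ?_, ?_⟩
  · -- omega
    have hUD : UD CC (k := 0) (fun N _ _ => ∃ w ∈ N, ∀ n ∈ N, (n ∈ w ↔ ((∀ t ∈ N, ¬ t ∈ n) ∨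
        ∃ m ∈ N, (m ∈ w ∧ ∀ t ∈ N, (t ∈ n ↔ (t ∈ m ∨ t = m)))))) := by
      refine UD.ex (R := fun N _ w (_ : Fin 0 → ZFSet.{0}) => ∀ n ∈ N, (n ∈ w ↔
        ((∀ t ∈ N, ¬ t ∈ n) ∨ ∃ m ∈ N, (m ∈ w ∧ ∀ t ∈ N, (t ∈ n ↔ (t ∈ m ∨ t = m)))))) ?_
      refine UD.all (R := fun N _ n (v : Fin 1 → ZFSet.{0}) => (n ∈ v 0 ↔
        ((∀ t ∈ N, ¬ t ∈ n) ∨ ∃ m ∈ N, (m ∈ v 0 ∧ ∀ t ∈ N, (t ∈ n ↔ (t ∈ m ∨ t = m)))))) ?_
      refine UD.iff (UD.memv 0 1) (UD.or ?_ ?_)
      · exact UD.all (R := fun N _ t (v : Fin 2 → ZFSet.{0}) => ¬ t ∈ v 0) (UD.memv 0 1).not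
      · refine UD.ex (R := fun N _ m (v : Fin 2 → ZFSet.{0}) => (m ∈ v 1 ∧ ∀ t ∈ N,
          (t ∈ v 0 ↔ (t ∈ m ∨ t = m)))) ?_
        refine UD.and (UD.memv 0 2) ?_
        exact UD.all (R := fun N _ t (v : Fin 3 → ZFSet.{0}) => (t ∈ v 1 ↔ (t ∈ v 0 ∨ t = v 0)))
          (UD.iff (UD.memv 0 2) (UD.or (UD.memv 0 1) (UD.eqv 0 1)))
    have h := transfer hUD Fin.elim0 (fun i => i.elim0) (fun _ => by
      refine ⟨ZFSet.omega, trivial, fun n _ => ?_⟩
      constructor
      · intro hn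
        obtain ⟨m, rfl⟩ := Pool.Agent.Helper22.SC.mem_omega_iff'.1 hn
        cases m with
        | zero =>
          left
          intro t _ ht
          rw [Nat.cast_zero, Ordinal.toZFSet_zero] at ht
          exact ZFSet.notMem_empty _ ht
        | succ m =>
          right
          refine ⟨Ordinal.toZFSet (m : Ordinal.{0}), trivial,
            Pool.Agent.Helper22.SC.mem_omega_iff'.2 ⟨m, rfl⟩, fun t _ => ?_⟩
          have : ((m + 1 : ℕ) : Ordinal.{0}) = (m : Ordinal.{0}) + 1 := Nat.cast_succ m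
          rw [this, Ordinal.toZFSet_add_one, ZFSet.mem_insert_iff]
          tauto
      · rintro (h | ⟨m, _, hm, h⟩)
        · have : n = ∅ := (ZFSet.eq_empty n).2 (fun y => h y trivial)
          rw [this]
          exact ZFSet.omega_zero
        · have : n = insert m m := by
            apply ZFSet.ext
            intro z
            rw [ZFSet.mem_insert_iff, h z trivial]
            tauto
          rw [this]
          exact ZFSet.omega_succ hm)
    obtain ⟨w, hw, h⟩ := h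
    have hw1 : w = ZFSet.omega := by
      apply ZFSet.ext
      intro z
      constructor
      · induction z using ZFSet.inductionOn with
        | _ z ih =>
          intro hz
          have hzM := MM_trans w hw z hz
          rcases (h z hzM).1 hz with h1 | ⟨m, hm, hmw, h2⟩
          · have : z = ∅ := (ZFSet.eq_empty z).2 (fun y hy => h1 y (MM_trans z hzM y hy) hy)
            rw [this]
            exact ZFSet.omega_zero
          · have : z = insert m m := by
              apply ZFSet.ext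
              intro t
              rw [ZFSet.mem_insert_iff]
              constructor
              · intro ht
                have := (h2 t (MM_trans z hzM t ht)).1 ht
                tauto
              · intro ht
                have htM : t ∈ MM := by
                  rcases ht with rfl | ht
                  · exact hm
                  · exact MM_trans m hm t ht
                exact (h2 t htM).2 (by tauto)
            rw [this]
            refine ZFSet.omega_succ (ih m ?_ hmw)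
            rw [this]
            exact ZFSet.mem_insert_iff.2 (Or.inl rfl)
      · intro hz
        obtain ⟨m, rfl⟩ := Pool.Agent.Helper22.SC.mem_omega_iff'.1 hz
        clear hz
        have hempty : (∅ : ZFSet.{0}) ∈ MM := by
          by_cases hwe : ∃ z, z ∈ w
          · obtain ⟨z, hz⟩ := hwe
            have : ∀ z : ZFSet.{0}, z ∈ MM → (∅ : ZFSet.{0}) ∈ MM := by
              intro z
              induction z using ZFSet.inductionOn with
              | _ z ih =>
                intro hz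
                by_cases hze : ∃ t, t ∈ z
                · obtain ⟨t, ht⟩ := hze
                  exact ih t ht (MM_trans z hz t ht)
                · have : z = ∅ := (ZFSet.eq_empty z).2 (fun y hy => hze ⟨y, hy⟩)
                  rw [← this]
                  exact hz
            exact this w hw
          · have : w = ∅ := (ZFSet.eq_empty w).2 (fun y hy => hwe ⟨y, hy⟩)
            rw [← this]
            exact hw
        induction m with
        | zero =>
          rw [Nat.cast_zero, Ordinal.toZFSet_zero]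
          exact (h ∅ hempty).2 (Or.inl (fun t _ => ZFSet.notMem_empty t))
        | succ m ih =>
          have e : ((m + 1 : ℕ) : Ordinal.{0}) = (m : Ordinal.{0}) + 1 := Nat.cast_succ m
          rw [e, Ordinal.toZFSet_add_one]
          have hmM := MM_trans w hw _ ih
          refine (h _ (MM_insert _ hmM)).2 (Or.inr ⟨_, hmM, ih, fun t _ => ?_⟩)
          rw [ZFSet.mem_insert_iff]
          tauto
    rw [← hw1]
    exact hw
  · -- pair
    intro x hx y hy
    have hUD : UD CC (k := 2) (fun N _ v => ∃ z ∈ N, ∀ w ∈ N, (w ∈ z ↔ (w = v 0 ∨ w = v 1))) := by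
      refine UD.ex (R := fun N _ z (v : Fin 2 → ZFSet.{0}) => ∀ w ∈ N,
        (w ∈ z ↔ (w = v 0 ∨ w = v 1))) ?_
      exact UD.all (R := fun N _ w (v : Fin 3 → ZFSet.{0}) => (w ∈ v 0 ↔ (w = v 1 ∨ w = v 2)))
        (UD.iff (UD.memv 0 1) (UD.or (UD.eqv 0 2) (UD.eqv 0 3)))
    obtain ⟨z, hz, h⟩ := transfer hUD ![x, y] (by
      intro i
      fin_cases i
      · exact hx
      · exact hy) (fun v => ⟨{v 0, v 1}, trivial, fun w _ => by simp⟩)
    have : ({x, y} : ZFSet.{0}) = z := by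
      apply ZFSet.ext
      intro t
      rw [ZFSet.mem_pair]
      constructor
      · intro ht
        have htM : t ∈ MM := by
          rcases ht with rfl | rfl
          · exact hx
          · exact hy
        exact (h t htM).2 ht
      · intro ht
        exact (h t (MM_trans z hz t ht)).1 ht
    rw [this]
    exact hz
  · -- union
    intro x hx
    have hUD : UD CC (k := 1) (fun N _ v => ∃ z ∈ N, ∀ w ∈ N, (w ∈ z ↔
        ∃ t ∈ N, (t ∈ v 0 ∧ w ∈ t))) := by
      refine UD.ex (R := fun N _ z (v : Fin 1 → ZFSet.{0}) => ∀ w ∈ N,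
        (w ∈ z ↔ ∃ t ∈ N, (t ∈ v 0 ∧ w ∈ t))) ?_
      refine UD.all (R := fun N _ w (v : Fin 2 → ZFSet.{0}) => (w ∈ v 0 ↔
        ∃ t ∈ N, (t ∈ v 1 ∧ w ∈ t))) ?_
      refine UD.iff (UD.memv 0 1) ?_
      exact UD.ex (R := fun N _ t (v : Fin 3 → ZFSet.{0}) => (t ∈ v 2 ∧ v 0 ∈ t))
        (UD.and (UD.memv 0 3) (UD.memv 1 0))
    obtain ⟨z, hz, h⟩ := transfer hUD ![x] (by
      intro i
      fin_cases i
      exact hx) (fun v => ⟨ZFSet.sUnion (v 0), trivial, fun w _ => by simp⟩)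
    have : ZFSet.sUnion x = z := by
      apply ZFSet.ext
      intro t
      rw [ZFSet.mem_sUnion]
      constructor
      · rintro ⟨s, hs, ht⟩
        have hsM := MM_trans x hx s hs
        exact (h t (MM_trans s hsM t ht)).2 ⟨s, hsM, hs, ht⟩
      · intro ht
        obtain ⟨s, _, hs, hts⟩ := (h t (MM_trans z hz t ht)).1 ht
        exact ⟨s, hs, hts⟩
    rw [this]
    exact hz
  · -- power
    intro x hx
    have hUD : UD CC (k := 1) (fun N _ v => ∃ z ∈ N, ∀ w ∈ N, (w ∈ z ↔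
        ∀ t ∈ N, (t ∈ w → t ∈ v 0))) := by
      refine UD.ex (R := fun N _ z (v : Fin 1 → ZFSet.{0}) => ∀ w ∈ N,
        (w ∈ z ↔ ∀ t ∈ N, (t ∈ w → t ∈ v 0))) ?_
      refine UD.all (R := fun N _ w (v : Fin 2 → ZFSet.{0}) => (w ∈ v 0 ↔
        ∀ t ∈ N, (t ∈ w → t ∈ v 1))) ?_
      refine UD.iff (UD.memv 0 1) ?_
      exact UD.all (R := fun N _ t (v : Fin 3 → ZFSet.{0}) => (t ∈ v 0 → t ∈ v 2))
        (UD.imp (UD.memv 0 1) (UD.memv 0 3))
    obtain ⟨z, hz, h⟩ := transfer hUD ![x] (by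
      intro i
      fin_cases i
      exact hx) (fun v => ⟨ZFSet.powerset (v 0), trivial, fun w _ => by
        rw [ZFSet.mem_powerset]
        exact ⟨fun h t _ ht => h ht, fun h t ht => h t trivial ht⟩⟩)
    refine ⟨z, hz, fun w => ?_⟩
    constructor
    · intro hw
      have hwM := MM_trans z hz w hw
      exact ⟨hwM, fun t ht => (h w hwM).1 hw t (MM_trans w hwM t ht) ht⟩
    · rintro ⟨hwM, hw⟩
      exact (h w hwM).2 (fun t _ ht => hw ht)
  · -- separation
    intro k φ p hp a ha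
    have hUD : UD CC (k := k + 1) (fun N A v => ∃ z ∈ N, ∀ w ∈ N, (w ∈ z ↔
        (w ∈ v 0 ∧ Sat N A φ (Fin.cons w (Fin.tail v))))) := by
      refine UD.ex (R := fun N A z (v : Fin (k + 1) → ZFSet.{0}) => ∀ w ∈ N,
        (w ∈ z ↔ (w ∈ v 0 ∧ Sat N A φ (Fin.cons w (Fin.tail v))))) ?_
      refine UD.all (R := fun N A w (v : Fin (k + 2) → ZFSet.{0}) => (w ∈ v 0 ↔
        (w ∈ v 1 ∧ Sat N A φ (Fin.cons w (Fin.tail (Fin.tail v)))))) ?_
      refine UD.iff (UD.memv 0 1) (UD.and (UD.memv 0 2) ?_)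
      refine ⟨φ.rn (Fin.cons 0 (fun i => i.succ.succ.succ)), fun N A _ v _ => ?_⟩
      rw [sat_rn]
      have : v ∘ (Fin.cons 0 (fun i => i.succ.succ.succ) : Fin (k + 1) → Fin (k + 2 + 1)) =
          Fin.cons (v 0) (Fin.tail (Fin.tail (Fin.tail v))) := by
        funext i
        refine Fin.cases ?_ (fun j => ?_) i
        · rfl
        · rfl
      rw [this]
    obtain ⟨z, hz, h⟩ := transfer hUD (Fin.cons a p) (cons_mem ha hp) (fun v =>
      ⟨(v 0).sep (fun w => Sat Set.univ ∅ φ (Fin.cons w (Fin.tail v))), trivial,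
        fun w _ => ZFSet.mem_sep⟩)
    refine ⟨z, hz, fun w => ?_⟩
    constructor
    · intro hw
      exact (h w (MM_trans z hz w hw)).1 hw
    · intro hw
      exact (h w (MM_trans a ha w hw.1)).2 hw
  · -- replacement
    intro k φ p hp a ha hfun
    have hUD : UD CC (k := k + 1) (fun N A v => (∀ x ∈ N, (x ∈ v 0 → ∃ y ∈ N, (Sat N A φ
        (Fin.cons x (Fin.cons y (Fin.tail v))) ∧ ∀ y' ∈ N, (Sat N A φ
        (Fin.cons x (Fin.cons y' (Fin.tail v))) → y' = y)))) → ∃ z ∈ N, ∀ y ∈ N, (y ∈ z ↔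
        ∃ x ∈ N, (x ∈ v 0 ∧ Sat N A φ (Fin.cons x (Fin.cons y (Fin.tail v)))))) := by
      refine UD.imp ?_ ?_
      · refine UD.all (R := fun N A x (v : Fin (k + 1) → ZFSet.{0}) => (x ∈ v 0 → ∃ y ∈ N,
          (Sat N A φ (Fin.cons x (Fin.cons y (Fin.tail v))) ∧ ∀ y' ∈ N, (Sat N A φ
          (Fin.cons x (Fin.cons y' (Fin.tail v))) → y' = y)))) ?_
        refine UD.imp (UD.memv 0 1) ?_
        refine UD.ex (R := fun N A y (v : Fin (k + 2) → ZFSet.{0}) =>
          (Sat N A φ (Fin.cons (v 0) (Fin.cons y (Fin.tail (Fin.tail v)))) ∧ ∀ y' ∈ N, (Sat N A φ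
          (Fin.cons (v 0) (Fin.cons y' (Fin.tail (Fin.tail v)))) → y' = y))) ?_
        refine UD.and ?_ ?_
        · refine ⟨φ.rn (Fin.cons 1 (Fin.cons 0 (fun i => i.succ.succ.succ))),
            fun N A _ v _ => ?_⟩
          rw [sat_rn]
          have : v ∘ (Fin.cons 1 (Fin.cons 0 (fun i => i.succ.succ.succ)) :
              Fin (k + 2) → Fin (k + 2 + 1)) =
              Fin.cons (v 1) (Fin.cons (v 0) (Fin.tail (Fin.tail (Fin.tail v)))) := by
            funext i
            refine Fin.cases ?_ (fun j => ?_) i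
            · rfl
            · refine Fin.cases ?_ (fun j => ?_) j
              · rfl
              · rfl
          rw [this]
          rfl
        · refine UD.all (R := fun N A y' (v : Fin (k + 3) → ZFSet.{0}) => (Sat N A φ
            (Fin.cons (v 1) (Fin.cons y' (Fin.tail (Fin.tail (Fin.tail v))))) → y' = v 0)) ?_
          refine UD.imp ?_ (UD.eqv 0 1)
          refine ⟨φ.rn (Fin.cons 2 (Fin.cons 0 (fun i => i.succ.succ.succ.succ))),
            fun N A _ v _ => ?_⟩
          rw [sat_rn]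
          have : v ∘ (Fin.cons 2 (Fin.cons 0 (fun i => i.succ.succ.succ.succ)) :
              Fin (k + 2) → Fin (k + 3 + 1)) =
              Fin.cons (v 2) (Fin.cons (v 0) (Fin.tail (Fin.tail (Fin.tail (Fin.tail v))))) := by
            funext i
            refine Fin.cases ?_ (fun j => ?_) i
            · rfl
            · refine Fin.cases ?_ (fun j => ?_) j
              · rfl
              · rfl
          rw [this]
          rfl
      · refine UD.ex (R := fun N A z (v : Fin (k + 1) → ZFSet.{0}) => ∀ y ∈ N, (y ∈ z ↔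
          ∃ x ∈ N, (x ∈ v 0 ∧ Sat N A φ (Fin.cons x (Fin.cons y (Fin.tail v)))))) ?_
        refine UD.all (R := fun N A y (v : Fin (k + 2) → ZFSet.{0}) => (y ∈ v 0 ↔
          ∃ x ∈ N, (x ∈ v 1 ∧ Sat N A φ (Fin.cons x (Fin.cons y (Fin.tail (Fin.tail v))))))) ?_
        refine UD.iff (UD.memv 0 1) ?_
        refine UD.ex (R := fun N A x (v : Fin (k + 3) → ZFSet.{0}) =>
          (x ∈ v 2 ∧ Sat N A φ (Fin.cons x (Fin.cons (v 0) (Fin.tail (Fin.tail
            (Fin.tail v))))))) ?_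
        refine UD.and (UD.memv 0 3) ?_
        refine ⟨φ.rn (Fin.cons 0 (Fin.cons 1 (fun i => i.succ.succ.succ.succ))),
          fun N A _ v _ => ?_⟩
        rw [sat_rn]
        have : v ∘ (Fin.cons 0 (Fin.cons 1 (fun i => i.succ.succ.succ.succ)) :
            Fin (k + 2) → Fin (k + 3 + 1)) =
            Fin.cons (v 0) (Fin.cons (v 1) (Fin.tail (Fin.tail (Fin.tail (Fin.tail v))))) := by
          funext i
          refine Fin.cases ?_ (fun j => ?_) i
          · rfl
          · refine Fin.cases ?_ (fun j => ?_) j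
            · rfl
            · rfl
        rw [this]
        rfl
    have h := transfer hUD (Fin.cons a p) (cons_mem ha hp) (fun v hv => by
      obtain ⟨b, _, hb⟩ := isZF_univ.repl k φ (Fin.tail v) (fun _ => trivial) (v 0) trivial
        (fun x hx => by
          obtain ⟨y, _, h1, h2⟩ := hv x trivial hx
          exact ⟨y, ⟨trivial, h1⟩, fun y' hy' => h2 y' trivial hy'.2⟩)
      refine ⟨b, trivial, fun y _ => ?_⟩
      rw [hb]
      constructor
      · rintro ⟨_, x, hx, h3⟩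
        exact ⟨x, trivial, hx, h3⟩
      · rintro ⟨x, _, hx, h3⟩
        exact ⟨trivial, x, hx, h3⟩)
    obtain ⟨z, hz, h⟩ := h (by
      intro x hxM hx
      obtain ⟨y, ⟨hyM, hy⟩, hu⟩ := hfun x hx
      exact ⟨y, hyM, hy, fun y' hy'M hy' => hu y' ⟨hy'M, hy'⟩⟩)
    refine ⟨z, hz, fun y => ?_⟩
    constructor
    · intro hy
      have hyM := MM_trans z hz y hy
      obtain ⟨x, _, hx, h3⟩ := (h y hyM).1 hy
      exact ⟨hyM, x, hx, h3⟩
    · rintro ⟨hyM, x, hx, h3⟩
      exact (h y hyM).2 ⟨x, MM_trans a ha x hx, hx, h3⟩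

end Pool.Agent.Helper66.SC.C1c
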