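import Pool.Agent.Helper66.SC.Defs

universe u

namespace Pool.Agent.Helper66.SC

open ZFSet

/-- Replace the predicate by a formula with parameters; `iv` embeds the variables and `ip`
the parameters. -/
def plug {l : ℕ} (ψ : Fml (l + 1)) : {k m : ℕ} → (Fin k → Fin m) → (Fin l → Fin m) → Fml k →
    Fml m
  | _, _, iv, _, .mem i j => .mem (iv i) (iv j)
  | _, _, iv, _, .eq i j => .eq (iv i) (iv j)
  | _, _, iv, ip, .pr i => ψ.rn (Fin.cons (iv i) ip)
  | _, _, iv, ip, .neg φ => .neg (plug ψ iv ip φ)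
  | _, _, iv, ip, .and φ χ => .and (plug ψ iv ip φ) (plug ψ iv ip χ)
  | _, _, iv, ip, .ex φ => .ex (plug ψ (liftR iv) (fun j => (ip j).succ) φ)

theorem sat_plug {M A : Set ZFSet.{u}} {l : ℕ} (ψ : Fml (l + 1)) (p : Fin l → ZFSet.{u})
    (hψ : ∀ x ∈ M, (x ∈ A ↔ Sat M ∅ ψ (Fin.cons x p))) {k : ℕ} (φ : Fml k) {m : ℕ}
    (iv : Fin k → Fin m) (ip : Fin l → Fin m)
    (w : Fin m → ZFSet.{u}) (hw : ∀ i, w i ∈ M) (hp : w ∘ ip = p) :
    Sat M ∅ (plug ψ iv ip φ) w ↔ Sat M A φ (w ∘ iv) := by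
  induction φ generalizing m with
  | mem i j => exact Iff.rfl
  | eq i j => exact Iff.rfl
  | @pr k i =>
    simp only [plug, Sat, sat_rn]
    rw [hψ ((w ∘ iv) i) (hw _)]
    have : (w ∘ (Fin.cons (iv i) ip : Fin (l + 1) → Fin m)) = (Fin.cons ((w ∘ iv) i) p :
        Fin (l + 1) → ZFSet.{u}) := by
      funext j
      refine Fin.cases ?_ (fun j => ?_) j
      · rfl
      · exact congrFun hp j
    rw [this]
  | neg φ ih => exact not_congr (ih iv ip w hw hp)
  | and φ χ ih1 ih2 => exact and_congr (ih1 iv ip w hw hp) (ih2 iv ip w hw hp)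
  | @ex k φ ih =>
    simp only [plug, Sat]
    refine exists_congr fun x => and_congr_right fun hx => ?_
    rw [ih (liftR iv) (fun j => (ip j).succ) (Fin.cons x w) (cons_mem hx hw) hp,
      cons_comp_liftR]

theorem append_mem {M : Set ZFSet.{u}} {k l : ℕ} {q : Fin k → ZFSet.{u}}
    {p : Fin l → ZFSet.{u}} (hq : ∀ i, q i ∈ M) (hp : ∀ i, p i ∈ M) :
    ∀ i, Fin.append q p i ∈ M := by
  intro i
  refine Fin.addCases (fun i => ?_) (fun i => ?_) i
  · simpa using hq i
  · simpa using hp i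

theorem st_F3 : ST_F3.{u} := by
  intro M A l ψ p hM hp hψ
  refine ⟨hM.trans, hM.omega, hM.pair, hM.sUnion, hM.power, ?_, ?_⟩
  · intro k φ q hq a ha
    obtain ⟨b, hb, h1⟩ := hM.sep (k + l) (plug ψ (liftR (Fin.castAdd l))
      (fun j => (Fin.natAdd k j).succ) φ) (Fin.append q p) (append_mem hq hp) a ha
    refine ⟨b, hb, fun x => ?_⟩
    rw [h1]
    refine and_congr_right fun hx => ?_
    have hxM := hM.trans _ ha x hx
    rw [sat_plug ψ p hψ φ _ _ (Fin.cons x (Fin.append q p))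
      (cons_mem hxM (append_mem hq hp)) (by funext j; simp), cons_comp_liftR]
    have : Fin.append q p ∘ Fin.castAdd l = q := by funext j; simp
    rw [this]
  · intro k φ q hq a ha hfun
    have key : ∀ x ∈ a, ∀ y ∈ M, (Sat M ∅ (plug ψ (liftR (liftR (Fin.castAdd l)))
        (fun j => (Fin.natAdd k j).succ.succ) φ)
        (Fin.cons x (Fin.cons y (Fin.append q p))) ↔
        Sat M A φ (Fin.cons x (Fin.cons y q))) := by
      intro x hx y hy
      have hxM := hM.trans _ ha x hx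
      rw [sat_plug ψ p hψ φ _ _ (Fin.cons x (Fin.cons y (Fin.append q p)))
        (cons_mem hxM (cons_mem hy (append_mem hq hp))) (by funext j; simp),
        cons_comp_liftR, cons_comp_liftR]
      have : Fin.append q p ∘ Fin.castAdd l = q := by funext j; simp
      rw [this]
    obtain ⟨b, hb, h1⟩ := hM.repl (k + l) (plug ψ (liftR (liftR (Fin.castAdd l)))
      (fun j => (Fin.natAdd k j).succ.succ) φ) (Fin.append q p) (append_mem hq hp) a ha (by
        intro x hx
        obtain ⟨y, ⟨hy, hy1⟩, hy2⟩ := hfun x hx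
        refine ⟨y, ⟨hy, (key x hx y hy).2 hy1⟩, ?_⟩
        rintro z ⟨hz, hz1⟩
        exact hy2 z ⟨hz, (key x hx z hz).1 hz1⟩)
    refine ⟨b, hb, fun y => ?_⟩
    rw [h1]
    refine and_congr_right fun hy => exists_congr fun x => and_congr_right fun hx => ?_
    exact key x hx y hy

end Pool.Agent.Helper66.SC
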