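import Pool.Agent.Helper74.SC.H1
import Pool.Agent.Helper66.SC.Defs2

universe u

namespace Pool.Agent.Helper66.SC

open ZFSet
open Pool.Agent.Helper22.SC (U ZCls Ctx in_prod in_zfset In nat mem_nat nat_mem_nat nat_mem_omega
  mem_omega nat_inj)
open Pool.Agent.Helper74.SC.H1 (CC mem_two mem_Coh Coh_mem union_mem single_mem mem_real not_both
  zero_ne_one nat_mem_M)

theorem st_H1b : ST_H1b.{u} := by
  intro M A hM G hG n
  have h : U CC (fun _ _ (a : ZFSet.{u} × ZFSet.{u}) => ZFSet.sep (fun p =>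
      ∃ m ∈ ZFSet.omega, a.2 ∈ m ∧ pair m ∅ ∈ p) a.1) := by
    apply_rules (transparency := .reducible) (maxDepth := 400) using is_poly
  have hCoh : Coh M ∈ M := Coh_mem hM
  have hD := in_zfset.1 (h.closed hM (a := (Coh M, nat n)) (by simp [hCoh, nat_mem_M hM n]))
  obtain ⟨p, hp, hpD⟩ := hG.meets _ hD (fun x hx => (mem_sep.1 hx).1) (by
    intro p hp
    obtain ⟨_, _, _, k, hk⟩ := (mem_Coh hM).1 hp
    refine ⟨p ∪ {pair (nat (max k (n + 1))) ∅}, ?_, fun x hx => mem_union.2 (Or.inl hx)⟩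
    rw [mem_sep]
    refine ⟨?_, nat (max k (n + 1)), nat_mem_omega _, nat_mem_nat.2 ?_, by simp⟩
    · refine union_mem hM hp (single_mem hM (mem_two.2 (Or.inl rfl))) ?_
      intro x y z h1 h2
      rw [mem_singleton] at h2
      have h3 := hk x y h1
      rw [(pair_inj.1 h2).1] at h3
      exact absurd (nat_mem_nat.1 h3) (not_lt.2 (le_max_left _ _))
    · exact lt_of_lt_of_le (Nat.lt_succ_self n) (le_max_right _ _))
  rw [mem_sep] at hpD
  obtain ⟨_, m, hm, h1, h2⟩ := hpD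
  obtain ⟨m, rfl⟩ := mem_omega.1 hm
  refine ⟨m, nat_mem_nat.1 h1, ?_⟩
  intro h3
  obtain ⟨_, q, hq, h4⟩ := mem_real.1 h3
  exact zero_ne_one (not_both hM hG hp hq h2 h4)

end Pool.Agent.Helper66.SC
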