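import Pool.Agent.Helper66.SC.Final2
import Pool.Agent.Helper66.SC.FB5
import Pool.Agent.Helper66.SC.FB2a
import Pool.Agent.Helper66.SC.FB3
import Pool.Agent.Helper66.SC.F3
import Pool.Agent.Helper66.SC.H1b
import Pool.Agent.Helper61.SC.G5b
import Pool.Agent.Helper61.SC.G6
import Pool.Agent.Helper22.SC.E1
import Pool.Agent.Helper22.SC.K14
import Pool.Agent.Helper22.SC.LvU
import Pool.Agent.Helper25.SC.D0
import Pool.Agent.Helper25.SC.FB0
import Pool.Agent.Helper25.SC.FB4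
import Pool.Agent.Helper27.SC.FB1
import Pool.Agent.Helper66.SC.C1
import Pool.Agent.Helper37.SC.H2Final
import Pool.Agent.Helper44.SC.G5a
import Pool.Agent.Helper50.SC.H4
import Pool.Agent.Helper70.SC.F1
import Pool.Agent.Helper74.SC.H1
import Pool.Agent.Helper76.SC.G0
import Pool.Agent.Helper78.SC.G3
import Pool.Agent.Helper81.SC.H3
import Pool.Agent.Helper83.SC.F2
import Pool.Agent.Helper87.SC.D3
import Pool.Agent.Helper91.SC.FB2
import Pool.Agent.Helper91.SC.G1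
import Pool.Agent.Helper96.SC.G2
import Pool.Agent.Helper99.SC.D1
import Pool.Agent.Helper99.SC.D2

namespace Pool.Agent.Helper66.SC

theorem all_FB1 : ST_FB1.{0} := Pool.Agent.Helper27.SC.st_FB1

theorem all_FB2 : ST_FB2.{0} := Pool.Agent.Helper91.SC.st_FB2 st_FB3 st_FB2a

theorem all_FB4 : ST_FB4.{0} := Pool.Agent.Helper25.SC.st_FB4 all_FB1 all_FB2 st_FB3

theorem all_F1 : ST_F1.{0} := Pool.Agent.Helper70.SC.st_F1 Pool.Agent.Helper25.SC.st_FB0 all_FB1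
  Pool.Agent.Helper27.SC.st_FB1e all_FB2 st_FB3 all_FB4

theorem all_H2 : ST_H2.{0} := Pool.Agent.Helper37.SC.st_H2

theorem all_G3 : ST_G3.{0} := Pool.Agent.Helper78.SC.st_G3
  (Pool.Agent.Helper96.SC.st_G2 all_FB2 st_FB3) Pool.Agent.Helper22.SC.st_K1
  Pool.Agent.Helper22.SC.st_K2 all_FB4 all_FB1

theorem all_H3 : ST_H3.{0} := Pool.Agent.Helper81.SC.st_H3 all_FB1 all_FB4
  Pool.Agent.Helper22.SC.st_K1 Pool.Agent.Helper22.SC.st_K2 all_H2

theorem all_H4 : ST_H4.{0} := Pool.Agent.Helper50.SC.st_H4 Pool.Agent.Helper22.SC.st_K1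
  Pool.Agent.Helper22.SC.st_K2 Pool.Agent.Helper22.SC.st_K4 all_H2

theorem goal2_of' (hG5 : ST_G5.{0}) (hG6 : ST_G6.{0}) (hH1b : ST_H1b.{0}) : Goal2 :=
  goal2_of C1c.st_C1 Pool.Agent.Helper25.SC.st_D0
    Pool.Agent.Helper99.SC.st_D1 Pool.Agent.Helper99.SC.st_D2 Pool.Agent.Helper87.SC.st_D3
    Pool.Agent.Helper25.SC.st_FB0 all_FB1 Pool.Agent.Helper27.SC.st_FB1e all_FB4
    (fb5_of all_FB1 all_FB4) st_AC2 all_F1 st_F3 Pool.Agent.Helper22.SC.st_E1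
    Pool.Agent.Helper76.SC.st_G0 Pool.Agent.Helper91.SC.st_G1 all_G3
    (Pool.Agent.Helper78.SC.st_G4 Pool.Agent.Helper22.SC.st_K1) hG5
    (Pool.Agent.Helper74.SC.H1.st_H1 Pool.Agent.Helper83.SC.st_F2) all_H2 all_H3 all_H4 hG6 hH1b

theorem goal2 : Goal2 := goal2_of'
  (Pool.Agent.Helper61.SC.st_G5 Pool.Agent.Helper22.SC.st_K1 Pool.Agent.Helper22.SC.st_K2
    Pool.Agent.Helper22.SC.st_K3 Pool.Agent.Helper22.SC.st_K4 Pool.Agent.Helper44.SC.st_G5a)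
  (Pool.Agent.Helper61.SC.st_G6 Pool.Agent.Helper22.SC.st_K1 Pool.Agent.Helper22.SC.st_K2
    Pool.Agent.Helper22.SC.st_K3 Pool.Agent.Helper22.SC.st_K4 Pool.Agent.Helper44.SC.st_G5a)
  st_H1b

end Pool.Agent.Helper66.SC
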