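import Pool.Agent.Helper66.SC.Base

universe u

namespace Pool.Agent.Helper66.SC

/-! Renaming of variables. -/

def liftR {k l : ℕ} (σ : Fin k → Fin l) : Fin (k + 1) → Fin (l + 1) :=
  Fin.cons 0 (fun i => (σ i).succ)

def Fml.rn : {k l : ℕ} → (Fin k → Fin l) → Fml k → Fml l
  | _, _, σ, .mem i j => .mem (σ i) (σ j)
  | _, _, σ, .eq i j => .eq (σ i) (σ j)
  | _, _, σ, .pr i => .pr (σ i)
  | _, _, σ, .neg φ => .neg (φ.rn σ)
  | _, _, σ, .and φ ψ => .and (φ.rn σ) (ψ.rn σ)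
  | _, _, σ, .ex φ => .ex (φ.rn (liftR σ))

theorem cons_comp_liftR {k l : ℕ} (σ : Fin k → Fin l) (x : ZFSet.{u}) (v : Fin l → ZFSet.{u}) :
    (Fin.cons x v : Fin (l + 1) → ZFSet.{u}) ∘ liftR σ
      = (Fin.cons x (v ∘ σ) : Fin (k + 1) → ZFSet.{u}) := by
  funext i
  refine Fin.cases ?_ (fun j => ?_) i
  · rfl
  · rfl

theorem sat_rn {M A : Set ZFSet.{u}} {k l : ℕ} (σ : Fin k → Fin l) (φ : Fml k)
    (v : Fin l → ZFSet.{u}) : Sat M A (φ.rn σ) v ↔ Sat M A φ (v ∘ σ) := by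
  induction φ generalizing l with
  | mem i j => rfl
  | eq i j => rfl
  | pr i => rfl
  | neg φ ih => simp only [Fml.rn, Sat, ih]
  | and φ ψ ih1 ih2 => simp only [Fml.rn, Sat, ih1, ih2]
  | ex φ ih =>
    simp only [Fml.rn, Sat]
    refine exists_congr fun x => and_congr_right fun _ => ?_
    rw [ih, cons_comp_liftR]

/-! Iterated existential quantifiers and finite conjunctions. -/

def exN : {k : ℕ} → (l : ℕ) → Fml (k + l) → Fml k
  | _, 0, φ => φ
  | _, l + 1, φ => exN l (.ex φ)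

def push : {k : ℕ} → (l : ℕ) → (Fin l → ZFSet.{u}) → (Fin k → ZFSet.{u}) →
    (Fin (k + l) → ZFSet.{u})
  | _, 0, _, v => v
  | _, l + 1, w, v => Fin.cons (w (Fin.last l)) (push l (fun i => w i.castSucc) v)

def iv : {k : ℕ} → (l : ℕ) → Fin k → Fin (k + l)
  | _, 0, j => j
  | _, l + 1, j => (iv l j).succ

def iw (k : ℕ) : (l : ℕ) → Fin l → Fin (k + l)
  | 0, i => i.elim0
  | l + 1, i => Fin.lastCases (motive := fun _ => Fin (k + l + 1)) 0 (fun j => (iw k l j).succ) i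

theorem push_iv {k : ℕ} (l : ℕ) (w : Fin l → ZFSet.{u}) (v : Fin k → ZFSet.{u}) (j : Fin k) :
    push l w v (iv l j) = v j := by
  induction l with
  | zero => rfl
  | succ l ih => simp only [push, iv, Fin.cons_succ, ih]

theorem push_iw {k : ℕ} (l : ℕ) (w : Fin l → ZFSet.{u}) (v : Fin k → ZFSet.{u}) (i : Fin l) :
    push l w v (iw k l i) = w i := by
  induction l with
  | zero => exact i.elim0
  | succ l ih =>
    refine Fin.lastCases ?_ (fun j => ?_) i
    · simp only [iw, push, Fin.lastCases_last, Fin.cons_zero]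
    · simp only [iw, push, Fin.lastCases_castSucc, Fin.cons_succ, ih]

theorem push_mem {k : ℕ} (l : ℕ) (w : Fin l → ZFSet.{u}) (v : Fin k → ZFSet.{u})
    {M : Set ZFSet.{u}} (hw : ∀ i, w i ∈ M) (hv : ∀ i, v i ∈ M) : ∀ i, push l w v i ∈ M := by
  induction l with
  | zero => exact hv
  | succ l ih =>
    intro i
    refine Fin.cases ?_ (fun j => ?_) i
    · exact hw _
    · exact ih _ (fun i => hw _) j

theorem sat_exN {M A : Set ZFSet.{u}} {k : ℕ} (l : ℕ) (φ : Fml (k + l))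
    (v : Fin k → ZFSet.{u}) : Sat M A (exN l φ) v ↔
      ∃ w : Fin l → ZFSet.{u}, (∀ i, w i ∈ M) ∧ Sat M A φ (push l w v) := by
  induction l with
  | zero =>
    constructor
    · intro h
      exact ⟨fun i => i.elim0, fun i => i.elim0, h⟩
    · rintro ⟨w, _, h⟩
      exact h
  | succ l ih =>
    simp only [exN]
    rw [ih]
    simp only [Sat, push]
    constructor
    · rintro ⟨w, hw, x, hx, h⟩
      refine ⟨Fin.snoc w x, ?_, ?_⟩
      · intro i
        refine Fin.lastCases ?_ (fun j => ?_) i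
        · simpa using hx
        · simpa using hw j
      · simpa using h
    · rintro ⟨w, hw, h⟩
      exact ⟨fun i => w i.castSucc, fun i => hw _, w (Fin.last l), hw _, h⟩

def conjN {n : ℕ} : (l : ℕ) → (Fin l → Fml n) → Fml n → Fml n
  | 0, _, ψ => ψ
  | l + 1, f, ψ => .and (f (Fin.last l)) (conjN l (fun i => f i.castSucc) ψ)

theorem sat_conjN {M A : Set ZFSet.{u}} {n : ℕ} (l : ℕ) (f : Fin l → Fml n) (ψ : Fml n)
    (v : Fin n → ZFSet.{u}) :
    Sat M A (conjN l f ψ) v ↔ (∀ i, Sat M A (f i) v) ∧ Sat M A ψ v := by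
  induction l with
  | zero => exact ⟨fun h => ⟨fun i => i.elim0, h⟩, fun h => h.2⟩
  | succ l ih =>
    simp only [conjN, Sat, ih]
    constructor
    · rintro ⟨h1, h2, h3⟩
      refine ⟨fun i => ?_, h3⟩
      refine Fin.lastCases ?_ (fun j => ?_) i
      · exact h1
      · exact h2 j
    · rintro ⟨h1, h2⟩
      exact ⟨h1 _, fun i => h1 _, h2⟩

/-! Uniformly definable relations and functions. -/

/-- A class of structures `(M, A)`. -/
abbrev Cls := Set ZFSet.{u} → Set ZFSet.{u} → Prop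

/-- A relation, uniformly given for each structure. -/
abbrev URelF (k : ℕ) := Set ZFSet.{u} → Set ZFSet.{u} → (Fin k → ZFSet.{u}) → Prop

/-- A function, uniformly given for each structure. -/
abbrev UFunF (k : ℕ) := Set ZFSet.{u} → Set ZFSet.{u} → (Fin k → ZFSet.{u}) → ZFSet.{u}

/-- `R` is defined by one formula in all structures of the class `C`. -/
def UD (C : Cls.{u}) {k : ℕ} (R : URelF.{u} k) : Prop :=
  ∃ φ : Fml k, ∀ M A, C M A → ∀ v : Fin k → ZFSet.{u}, (∀ i, v i ∈ M) →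
    (Sat M A φ v ↔ R M A v)

/-- `F` maps tuples of `M` into `M` and its graph is defined by one formula in all structures
of the class `C`. -/
structure UF (C : Cls.{u}) {k : ℕ} (F : UFunF.{u} k) : Prop where
  mem : ∀ M A, C M A → ∀ v : Fin k → ZFSet.{u}, (∀ i, v i ∈ M) → F M A v ∈ M
  ud : UD C (k := k + 1) (fun M A v => v 0 = F M A (Fin.tail v))

variable {C : Cls.{u}} {k : ℕ}

theorem cons_mem {M : Set ZFSet.{u}} {x : ZFSet.{u}} {v : Fin k → ZFSet.{u}} (hx : x ∈ M)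
    (hv : ∀ i, v i ∈ M) : ∀ i, (Fin.cons x v : Fin (k + 1) → ZFSet.{u}) i ∈ M := by
  intro i
  refine Fin.cases ?_ (fun j => ?_) i
  · exact hx
  · exact hv j

theorem tail_mem {M : Set ZFSet.{u}} {v : Fin (k + 1) → ZFSet.{u}}
    (hv : ∀ i, v i ∈ M) : ∀ i, (Fin.tail v : Fin k → ZFSet.{u}) i ∈ M := fun i => hv i.succ

theorem UD.congr {R R' : URelF.{u} k} (h : UD C R)
    (hh : ∀ M A, C M A → ∀ v : Fin k → ZFSet.{u}, (∀ i, v i ∈ M) → (R M A v ↔ R' M A v)) :
    UD C R' := by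
  obtain ⟨φ, hφ⟩ := h
  exact ⟨φ, fun M A hC v hv => (hφ M A hC v hv).trans (hh M A hC v hv)⟩

theorem UD.mono {C' : Cls.{u}} {R : URelF.{u} k} (h : UD C R) (hC : ∀ M A, C' M A → C M A) :
    UD C' R := by
  obtain ⟨φ, hφ⟩ := h
  exact ⟨φ, fun M A hC' v hv => hφ M A (hC M A hC') v hv⟩

theorem UF.mono {C' : Cls.{u}} {F : UFunF.{u} k} (h : UF C F) (hC : ∀ M A, C' M A → C M A) :
    UF C' F := ⟨fun M A h' v hv => h.mem M A (hC M A h') v hv, h.ud.mono hC⟩

theorem UD.memv (i j : Fin k) : UD C (fun _ _ v => v i ∈ v j) :=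
  ⟨.mem i j, fun _ _ _ _ _ => Iff.rfl⟩

theorem UD.eqv (i j : Fin k) : UD C (fun _ _ v => v i = v j) :=
  ⟨.eq i j, fun _ _ _ _ _ => Iff.rfl⟩

theorem UD.prv (i : Fin k) : UD C (fun _ A v => v i ∈ A) :=
  ⟨.pr i, fun _ _ _ _ _ => Iff.rfl⟩

theorem UD.not {R : URelF.{u} k} (h : UD C R) : UD C (fun M A v => ¬ R M A v) := by
  obtain ⟨φ, hφ⟩ := h
  exact ⟨.neg φ, fun M A hC v hv => not_congr (hφ M A hC v hv)⟩

theorem UD.and {R S : URelF.{u} k} (h : UD C R) (h' : UD C S) :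
    UD C (fun M A v => R M A v ∧ S M A v) := by
  obtain ⟨φ, hφ⟩ := h
  obtain ⟨ψ, hψ⟩ := h'
  exact ⟨.and φ ψ, fun M A hC v hv => and_congr (hφ M A hC v hv) (hψ M A hC v hv)⟩

theorem UD.or {R S : URelF.{u} k} (h : UD C R) (h' : UD C S) :
    UD C (fun M A v => R M A v ∨ S M A v) :=
  (h.not.and h'.not).not.congr fun M A _ v _ => by tauto

theorem UD.imp {R S : URelF.{u} k} (h : UD C R) (h' : UD C S) :
    UD C (fun M A v => R M A v → S M A v) :=
  (h.and h'.not).not.congr fun M A _ v _ => by tauto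

theorem UD.iff {R S : URelF.{u} k} (h : UD C R) (h' : UD C S) :
    UD C (fun M A v => (R M A v ↔ S M A v)) :=
  ((h.imp h').and (h'.imp h)).congr fun M A _ v _ => by tauto

theorem UD.true : UD C (k := k + 1) (fun _ _ _ => True) :=
  ((UD.eqv (C := C) (0 : Fin (k + 1)) 0)).congr fun M A _ v _ => by tauto

/-- Existential quantification over the universe. -/
theorem UD.ex {R : Set ZFSet.{u} → Set ZFSet.{u} → ZFSet.{u} → (Fin k → ZFSet.{u}) → Prop}
    (h : UD C (k := k + 1) (fun M A w => R M A (w 0) (Fin.tail w))) :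
    UD C (fun M A v => ∃ x ∈ M, R M A x v) := by
  obtain ⟨φ, hφ⟩ := h
  refine ⟨.ex φ, fun M A hC v hv => exists_congr fun x => and_congr_right fun hx => ?_⟩
  exact hφ M A hC (Fin.cons x v) (cons_mem hx hv)

theorem UD.all {R : Set ZFSet.{u} → Set ZFSet.{u} → ZFSet.{u} → (Fin k → ZFSet.{u}) → Prop}
    (h : UD C (k := k + 1) (fun M A w => R M A (w 0) (Fin.tail w))) :
    UD C (fun M A v => ∀ x ∈ M, R M A x v) :=
  (UD.ex (R := fun M A x v => ¬ R M A x v) h.not).not.congr fun M A _ v _ => by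
    push Not; rfl

/-- Renaming. -/
theorem UD.rn {l : ℕ} {R : URelF.{u} k} (h : UD C R) (σ : Fin k → Fin l) :
    UD C (fun M A v => R M A (v ∘ σ)) := by
  obtain ⟨φ, hφ⟩ := h
  exact ⟨φ.rn σ, fun M A hC v hv => (sat_rn σ φ v).trans (hφ M A hC _ fun i => hv _)⟩

theorem UD.wk {R : URelF.{u} k} (h : UD C R) :
    UD C (k := k + 1) (fun M A v => R M A (Fin.tail v)) := h.rn Fin.succ

theorem UF.rn {l : ℕ} {F : UFunF.{u} k} (h : UF C F) (σ : Fin k → Fin l) :
    UF C (fun M A v => F M A (v ∘ σ)) := by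
  refine ⟨fun M A hC v hv => h.mem M A hC _ fun i => hv _, ?_⟩
  refine (h.ud.rn (liftR σ)).congr fun M A hC v hv => ?_
  rfl

theorem UF.wk {F : UFunF.{u} k} (h : UF C F) :
    UF C (k := k + 1) (fun M A v => F M A (Fin.tail v)) := h.rn Fin.succ

theorem UF.var (i : Fin k) : UF C (fun _ _ v => v i) :=
  ⟨fun _ _ _ v hv => hv i, (UD.eqv 0 i.succ)⟩

theorem UF.congr {F G : UFunF.{u} k} (h : UF C F)
    (hh : ∀ M A, C M A → ∀ v : Fin k → ZFSet.{u}, (∀ i, v i ∈ M) → F M A v = G M A v) :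
    UF C G :=
  ⟨fun M A hC v hv => hh M A hC v hv ▸ h.mem M A hC v hv, h.ud.congr fun M A hC v hv => by
    rw [hh M A hC _ (tail_mem hv)]⟩

/-- Substitution of definable functions into a definable relation. -/
theorem UD.subst {l : ℕ} {R : URelF.{u} l} (h : UD C R) {F : Fin l → UFunF.{u} k}
    (hF : ∀ i, UF C (F i)) : UD C (fun M A v => R M A (fun i => F i M A v)) := by
  obtain ⟨φ, hφ⟩ := h
  choose ψ hψ using fun i => (hF i).ud
  refine ⟨exN l (conjN l (fun i => (ψ i).rn (Fin.cons (iw k l i) (iv l)))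
    (φ.rn (iw k l))), fun M A hC v hv => ?_⟩
  rw [sat_exN]
  have key : ∀ w : Fin l → ZFSet.{u}, (∀ i, w i ∈ M) →
      ((∀ i, Sat M A ((ψ i).rn (Fin.cons (iw k l i) (iv l))) (push l w v)) ↔
        w = fun i => F i M A v) := by
    intro w hw
    rw [funext_iff]
    refine forall_congr' fun i => ?_
    rw [sat_rn]
    have e : push l w v ∘ (Fin.cons (iw k l i) (iv l) : Fin (k + 1) → Fin (k + l))
        = (Fin.cons (w i) v : Fin (k + 1) → ZFSet.{u}) := by
      funext j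
      refine Fin.cases ?_ (fun j => ?_) j
      · exact push_iw l w v i
      · exact push_iv l w v j
    rw [e]
    exact hψ i M A hC (Fin.cons (w i) v) (cons_mem (hw i) hv)
  constructor
  · rintro ⟨w, hw, h⟩
    rw [sat_conjN] at h
    obtain ⟨h1, h2⟩ := h
    have hw' := (key w hw).1 h1
    rw [sat_rn] at h2
    have e2 : push l w v ∘ iw k l = w := funext fun i => push_iw l w v i
    rw [e2] at h2
    have := (hφ M A hC w hw).1 h2
    rw [hw'] at this
    exact this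
  · intro h
    have hw : ∀ i, F i M A v ∈ M := fun i => (hF i).mem M A hC v hv
    refine ⟨fun i => F i M A v, hw, ?_⟩
    rw [sat_conjN]
    refine ⟨(key _ hw).2 rfl, ?_⟩
    rw [sat_rn]
    have e2 : push l (fun i => F i M A v) v ∘ iw k l = fun i => F i M A v :=
      funext fun i => push_iw l _ v i
    rw [e2]
    exact (hφ M A hC _ hw).2 h

theorem UF.comp {l : ℕ} {G : UFunF.{u} l} (h : UF C G) {F : Fin l → UFunF.{u} k}
    (hF : ∀ i, UF C (F i)) : UF C (fun M A v => G M A (fun i => F i M A v)) := by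
  refine ⟨fun M A hC v hv => h.mem M A hC _ fun i => (hF i).mem M A hC v hv, ?_⟩
  have := h.ud.subst (F := (Fin.cons (fun _ _ v => v 0) (fun i M A v => F i M A (Fin.tail v)) :
    Fin (l + 1) → UFunF.{u} (k + 1))) (fun i => by
      refine Fin.cases ?_ (fun j => ?_) i
      · exact UF.var 0
      · exact (hF j).wk)
  exact this.congr fun M A hC v hv => Iff.rfl

/-- Versions for functions and relations of few arguments. -/
def UD1 (C : Cls.{u}) (R : Set ZFSet.{u} → Set ZFSet.{u} → ZFSet.{u} → Prop) : Prop :=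
  UD C (k := 1) (fun M A v => R M A (v 0))

def UD2 (C : Cls.{u}) (R : Set ZFSet.{u} → Set ZFSet.{u} → ZFSet.{u} → ZFSet.{u} → Prop) :
    Prop :=
  UD C (k := 2) (fun M A v => R M A (v 0) (v 1))

def UD3 (C : Cls.{u})
    (R : Set ZFSet.{u} → Set ZFSet.{u} → ZFSet.{u} → ZFSet.{u} → ZFSet.{u} → Prop) : Prop :=
  UD C (k := 3) (fun M A v => R M A (v 0) (v 1) (v 2))

def UF1 (C : Cls.{u}) (F : Set ZFSet.{u} → Set ZFSet.{u} → ZFSet.{u} → ZFSet.{u}) : Prop :=
  UF C (k := 1) (fun M A v => F M A (v 0))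

def UF2 (C : Cls.{u})
    (F : Set ZFSet.{u} → Set ZFSet.{u} → ZFSet.{u} → ZFSet.{u} → ZFSet.{u}) : Prop :=
  UF C (k := 2) (fun M A v => F M A (v 0) (v 1))

def UF3 (C : Cls.{u})
    (F : Set ZFSet.{u} → Set ZFSet.{u} → ZFSet.{u} → ZFSet.{u} → ZFSet.{u} → ZFSet.{u}) : Prop :=
  UF C (k := 3) (fun M A v => F M A (v 0) (v 1) (v 2))

theorem UD1.app {R} (h : UD1 C R) {F : UFunF.{u} k} (hF : UF C F) :
    UD C (fun M A v => R M A (F M A v)) :=
  UD.subst (R := fun M A v => R M A (v 0)) h (F := fun _ => F) (fun _ => hF)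

theorem UF1.app {G} (h : UF1 C G) {F : UFunF.{u} k} (hF : UF C F) :
    UF C (fun M A v => G M A (F M A v)) :=
  UF.comp (G := fun M A v => G M A (v 0)) h (F := fun _ => F) (fun _ => hF)

theorem UD2.app {R} (h : UD2 C R) {F G : UFunF.{u} k} (hF : UF C F) (hG : UF C G) :
    UD C (fun M A v => R M A (F M A v) (G M A v)) :=
  UD.subst (R := fun M A v => R M A (v 0) (v 1)) h (F := ![F, G]) (fun i => by
    fin_cases i
    · exact hF
    · exact hG)

theorem UF2.app {H} (h : UF2 C H) {F G : UFunF.{u} k} (hF : UF C F) (hG : UF C G) :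
    UF C (fun M A v => H M A (F M A v) (G M A v)) :=
  UF.comp (G := fun M A v => H M A (v 0) (v 1)) h (F := ![F, G]) (fun i => by
    fin_cases i
    · exact hF
    · exact hG)

theorem UD3.app {R} (h : UD3 C R) {F G H : UFunF.{u} k} (hF : UF C F) (hG : UF C G)
    (hH : UF C H) : UD C (fun M A v => R M A (F M A v) (G M A v) (H M A v)) :=
  UD.subst (R := fun M A v => R M A (v 0) (v 1) (v 2)) h (F := ![F, G, H]) (fun i => by
    fin_cases i
    · exact hF
    · exact hG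
    · exact hH)

theorem UF3.app {K} (h : UF3 C K) {F G H : UFunF.{u} k} (hF : UF C F) (hG : UF C G)
    (hH : UF C H) : UF C (fun M A v => K M A (F M A v) (G M A v) (H M A v)) :=
  UF.comp (G := fun M A v => K M A (v 0) (v 1) (v 2)) h (F := ![F, G, H]) (fun i => by
    fin_cases i
    · exact hF
    · exact hG
    · exact hH)

theorem UD.memF {F G : UFunF.{u} k} (hF : UF C F) (hG : UF C G) :
    UD C (fun M A v => F M A v ∈ G M A v) :=
  UD2.app (R := fun _ _ x y => x ∈ y) (UD.memv 0 1) hF hG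

theorem UD.eqF {F G : UFunF.{u} k} (hF : UF C F) (hG : UF C G) :
    UD C (fun M A v => F M A v = G M A v) :=
  UD2.app (R := fun _ _ x y => x = y) (UD.eqv 0 1) hF hG

theorem UD.prF {F : UFunF.{u} k} (hF : UF C F) : UD C (fun M A v => F M A v ∈ A) :=
  UD1.app (R := fun _ A x => x ∈ A) (UD.prv 0) hF

/-- The classes of structures we use. -/
def IsT (C : Cls.{u}) : Prop := ∀ M A, C M A → ∀ x ∈ M, ∀ y ∈ x, y ∈ M

/-- Bounded quantifiers, for classes of transitive structures. -/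
theorem UD.bex (hC : IsT C) {F : UFunF.{u} k} (hF : UF C F)
    {R : Set ZFSet.{u} → Set ZFSet.{u} → ZFSet.{u} → (Fin k → ZFSet.{u}) → Prop}
    (h : UD C (k := k + 1) (fun M A w => R M A (w 0) (Fin.tail w))) :
    UD C (fun M A v => ∃ x ∈ F M A v, R M A x v) := by
  have h1 : UD C (k := k + 1) (fun M A w => w 0 ∈ F M A (Fin.tail w) ∧
      R M A (w 0) (Fin.tail w)) := (UD.memF (UF.var 0) hF.wk).and h
  refine (UD.ex (R := fun M A x v => x ∈ F M A v ∧ R M A x v) h1).congr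
    fun M A hM v hv => ?_
  constructor
  · rintro ⟨x, _, h2, h3⟩
    exact ⟨x, h2, h3⟩
  · rintro ⟨x, h2, h3⟩
    exact ⟨x, hC M A hM _ (hF.mem M A hM v hv) x h2, h2, h3⟩

theorem UD.ball (hC : IsT C) {F : UFunF.{u} k} (hF : UF C F)
    {R : Set ZFSet.{u} → Set ZFSet.{u} → ZFSet.{u} → (Fin k → ZFSet.{u}) → Prop}
    (h : UD C (k := k + 1) (fun M A w => R M A (w 0) (Fin.tail w))) :
    UD C (fun M A v => ∀ x ∈ F M A v, R M A x v) :=
  (UD.bex hC hF (R := fun M A x v => ¬ R M A x v) h.not).not.congr fun M A _ v _ => by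
    push Not; rfl

/-- A function whose values lie in `M` and whose graph is given by a condition. -/
theorem UF.of_ext (hC : IsT C) {F : UFunF.{u} k}
    (hm : ∀ M A, C M A → ∀ v : Fin k → ZFSet.{u}, (∀ i, v i ∈ M) → F M A v ∈ M)
    {R : Set ZFSet.{u} → Set ZFSet.{u} → ZFSet.{u} → (Fin k → ZFSet.{u}) → Prop}
    (h : UD C (k := k + 1) (fun M A w => R M A (w 0) (Fin.tail w)))
    (hR : ∀ M A, C M A → ∀ v : Fin k → ZFSet.{u}, (∀ i, v i ∈ M) →
      ∀ x ∈ M, (x ∈ F M A v ↔ R M A x v)) : UF C F := by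
  refine ⟨hm, ?_⟩
  have h2 : UD C (k := k + 1 + 1) (fun M A w => (w 0 ∈ w 1 ↔ R M A (w 0) (Fin.tail
      (Fin.tail w)))) :=
    (UD.memv 0 1).iff (h.rn (Fin.cons 0 (fun i => i.succ.succ)))
  refine (UD.all (R := fun M A x w => (x ∈ w 0 ↔ R M A x (Fin.tail w))) h2).congr
    fun M A hM w hw => ?_
  constructor
  · intro h3
    apply ZFSet.ext
    intro z
    constructor
    · intro hz
      have hzM := hC M A hM _ (hw 0) z hz
      exact (hR M A hM _ (tail_mem hw) z hzM).2 ((h3 z hzM).1 hz)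
    · intro hz
      have hzM := hC M A hM _ (hm M A hM _ (tail_mem hw)) z hz
      exact (h3 z hzM).2 ((hR M A hM _ (tail_mem hw) z hzM).1 hz)
  · intro h3 x hx
    rw [h3]
    exact hR M A hM _ (tail_mem hw) x hx

/-- Definition of a function by a definable property of its value. -/
theorem UF.of_graph {F : UFunF.{u} k}
    (hm : ∀ M A, C M A → ∀ v : Fin k → ZFSet.{u}, (∀ i, v i ∈ M) → F M A v ∈ M)
    {R : Set ZFSet.{u} → Set ZFSet.{u} → ZFSet.{u} → (Fin k → ZFSet.{u}) → Prop}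
    (h : UD C (k := k + 1) (fun M A w => R M A (w 0) (Fin.tail w)))
    (hR : ∀ M A, C M A → ∀ v : Fin k → ZFSet.{u}, (∀ i, v i ∈ M) →
      ∀ x ∈ M, (x = F M A v ↔ R M A x v)) : UF C F :=
  ⟨hm, h.congr fun M A hM w hw => (hR M A hM _ (tail_mem hw) _ (hw 0)).symm⟩

end Pool.Agent.Helper66.SC
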