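import Pool.Agent.Helper22.SC.Conv
import Pool.Agent.Helper66.SC.Levy

universe u

namespace Pool.Agent.Helper66.SC

open ZFSet
open Pool.Agent.Helper22.SC (URel U In in_zfset in_prod in_fin ZCls ud1_iff)

/-! Forgetting the predicate. -/

def Fml.np : {k : ℕ} → Fml k → Fml k
  | _, .mem i j => .mem i j
  | _, .eq i j => .eq i j
  | _, .pr i => .neg (.eq i i)
  | _, .neg φ => .neg φ.np
  | _, .and φ ψ => .and φ.np ψ.np
  | _, .ex φ => .ex φ.np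

theorem sat_np {M A : Set ZFSet.{u}} {k : ℕ} (φ : Fml k) (v : Fin k → ZFSet.{u}) :
    Sat M A φ.np v ↔ Sat M ∅ φ v := by
  induction φ with
  | mem i j => exact Iff.rfl
  | eq i j => exact Iff.rfl
  | pr i => simp [Fml.np, Sat]
  | neg φ ih => exact not_congr (ih v)
  | and φ ψ ih1 ih2 => exact and_congr (ih1 v) (ih2 v)
  | ex φ ih => exact exists_congr fun x => and_congr_right fun _ => ih _

theorem IsZF.forget {M A : Set ZFSet.{u}} (h : IsZF M A) : IsZF M ∅ where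
  trans := h.trans
  omega := h.omega
  pair := h.pair
  sUnion := h.sUnion
  power := h.power
  sep k φ p hp a ha := by
    obtain ⟨b, hb, h1⟩ := h.sep k φ.np p hp a ha
    refine ⟨b, hb, fun x => ?_⟩
    rw [h1, sat_np]
  repl k φ p hp a ha h1 := by
    have h2 : ∀ x ∈ a, ∃! y, y ∈ M ∧ Sat M A φ.np (Fin.cons x (Fin.cons y p)) := by
      intro x hx
      simpa only [sat_np] using h1 x hx
    obtain ⟨b, hb, h3⟩ := h.repl k φ.np p hp a ha h2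
    refine ⟨b, hb, fun y => ?_⟩
    simpa only [sat_np] using h3 y

theorem LOf_congr {M K A : Set ZFSet.{u}} (h : ∀ o : Ordinal.{u}, oz o ∈ M ↔ oz o ∈ K) :
    LOf M A = LOf K A := by
  ext x
  constructor
  · rintro ⟨o, ho, hx⟩
    exact ⟨o, (h o).1 ho, hx⟩
  · rintro ⟨o, ho, hx⟩
    exact ⟨o, (h o).2 ho, hx⟩

theorem IsZF.oz_of_lt {M A : Set ZFSet.{u}} (h : IsZF M A) {a o : Ordinal.{u}} (ho : oz o ∈ M)
    (hao : a ≤ o) : oz a ∈ M := by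
  rcases hao.eq_or_lt with rfl | hlt
  · exact ho
  · exact h.trans _ ho _ (Ordinal.toZFSet_mem_toZFSet_iff.2 hlt)

theorem Ext_countable {M : Set ZFSet.{u}} (h : M.Countable) (G : ZFSet.{u}) :
    (Ext M G).Countable := by
  have : Ext M G ⊆ (fun t => val G t) '' M := by
    rintro x ⟨t, ht, rfl⟩
    exact ⟨t, ht, rfl⟩
  exact (h.image _).mono this

/-- Restricting injections to subsets. -/
theorem CardLe.sub_left {M A : Set ZFSet.{u}} (hM : IsZF M A) {x y z : ZFSet.{u}} (hx : x ∈ M)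
    (hxy : x ⊆ y) (h : CardLe M y z) : CardLe M x z := by
  obtain ⟨f, hf, hfun, hinj⟩ := h
  have hU : U (fun M A => IsZF M A) (fun _ _ (p : ZFSet.{u} × ZFSet.{u}) =>
      p.2.sep (fun t => ∃ a ∈ p.1, ∃ b ∈ (⋃₀ (⋃₀ p.2) : ZFSet.{u}), t = ZFSet.pair a b)) := by
    apply_rules (transparency := .reducible) (maxDepth := 400) using is_poly
  have h1 := in_zfset.1 (hU.closed hM (a := (x, f)) (by simp [hx, hf]))
  set g : ZFSet.{u} := f.sep (fun t => ∃ a ∈ x, ∃ b ∈ (⋃₀ (⋃₀ f) : ZFSet.{u}),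
    t = ZFSet.pair a b) with hg
  have hmem : ∀ a b, ZFSet.pair a b ∈ g ↔ a ∈ x ∧ ZFSet.pair a b ∈ f := by
    intro a b
    rw [hg, ZFSet.mem_sep]
    constructor
    · rintro ⟨h2, a', ha', b', _, h3⟩
      obtain ⟨rfl, rfl⟩ := ZFSet.pair_inj.1 h3
      exact ⟨ha', h2⟩
    · rintro ⟨h2, h3⟩
      exact ⟨h3, a, h2, b, (Pool.Agent.Helper22.SC.mem_UU h3).2, rfl⟩
  refine ⟨g, h1, ⟨?_, ?_⟩, ?_⟩
  · intro t ht
    obtain ⟨a, ha, b, _, rfl⟩ := (ZFSet.mem_sep.1 ht).2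
    have h4 := hfun.1 (ZFSet.mem_sep.1 ht).1
    rw [ZFSet.pair_mem_prod] at h4 ⊢
    exact ⟨ha, h4.2⟩
  · intro a ha
    obtain ⟨w, hw, hw'⟩ := hfun.2 a (hxy ha)
    refine ⟨w, (hmem a w).2 ⟨ha, hw⟩, fun w' h => hw' w' ((hmem a w').1 h).2⟩
  · intro a ha a' ha' b h2 h3
    exact hinj a (hxy ha) a' (hxy ha') b ((hmem a b).1 h2).2 ((hmem a' b).1 h3).2

theorem CardLe.mono {M K : Set ZFSet.{u}} (h : M ⊆ K) {x y : ZFSet.{u}} (hc : CardLe M x y) :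
    CardLe K x y := by
  obtain ⟨f, hf, h1⟩ := hc
  exact ⟨f, h hf, h1⟩

theorem union_empty' (x : ZFSet.{u}) : x ∪ ∅ = x := by
  ext z
  rw [ZFSet.mem_union]
  constructor
  · rintro (h | h)
    · exact h
    · exact absurd h (ZFSet.notMem_empty z)
  · exact Or.inl

/-- Decoding the real from the stability predicate. -/
theorem decode {N S : Set ZFSet.{u}} (hN : IsZF N S) {f : ZFSet.{u}} (hf : f ∈ N)
    {L : ℕ → Ordinal.{u}} (hL : ∀ x, x ∈ f ↔ ∃ n : ℕ, x = pair (nz n) (oz (L n)))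
    {r : ZFSet.{u}} (hr : r ⊆ ZFSet.omega)
    (h : ∀ n : ℕ, nz n ∈ r ↔ pair (nz 1) (pair (oz (L n)) (oz (L n))) ∉ S) : r ∈ N := by
  have hU : U (fun M A => IsZF M A) (fun _ A (p : ZFSet.{u}) =>
      (ZFSet.omega : ZFSet.{u}).sep (fun t => ∃ a ∈ (⋃₀ (⋃₀ p) : ZFSet.{u}),
        ZFSet.pair t a ∈ p ∧ ¬ (ZFSet.pair (Ordinal.toZFSet ((1 : ℕ) : Ordinal.{u}))
          (ZFSet.pair a a)) ∈ A)) := by
    apply_rules (transparency := .reducible) (maxDepth := 400) using is_poly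
  have h1 := in_zfset.1 (hU.closed hN (a := f) (in_zfset.2 hf))
  convert h1 using 1
  ext t
  rw [ZFSet.mem_sep]
  constructor
  · intro ht
    have h2 := hr ht
    obtain ⟨n, rfl⟩ := Pool.Agent.Helper22.SC.mem_omega_iff'.1 h2
    have h3 : ZFSet.pair (nz n) (oz (L n)) ∈ f := (hL _).2 ⟨n, rfl⟩
    exact ⟨h2, oz (L n), (Pool.Agent.Helper22.SC.mem_UU h3).2, h3, (h n).1 ht⟩
  · rintro ⟨h2, a, _, h3, h4⟩
    obtain ⟨n, rfl⟩ := Pool.Agent.Helper22.SC.mem_omega_iff'.1 h2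
    obtain ⟨m, hm⟩ := (hL _).1 h3
    obtain ⟨h5, rfl⟩ := ZFSet.pair_inj.1 hm
    have h6 := Ordinal.toZFSet_injective h5
    have h7 : n = m := by exact_mod_cast h6
    subst h7
    exact (h n).2 h4

theorem stab_iff {M : Set ZFSet.{u}} {o : Ordinal.{u}} :
    pair (nz 1) (pair (oz o) (oz o)) ∈ StabPred M ↔ IsGood M 1 (oz o) := by
  constructor
  · rintro ⟨n, α, β, _, h1, _, _, h2⟩
    obtain ⟨h3, h4⟩ := ZFSet.pair_inj.1 h2
    obtain ⟨h5, _⟩ := ZFSet.pair_inj.1 h4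
    have h6 : 1 = n := by exact_mod_cast Ordinal.toZFSet_injective h3
    subst h6
    rw [h5]
    exact h1
  · intro h
    exact ⟨1, _, _, le_rfl, h, h, ⟨fun _ hx => hx, fun _ _ _ _ _ => Iff.rfl⟩, rfl⟩

theorem goal_of (hC1 : ST_C1) (hD0 : ST_D0.{0}) (hD1 : ST_D1.{0}) (hD2 : ST_D2.{0})
    (hD3 : ST_D3.{0}) (hFB0 : ST_FB0.{0}) (hFB1 : ST_FB1.{0}) (hFB1e : ST_FB1e.{0})
    (hFB4 : ST_FB4.{0}) (hFB5 : ST_FB5.{0}) (hAC2 : ST_AC2.{0}) (hF1 : ST_F1.{0})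
    (hF3 : ST_F3.{0}) (hE1 : ST_E1.{0}) (hG0 : ST_G0.{0}) (hG1 : ST_G1.{0}) (hG3 : ST_G3.{0})
    (hG4 : ST_G4.{0}) (hG5 : ST_G5.{0}) (hH1 : ST_H1.{0}) (hH2 : ST_H2.{0}) (hH3 : ST_H3.{0})
    (hH4 : ST_H4.{0}) : Goal := by
  obtain ⟨M0, hM0c, hM0⟩ := hC1
  -- the ground model
  set W : Set ZFSet.{0} := LOf M0 ∅ with hW
  have hWZ : IsZF W ∅ := hD2 M0 ∅ hM0
  obtain ⟨hW1, hW2, hW3, hW4⟩ := hD1 M0 ∅ hM0
  have hWc : W.Countable := hM0c.mono hW1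
  have hWWO : WO W := by
    rintro x ⟨o, ho, hx⟩
    have ho' : oz o ∈ W := (hW3 o).2 ho
    obtain ⟨c, hc, h1⟩ := hD3 W ∅ hWZ o ho'
    exact ⟨c, hc, CardLe.sub_left hWZ ⟨o, ho, hx⟩ (fun y hy => (hD0 ∅).1 o x hx y hy) h1⟩
  obtain ⟨L, hLmono, hLBL, f, hf, hfL⟩ := hG1 W hWZ hWWO
  -- the Cohen extension
  obtain ⟨hCoh1, hCoh2, hCoh3, hCoh4, hCoh5⟩ := hH1 W ∅ hWZ
  obtain ⟨Gc, hGc, _⟩ := hFB0 W (Coh W) hWc hCoh1 hCoh2 hWZ.trans ∅ hCoh2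
  set W1 : Set ZFSet.{0} := Ext W Gc with hW1def
  have hW1Z : IsZF W1 ∅ := hFB4 W (Coh W) Gc hWZ hCoh1 hGc
  have hW1WO : WO W1 := hFB5 W (Coh W) Gc hWZ hCoh1 hGc hWWO
  have hW1c : W1.Countable := Ext_countable hWc Gc
  obtain ⟨hWW1, hGcW1, _, hordW1, _⟩ := hFB1 W ∅ (Coh W) Gc hWZ hCoh1 hGc
  obtain ⟨hreal, hrealG⟩ := hCoh5 Gc hGc
  set r : ZFSet.{0} := real Gc with hr
  have hrW1 : r ∈ W1 := (hrealG W1 ∅ hW1Z hWW1).2 hGcW1
  have hromega : r ⊆ ZFSet.omega := fun x hx => (ZFSet.mem_sep.1 hx).1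
  have hSplit : Split W (Coh W) (Coh W) {∅} := by
    have h0 : ({∅} : ZFSet.{0}) ∈ W := by
      have := hWZ.pair ∅ (hWZ.trans _ hCoh1 _ hCoh2) ∅ (hWZ.trans _ hCoh1 _ hCoh2)
      rwa [ZFSet.pair_eq_singleton] at this
    refine ⟨hCoh1, hCoh1, h0, hCoh2, ZFSet.mem_singleton.2 rfl, ?_, ?_, ?_⟩
    · intro b hb q hq
      rw [ZFSet.mem_singleton] at hq
      subst hq
      rwa [union_empty']
    · intro p hp
      exact ⟨p, hp, ∅, ZFSet.mem_singleton.2 rfl, (union_empty' p).symm⟩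
    · intro b hb b' hb' q hq q' hq' h
      rw [ZFSet.mem_singleton] at hq hq'
      subst hq
      subst hq'
      rw [union_empty', union_empty'] at h
      exact ⟨h, fun _ hx => hx⟩
  have hSLW1 : ∀ n, SL W1 (L n) := by
    intro n
    refine hG3 W (Coh W) (Coh W) {∅} Gc (L n) hWZ hWWO hSplit hGc (hG0 W ∅ hWZ _ (hLBL n))
      (hCoh4 _ (hLBL n)) ?_
    intro θ _ c hc hcsub _ _ hne
    rw [ZFSet.mem_singleton]
    ext z
    rw [ZFSet.mem_sUnion]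
    constructor
    · rintro ⟨y, hy, hz⟩
      have := hcsub hy
      rw [ZFSet.mem_singleton] at this
      subst this
      exact hz
    · intro hz
      exact absurd hz (ZFSet.notMem_empty z)
  have hLS : LSeq W1 L := ⟨hLmono, hSLW1, f, hWW1 f hf, hfL⟩
  -- the coding extension
  obtain ⟨hP1, hP2, hP3, _⟩ := hH2 W1 L r hW1Z hW1WO hLS hrW1 hromega
  set P : ZFSet.{0} := PP W1 L r with hPdef
  obtain ⟨G, hG, _⟩ := hFB0 W1 P hW1c hP1 hP2 hW1Z.trans ∅ hP2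
  set M : Set ZFSet.{0} := Ext W1 G with hMdef
  have hMZ : IsZF M ∅ := hFB4 W1 P G hW1Z hP1 hG
  have hMWO : WO M := hFB5 W1 P G hW1Z hP1 hG hW1WO
  have hMC : HasChoice M := hAC2 M ∅ hMZ hMWO
  have hMc : M.Countable := Ext_countable hW1c G
  obtain ⟨hW1M, hGM, _, hordM, _⟩ := hFB1 W1 ∅ P G hW1Z hP1 hG
  -- the stability predicate
  obtain ⟨σ, hσ⟩ := hE1
  have hσ' : ∀ K : Set ZFSet.{0}, IsZF K ∅ → HasChoice K → ∀ x ∈ K,
      (Sat K ∅ σ ![x] ↔ x ∈ StabPred K) := by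
    intro K hK hKC x hx
    have := hσ K ∅ ⟨hK, hKC⟩ ![x] (fun i => by
      fin_cases i
      exact hx)
    simpa using this
  set S : Set ZFSet.{0} := StabPred M with hS
  have hMS : IsZF M S := by
    refine hF3 M S 0 σ Fin.elim0 hMZ (fun i => i.elim0) (fun x hx => ?_)
    rw [← hσ' M hMZ hMC x hx]
    have : (Fin.cons x Fin.elim0 : Fin 1 → ZFSet.{0}) = ![x] := by
      funext i
      fin_cases i
      rfl
    rw [this]
  have hW1S : IsZF W1 S := by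
    obtain ⟨ψ, hψ⟩ := hF1 W1 P hW1c hW1Z hP1 hP2 hP3 σ
    refine hF3 W1 S 1 ψ ![P] hW1Z (fun i => by fin_cases i; exact hP1) (fun x hx => ?_)
    rw [← hσ' M hMZ hMC x (hW1M x hx), hψ G hG x hx]
    rfl
  have hNW1 : StableCore M ⊆ W1 := by
    have h1 : StableCore M = LOf W1 S := LOf_congr hordM
    rw [h1]
    exact (hD1 W1 S hW1S).1
  set N : Set ZFSet.{0} := StableCore M with hN
  have hNS : IsZF N S := hD2 M S hMS
  have hordN : ∀ o, oz o ∈ N ↔ oz o ∈ M := (hD1 M S hMS).2.2.1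
  have hordWN : ∀ o : Ordinal.{0}, oz o ∈ N ↔ oz o ∈ M0 := fun o =>
    (hordN o).trans ((hordM o).trans ((hordW1 o).trans (hW3 o)))
  have hWN : W ⊆ N := by
    have h1 : W = LOf N ∅ := (LOf_congr hordWN).symm
    rw [h1]
    exact (hD1 N ∅ hNS.forget).1
  have hcode : ∀ n : ℕ, nz n ∈ r ↔ pair (nz 1) (pair (oz (L n)) (oz (L n))) ∉ S := by
    intro n
    rw [hS, stab_iff]
    constructor
    · intro hn hgood
      exact hH3 W1 L r G hW1Z hW1WO hLS hrW1 hromega hG n hn hgood.1.1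
    · intro hn
      by_contra hnr
      obtain ⟨h1, h2, h3⟩ := hH4 W1 L r hW1Z hW1WO hLS hrW1 hromega n hnr
      have hSL : SL M (L n) := hG3 W1 P _ _ G (L n) hW1Z hW1WO h1 hG (hSLW1 n) h2 h3
      exact hn ⟨hG4 M ∅ hMZ _ hSL, hG5 M hMZ hMWO _ hSL⟩
  have hrN : r ∈ N := decode hNS (hWN hf) hfL hromega hcode
  have hGcN : Gc ∈ N := (hrealG N S hNS hWN).1 hrN
  have hW1N : W1 ⊆ N := hFB1e W N S Gc hNS hWN hGcN
  have hNeq : N = W1 := Set.Subset.antisymm hNW1 hW1N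
  -- the second stable core
  have hW1C : HasChoice W1 := hAC2 W1 ∅ hW1Z hW1WO
  have hWS : IsZF W (StabPred W1) := by
    obtain ⟨ψ, hψ⟩ := hF1 W (Coh W) hWc hWZ hCoh1 hCoh2 hCoh3 σ
    refine hF3 W _ 1 ψ ![Coh W] hWZ (fun i => by fin_cases i; exact hCoh1) (fun x hx => ?_)
    rw [← hσ' W1 hW1Z hW1C x (hWW1 x hx), hψ Gc hGc x hx]
    rfl
  have h2 : StableCore N ⊆ W := by
    rw [hNeq]
    have h1 : StableCore W1 = LOf W (StabPred W1) := LOf_congr hordW1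
    rw [h1]
    exact (hD1 W _ hWS).1
  refine ⟨M, hMc, ⟨hMZ, hMC⟩, ?_, ?_⟩
  · rw [← hN, hNeq]
    exact ⟨hW1Z, hW1C⟩
  · rw [← hN]
    refine ⟨h2.trans hWN, fun h3 => hreal (h2 (h3 hrN))⟩

end Pool.Agent.Helper66.SC
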