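import Pool.Agent.Helper66.SC.Final
import Pool.Agent.Helper66.SC.Defs2

universe u

namespace Pool.Agent.Helper66.SC

open ZFSet
open Pool.Agent.Helper22.SC (URel U In in_zfset in_prod in_fin ZCls ud1_iff pfst psnd pfst_pair
  psnd_pair)

theorem ud_stab (hE1 : ST_E1.{u}) (s : Bool) : UD1 CZC.{u} (fun M _ x => x ∈ Stab s M) := by
  unfold ST_E1 at hE1
  rw [ud1_iff] at hE1 ⊢
  cases s with
  | false =>
    refine hE1.congr fun M A _ x _ => ?_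
    constructor
    · rintro ⟨n, α, β, h1, h2, h3, h4, h5⟩
      exact ⟨n, α, β, h1, h2, h3, fun h => absurd h (by decide), h4, h5⟩
    · rintro ⟨n, α, β, h1, h2, h3, _, h4, h5⟩
      exact ⟨n, α, β, h1, h2, h3, h4, h5⟩
  | true =>
    have h : URel CZC (fun _ _ (x : ZFSet.{u}) => pfst (psnd x) ∈ psnd (psnd x)) := by
      apply_rules (transparency := .reducible) (maxDepth := 400) using is_poly
    refine (hE1.and h).congr fun M A _ x _ => ?_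
    constructor
    · rintro ⟨⟨n, α, β, h1, h2, h3, h4, rfl⟩, h6⟩
      rw [psnd_pair, pfst_pair, psnd_pair] at h6
      exact ⟨n, α, β, h1, h2, h3, fun _ => h6, h4, rfl⟩
    · rintro ⟨n, α, β, h1, h2, h3, h6, h4, rfl⟩
      rw [psnd_pair, pfst_pair, psnd_pair]
      exact ⟨⟨n, α, β, h1, h2, h3, h4, rfl⟩, h6 rfl⟩

theorem stab_good {s : Bool} {M : Set ZFSet.{u}} {a b : ZFSet.{u}}
    (h : pair (nz 1) (pair a b) ∈ Stab s M) : IsGood M 1 a := by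
  obtain ⟨n, α, β, _, h1, _, _, _, h2⟩ := h
  obtain ⟨h3, h4⟩ := ZFSet.pair_inj.1 h2
  obtain ⟨h5, _⟩ := ZFSet.pair_inj.1 h4
  have h6 : 1 = n := by exact_mod_cast Ordinal.toZFSet_injective h3
  subst h6
  rw [h5]
  exact h1

/-- Decoding the real from the stability predicate. -/
theorem decode2 {N S : Set ZFSet.{u}} (hN : IsZF N S) {f : ZFSet.{u}} (hf : f ∈ N)
    {L : ℕ → Ordinal.{u}} (hL : ∀ x, x ∈ f ↔ ∃ n : ℕ, x = pair (nz n) (oz (L n)))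
    (hmono : StrictMono L) {r : ZFSet.{u}} (hr : r ⊆ ZFSet.omega)
    (h : ∀ n : ℕ, nz n ∈ r ↔ ∀ m : ℕ, n < m →
      pair (nz 1) (pair (oz (L n)) (oz (L m))) ∉ S) : r ∈ N := by
  have hU : U (fun M A => IsZF M A) (fun _ A (p : ZFSet.{u}) =>
      (ZFSet.omega : ZFSet.{u}).sep (fun t => ∃ a ∈ (⋃₀ (⋃₀ p) : ZFSet.{u}),
        ZFSet.pair t a ∈ p ∧ ∀ z ∈ p, a ∈ psnd z →
          ¬ (ZFSet.pair (Ordinal.toZFSet ((1 : ℕ) : Ordinal.{u}))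
          (ZFSet.pair a (psnd z))) ∈ A)) := by
    apply_rules (transparency := .reducible) (maxDepth := 400) using is_poly
  have h1 := in_zfset.1 (hU.closed hN (a := f) (in_zfset.2 hf))
  convert h1 using 1
  ext t
  rw [ZFSet.mem_sep]
  constructor
  · intro ht
    have h2 := hr ht
    obtain ⟨n, rfl⟩ := Pool.Agent.Helper22.SC.mem_omega_iff'.1 h2
    have h3 : ZFSet.pair (nz n) (oz (L n)) ∈ f := (hL _).2 ⟨n, rfl⟩
    refine ⟨h2, oz (L n), (Pool.Agent.Helper22.SC.mem_UU h3).2, h3, ?_⟩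
    intro z hz hnz
    obtain ⟨m, rfl⟩ := (hL z).1 hz
    rw [psnd_pair] at hnz ⊢
    have h4 : L n < L m := Ordinal.toZFSet_mem_toZFSet_iff.1 hnz
    exact (h n).1 ht m (hmono.lt_iff_lt.1 h4)
  · rintro ⟨h2, a, _, h3, h4⟩
    obtain ⟨n, rfl⟩ := Pool.Agent.Helper22.SC.mem_omega_iff'.1 h2
    obtain ⟨m, hm⟩ := (hL _).1 h3
    obtain ⟨h5, rfl⟩ := ZFSet.pair_inj.1 hm
    have h6 := Ordinal.toZFSet_injective h5
    have h7 : n = m := by exact_mod_cast h6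
    subst h7
    refine (h n).2 fun m hnm => ?_
    have h8 : ZFSet.pair (nz m) (oz (L m)) ∈ f := (hL _).2 ⟨m, rfl⟩
    have h9 := h4 _ h8
    rw [psnd_pair] at h9
    exact h9 (Ordinal.toZFSet_mem_toZFSet_iff.2 (hmono hnm))

theorem goal2_of (hC1 : ST_C1) (hD0 : ST_D0.{0}) (hD1 : ST_D1.{0}) (hD2 : ST_D2.{0})
    (hD3 : ST_D3.{0}) (hFB0 : ST_FB0.{0}) (hFB1 : ST_FB1.{0}) (hFB1e : ST_FB1e.{0})
    (hFB4 : ST_FB4.{0}) (hFB5 : ST_FB5.{0}) (hAC2 : ST_AC2.{0}) (hF1 : ST_F1.{0})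
    (hF3 : ST_F3.{0}) (hE1 : ST_E1.{0}) (hG0 : ST_G0.{0}) (hG1 : ST_G1.{0}) (hG3 : ST_G3.{0})
    (hG4 : ST_G4.{0}) (hG5 : ST_G5.{0}) (hH1 : ST_H1.{0}) (hH2 : ST_H2.{0}) (hH3 : ST_H3.{0})
    (hH4 : ST_H4.{0}) (hG6 : ST_G6.{0}) (hH1b : ST_H1b.{0}) : Goal2 := by
  obtain ⟨M0, hM0c, hM0⟩ := hC1
  -- the ground model
  set W : Set ZFSet.{0} := LOf M0 ∅ with hW
  have hWZ : IsZF W ∅ := hD2 M0 ∅ hM0
  obtain ⟨hW1, hW2, hW3, hW4⟩ := hD1 M0 ∅ hM0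
  have hWc : W.Countable := hM0c.mono hW1
  have hWWO : WO W := by
    rintro x ⟨o, ho, hx⟩
    have ho' : oz o ∈ W := (hW3 o).2 ho
    obtain ⟨c, hc, h1⟩ := hD3 W ∅ hWZ o ho'
    exact ⟨c, hc, CardLe.sub_left hWZ ⟨o, ho, hx⟩ (fun y hy => (hD0 ∅).1 o x hx y hy) h1⟩
  obtain ⟨L, hLmono, hLBL, f, hf, hfL⟩ := hG1 W hWZ hWWO
  -- the Cohen extension
  obtain ⟨hCoh1, hCoh2, hCoh3, hCoh4, hCoh5⟩ := hH1 W ∅ hWZ
  obtain ⟨Gc, hGc, _⟩ := hFB0 W (Coh W) hWc hCoh1 hCoh2 hWZ.trans ∅ hCoh2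
  set W1 : Set ZFSet.{0} := Ext W Gc with hW1def
  have hW1Z : IsZF W1 ∅ := hFB4 W (Coh W) Gc hWZ hCoh1 hGc
  have hW1WO : WO W1 := hFB5 W (Coh W) Gc hWZ hCoh1 hGc hWWO
  have hW1c : W1.Countable := Ext_countable hWc Gc
  obtain ⟨hWW1, hGcW1, _, hordW1, _⟩ := hFB1 W ∅ (Coh W) Gc hWZ hCoh1 hGc
  obtain ⟨hreal, hrealG⟩ := hCoh5 Gc hGc
  set r : ZFSet.{0} := real Gc with hr
  have hrW1 : r ∈ W1 := (hrealG W1 ∅ hW1Z hWW1).2 hGcW1
  have hromega : r ⊆ ZFSet.omega := fun x hx => (ZFSet.mem_sep.1 hx).1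
  have hSplit : Split W (Coh W) (Coh W) {∅} := by
    have h0 : ({∅} : ZFSet.{0}) ∈ W := by
      have := hWZ.pair ∅ (hWZ.trans _ hCoh1 _ hCoh2) ∅ (hWZ.trans _ hCoh1 _ hCoh2)
      rwa [ZFSet.pair_eq_singleton] at this
    refine ⟨hCoh1, hCoh1, h0, hCoh2, ZFSet.mem_singleton.2 rfl, ?_, ?_, ?_⟩
    · intro b hb q hq
      rw [ZFSet.mem_singleton] at hq
      subst hq
      rwa [union_empty']
    · intro p hp
      exact ⟨p, hp, ∅, ZFSet.mem_singleton.2 rfl, (union_empty' p).symm⟩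
    · intro b hb b' hb' q hq q' hq' h
      rw [ZFSet.mem_singleton] at hq hq'
      subst hq
      subst hq'
      rw [union_empty', union_empty'] at h
      exact ⟨h, fun _ hx => hx⟩
  have hSLW1 : ∀ n, SL W1 (L n) := by
    intro n
    refine hG3 W (Coh W) (Coh W) {∅} Gc (L n) hWZ hWWO hSplit hGc (hG0 W ∅ hWZ _ (hLBL n))
      (hCoh4 _ (hLBL n)) ?_
    intro θ _ c hc hcsub _ _ hne
    rw [ZFSet.mem_singleton]
    ext z
    rw [ZFSet.mem_sUnion]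
    constructor
    · rintro ⟨y, hy, hz⟩
      have := hcsub hy
      rw [ZFSet.mem_singleton] at this
      subst this
      exact hz
    · intro hz
      exact absurd hz (ZFSet.notMem_empty z)
  have hLS : LSeq W1 L := ⟨hLmono, hSLW1, f, hWW1 f hf, hfL⟩
  -- the coding extension
  obtain ⟨hP1, hP2, hP3, _⟩ := hH2 W1 L r hW1Z hW1WO hLS hrW1 hromega
  set P : ZFSet.{0} := PP W1 L r with hPdef
  obtain ⟨G, hG, _⟩ := hFB0 W1 P hW1c hP1 hP2 hW1Z.trans ∅ hP2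
  set M : Set ZFSet.{0} := Ext W1 G with hMdef
  have hMZ : IsZF M ∅ := hFB4 W1 P G hW1Z hP1 hG
  have hMWO : WO M := hFB5 W1 P G hW1Z hP1 hG hW1WO
  have hMC : HasChoice M := hAC2 M ∅ hMZ hMWO
  have hMc : M.Countable := Ext_countable hW1c G
  obtain ⟨hW1M, hGM, _, hordM, _⟩ := hFB1 W1 ∅ P G hW1Z hP1 hG
  refine ⟨M, hMc, ⟨hMZ, hMC⟩, fun s => ?_⟩
  -- the stability predicate
  obtain ⟨σ, hσ⟩ := ud_stab hE1 s
  have hσ' : ∀ K : Set ZFSet.{0}, IsZF K ∅ → HasChoice K → ∀ x ∈ K,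
      (Sat K ∅ σ ![x] ↔ x ∈ Stab s K) := by
    intro K hK hKC x hx
    have := hσ K ∅ ⟨hK, hKC⟩ ![x] (fun i => by
      fin_cases i
      exact hx)
    simpa using this
  set S : Set ZFSet.{0} := Stab s M with hS
  have hMS : IsZF M S := by
    refine hF3 M S 0 σ Fin.elim0 hMZ (fun i => i.elim0) (fun x hx => ?_)
    rw [← hσ' M hMZ hMC x hx]
    have : (Fin.cons x Fin.elim0 : Fin 1 → ZFSet.{0}) = ![x] := by
      funext i
      fin_cases i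
      rfl
    rw [this]
  have hW1S : IsZF W1 S := by
    obtain ⟨ψ, hψ⟩ := hF1 W1 P hW1c hW1Z hP1 hP2 hP3 σ
    refine hF3 W1 S 1 ψ ![P] hW1Z (fun i => by fin_cases i; exact hP1) (fun x hx => ?_)
    rw [← hσ' M hMZ hMC x (hW1M x hx), hψ G hG x hx]
    rfl
  have hNW1 : SCore s M ⊆ W1 := by
    have h1 : SCore s M = LOf W1 S := LOf_congr hordM
    rw [h1]
    exact (hD1 W1 S hW1S).1
  set N : Set ZFSet.{0} := SCore s M with hN
  have hNS : IsZF N S := hD2 M S hMS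
  have hordN : ∀ o, oz o ∈ N ↔ oz o ∈ M := (hD1 M S hMS).2.2.1
  have hordWN : ∀ o : Ordinal.{0}, oz o ∈ N ↔ oz o ∈ M0 := fun o =>
    (hordN o).trans ((hordM o).trans ((hordW1 o).trans (hW3 o)))
  have hWN : W ⊆ N := by
    have h1 : W = LOf N ∅ := (LOf_congr hordWN).symm
    rw [h1]
    exact (hD1 N ∅ hNS.forget).1
  have hgood : ∀ n : ℕ, nz n ∉ r → SL M (L n) ∧ IsGood M 1 (oz (L n)) := by
    intro n hnr
    obtain ⟨h1, h2, h3⟩ := hH4 W1 L r hW1Z hW1WO hLS hrW1 hromega n hnr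
    have hSL : SL M (L n) := hG3 W1 P _ _ G (L n) hW1Z hW1WO h1 hG (hSLW1 n) h2 h3
    exact ⟨hSL, hG4 M ∅ hMZ _ hSL, hG5 M hMZ hMWO _ hSL⟩
  have hcode : ∀ n : ℕ, nz n ∈ r ↔ ∀ m : ℕ, n < m →
      pair (nz 1) (pair (oz (L n)) (oz (L m))) ∉ S := by
    intro n
    constructor
    · intro hn m _ hmem
      exact hH3 W1 L r G hW1Z hW1WO hLS hrW1 hromega hG n hn (stab_good hmem).1.1
    · intro hn
      by_contra hnr
      obtain ⟨m, hm, hmr⟩ := hH1b W ∅ hWZ Gc hGc n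
      obtain ⟨h1, h2⟩ := hgood n hnr
      obtain ⟨h3, h4⟩ := hgood m hmr
      have hlt : L n < L m := hLmono hm
      exact hn m hm ⟨1, _, _, le_rfl, h2, h4,
        fun _ => Ordinal.toZFSet_mem_toZFSet_iff.2 hlt,
        hG6 M hMZ hMWO _ _ h1 h3 hlt.le, rfl⟩
  have hrN : r ∈ N := decode2 hNS (hWN hf) hfL hLmono hromega hcode
  have hGcN : Gc ∈ N := (hrealG N S hNS hWN).1 hrN
  have hW1N : W1 ⊆ N := hFB1e W N S Gc hNS hWN hGcN
  have hNeq : N = W1 := Set.Subset.antisymm hNW1 hW1N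
  -- the second stable core
  have hW1C : HasChoice W1 := hAC2 W1 ∅ hW1Z hW1WO
  have hWS : IsZF W (Stab s W1) := by
    obtain ⟨ψ, hψ⟩ := hF1 W (Coh W) hWc hWZ hCoh1 hCoh2 hCoh3 σ
    refine hF3 W _ 1 ψ ![Coh W] hWZ (fun i => by fin_cases i; exact hCoh1) (fun x hx => ?_)
    rw [← hσ' W1 hW1Z hW1C x (hWW1 x hx), hψ Gc hGc x hx]
    rfl
  have h2 : SCore s N ⊆ W := by
    rw [hNeq]
    have h1 : SCore s W1 = LOf W (Stab s W1) := LOf_congr hordW1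
    rw [h1]
    exact (hD1 W _ hWS).1
  refine ⟨?_, ?_⟩
  · rw [hNeq]
    exact ⟨hW1Z, hW1C⟩
  · refine ⟨h2.trans hWN, fun h3 => hreal (h2 (h3 hrN))⟩

end Pool.Agent.Helper66.SC
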